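import Pool.Agent.ANG.Stmts

/-!
# ANG_CARL : the Carleson sum   (helper63)
-/

set_option autoImplicit false

namespace Pool.Agent.ANG

open MeasureTheory Set Pool.Agent.ANL

namespace CARL

variable {N : ℕ} {X : Finset ℂ} {m : ℂ → ℝ} {lab : ℂ → Fin N}

lemma Mc_congr (f : ℂ → ℤ × ℤ) {v w : ℂ} (h : f v = f w) : Mc X m f v = Mc X m f w := by
  unfold Mc
  rw [h]

lemma Mi_congr (f : ℂ → ℤ × ℤ) {v w : ℂ} (h : f v = f w) (h' : lab v = lab w) :
    Mi X m f lab v = Mi X m f lab w := by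
  unfold Mi
  rw [h, h']

lemma Mi_pos (f : ℂ → ℤ × ℤ) (hm : ∀ x ∈ X, 0 < m x) {w : ℂ} (hw : w ∈ X) :
    0 < Mi X m f lab w := by
  classical
  unfold Mi
  exact Finset.sum_pos (fun y hy => hm y (Finset.mem_filter.1 hy).1)
    ⟨w, Finset.mem_filter.2 ⟨hw, rfl, rfl⟩⟩

lemma Mi_le (f : ℂ → ℤ × ℤ) (hm : ∀ x ∈ X, 0 < m x) (w : ℂ) :
    Mi X m f lab w ≤ Mc X m f w := by
  classical
  unfold Mi Mc
  refine Finset.sum_le_sum_of_subset_of_nonneg ?_ fun y hy _ => (hm y (Finset.mem_filter.1 hy).1).le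
  intro y hy
  rw [Finset.mem_filter] at hy ⊢
  exact ⟨hy.1, hy.2.1⟩

/-- the density class -/
def cls (X : Finset ℂ) (m : ℂ → ℝ) (lab : ℂ → Fin N) (u : ℂ) (v : ℕ) (k : ℤ) (w : ℂ) : Prop :=
  (1 / 2 : ℝ) ^ v * (2 : ℝ) ^ (-k) < Mi X m (cell u k) lab w ∧
    Mi X m (cell u k) lab w ≤ 2 * (1 / 2 : ℝ) ^ v * (2 : ℝ) ^ (-k)

lemma cls_congr {u : ℂ} {v : ℕ} {k : ℤ} {w w' : ℂ} (hl : lab w = lab w')
    (hc : cell u k w = cell u k w') (h : cls X m lab u v k w) : cls X m lab u v k w' := by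
  unfold cls at h ⊢
  rwa [← Mi_congr (cell u k) hc hl]

lemma exists_cls (hm : ∀ x ∈ X, 0 < m x) {u : ℂ} {k : ℤ} {w : ℂ} (hw : w ∈ X)
    (hk : Mc X m (cell u k) w ≤ 2 * (2 : ℝ) ^ (-k)) : ∃ v : ℕ, cls X m lab u v k w := by
  have h2 : (0 : ℝ) < (2 : ℝ) ^ (-k) := zpow_pos (by norm_num) _
  have h0 : 0 < Mi X m (cell u k) lab w / (2 * (2 : ℝ) ^ (-k)) :=
    div_pos (Mi_pos _ hm hw) (by positivity)
  have h1 : Mi X m (cell u k) lab w / (2 * (2 : ℝ) ^ (-k)) ≤ 1 := by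
    rw [div_le_one (by positivity)]
    exact (Mi_le _ hm w).trans hk
  obtain ⟨v, hv1, hv2⟩ := exists_nat_pow_near_of_lt_one h0 h1 (show (0 : ℝ) < 1 / 2 by norm_num)
    (by norm_num)
  refine ⟨v, ?_, ?_⟩
  · rw [lt_div_iff₀ (by positivity), pow_succ] at hv1
    linarith
  · rw [div_le_iff₀ (by positivity)] at hv2
    linarith

open Classical in
/-- one class, all labels -/
lemma sum_class (hCL : Stmt_CL) {Γ : Fin N → Set ℂ} {u : ℂ} {a b : ℤ} {M : ℝ} (hM : 0 ≤ M)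
    (hm : ∀ x ∈ X, 0 < m x) (hΓ : ∀ x ∈ X, x ∈ Γ (lab x)) (hP : ∀ i, Pack u M (Γ i)) (v : ℕ)
    (P : ℤ → ℂ → Prop)
    (hcell : ∀ k, ∀ w ∈ X, ∀ w' ∈ X, lab w = lab w' → cell u k w = cell u k w' → P k w → P k w')
    (hPv : ∀ k w, P k w → cls X m lab u v k w) :
    (∑ w ∈ X, m w * ∑ k ∈ (Finset.Icc a b).filter (fun k => P k w), al Γ lab u k w ^ 2 ≤
      2 * M * ∑ w ∈ X, m w) ∧
    ∀ ρ : ℝ, 0 ≤ ρ → (∀ k, ∀ w ∈ X, P k w → Mi X m (cell u k) lab w ≤ ρ * Mc X m (cell u k) w) →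
      ∑ w ∈ X, m w * ∑ k ∈ (Finset.Icc a b).filter (fun k => P k w), al Γ lab u k w ^ 2 ≤
        2 * M * (N * ρ * ∑ w ∈ X, m w) := by
  have hv : (0 : ℝ) < (1 / 2 : ℝ) ^ v := by positivity
  have key : ∀ i : Fin N, ∀ ρ : ℝ, 0 ≤ ρ → 
      (∑ w ∈ X.filter (fun w => lab w = i), m w *
        ∑ k ∈ (Finset.Icc a b).filter (fun k => P k w), al Γ lab u k w ^ 2 ≤
      2 * M * ∑ w ∈ X.filter (fun w => lab w = i ∧ ∃ k ∈ Finset.Icc a b, P k w), m w) ∧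
      ((∀ k ∈ Finset.Icc a b, ∀ w ∈ X, lab w = i → P k w →
        Mi X m (cell u k) lab w ≤ ρ * Mc X m (cell u k) w) →
      ∑ w ∈ X.filter (fun w => lab w = i ∧ ∃ k ∈ Finset.Icc a b, P k w), m w ≤
        ρ * ∑ w ∈ X, m w) := by
    intro i ρ hρ
    have h := hCL N X m lab i (Γ i) M u a b P ((1 / 2) ^ v) (2 * (1 / 2) ^ v) ρ hm
      (fun x hx hxi => by rw [← hxi]; exact hΓ x hx) (hP i) hv (by positivity) hρ
      (fun k w hw w' hw' hl hl' hc h => hcell k w hw w' hw' (hl.trans hl'.symm) hc h)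
      (fun k _ w _ _ h => ⟨(hPv k w h).1.le, (hPv k w h).2⟩)
    refine ⟨?_, h.2⟩
    have h1 := h.1
    rw [show 2 * (1 / 2 : ℝ) ^ v / (1 / 2 : ℝ) ^ v = 2 by field_simp] at h1
    refine le_trans (le_of_eq ?_) h1
    refine Finset.sum_congr rfl fun w hw => ?_
    have hwi : lab w = i := (Finset.mem_filter.1 hw).2
    unfold al
    rw [hwi]
  have hfib : ∑ w ∈ X, m w * ∑ k ∈ (Finset.Icc a b).filter (fun k => P k w),
      al Γ lab u k w ^ 2 = ∑ i : Fin N, ∑ w ∈ X.filter (fun w => lab w = i), m w *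
        ∑ k ∈ (Finset.Icc a b).filter (fun k => P k w), al Γ lab u k w ^ 2 :=
    (Finset.sum_fiberwise X lab _).symm
  constructor
  · have hfib' : ∑ w ∈ X, m w = ∑ i : Fin N, ∑ w ∈ X.filter (fun w => lab w = i), m w :=
      (Finset.sum_fiberwise X lab _).symm
    rw [hfib, hfib', Finset.mul_sum]
    refine Finset.sum_le_sum fun i _ => ((key i 0 le_rfl).1).trans ?_
    refine mul_le_mul_of_nonneg_left ?_ (by positivity)
    refine Finset.sum_le_sum_of_subset_of_nonneg ?_ fun y hy _ =>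
      (hm y (Finset.mem_filter.1 hy).1).le
    intro y hy
    rw [Finset.mem_filter] at hy ⊢
    exact ⟨hy.1, hy.2.1⟩
  · intro ρ hρ hle
    rw [hfib]
    have h1 : ∀ i : Fin N, ∑ w ∈ X.filter (fun w => lab w = i), m w *
        ∑ k ∈ (Finset.Icc a b).filter (fun k => P k w), al Γ lab u k w ^ 2 ≤
        2 * M * (ρ * ∑ w ∈ X, m w) := by
      intro i
      refine ((key i ρ hρ).1).trans (mul_le_mul_of_nonneg_left ?_ (by positivity))
      exact (key i ρ hρ).2 fun k _ w hw _ h => hle k w hw h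
    refine (Finset.sum_le_sum fun i _ => h1 i).trans (le_of_eq ?_)
    rw [Finset.sum_const, Finset.card_univ, Fintype.card_fin, nsmul_eq_mul]
    ring

open Classical in
/-- the density is bounded by `σ ^ 2` -/
lemma sum_sqrt {Γ : Fin N → Set ℂ} {u : ℂ} {a b : ℤ} {σ R : ℝ} (hσ : 0 ≤ σ)
    (hm : ∀ x ∈ X, 0 < m x) (P : ℤ → ℂ → Prop)
    (hs : ∀ k ∈ Finset.Icc a b, ∀ w ∈ X, P k w → √(Mc X m (cell u k) w * (2 : ℝ) ^ k) ≤ σ)
    (h : ∑ w ∈ X, m w * ∑ k ∈ (Finset.Icc a b).filter (fun k => P k w), al Γ lab u k w ^ 2 ≤ R) :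
    ∑ w ∈ X, m w * ∑ k ∈ (Finset.Icc a b).filter (fun k => P k w),
      al Γ lab u k w ^ 2 * √(Mc X m (cell u k) w * (2 : ℝ) ^ k) ≤ R * σ := by
  refine le_trans ?_ (mul_le_mul_of_nonneg_right h hσ)
  rw [Finset.sum_mul]
  refine Finset.sum_le_sum fun w hw => ?_
  rw [mul_assoc]
  refine mul_le_mul_of_nonneg_left ?_ (hm w hw).le
  rw [Finset.sum_mul]
  refine Finset.sum_le_sum fun k hk => ?_
  rw [Finset.mem_filter] at hk
  exact mul_le_mul_of_nonneg_left (hs k hk.1 w hw hk.2) (sq_nonneg _)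

open Classical in
lemma split_sum (a b : ℤ) (P Q P1 P2 : ℤ → ℂ → Prop) (F : ℤ → ℂ → ℝ)
    (h1 : ∀ k w, P1 k w ↔ P k w ∧ Q k w) (h2 : ∀ k w, P2 k w ↔ P k w ∧ ¬ Q k w) :
    ∑ w ∈ X, m w * ∑ k ∈ (Finset.Icc a b).filter (fun k => P k w), F k w =
      ∑ w ∈ X, m w * ∑ k ∈ (Finset.Icc a b).filter (fun k => P1 k w), F k w +
      ∑ w ∈ X, m w * ∑ k ∈ (Finset.Icc a b).filter (fun k => P2 k w), F k w := by
  rw [← Finset.sum_add_distrib]
  refine Finset.sum_congr rfl fun w _ => ?_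
  rw [← mul_add]
  congr 1
  simp only [Finset.sum_filter]
  rw [← Finset.sum_add_distrib]
  refine Finset.sum_congr rfl fun k _ => ?_
  by_cases hP : P k w
  · by_cases hQ : Q k w
    · rw [if_pos hP, if_pos ((h1 k w).2 ⟨hP, hQ⟩), if_neg (fun h => ((h2 k w).1 h).2 hQ), add_zero]
    · rw [if_pos hP, if_neg (fun h => hQ ((h1 k w).1 h).2), if_pos ((h2 k w).2 ⟨hP, hQ⟩), zero_add]
  · rw [if_neg hP, if_neg (fun h => hP ((h1 k w).1 h).1), if_neg (fun h => hP ((h2 k w).1 h).1),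
      add_zero]

/-- the weight of the class `v` -/
noncomputable def cv (L v : ℕ) : ℝ := if v < L then 1 else (7 / 8) ^ (v - L) + (2 / 3) ^ v

lemma cv_nonneg (L v : ℕ) : 0 ≤ cv L v := by
  unfold cv
  split_ifs <;> positivity

lemma geom {r : ℝ} (h0 : 0 ≤ r) (h1 : r < 1) (V : ℕ) :
    ∑ t ∈ Finset.range V, r ^ t ≤ 1 / (1 - r) := by
  have h : ∑ t ∈ Finset.range V, r ^ t = (1 - r ^ V) / (1 - r) := by
    rw [geom_sum_eq h1.ne]
    rw [← neg_div_neg_eq]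
    congr 1 <;> ring
  rw [h]
  have h2 : 0 < 1 - r := by linarith
  gcongr
  have : 0 ≤ r ^ V := by positivity
  linarith

lemma sum_cv (L V : ℕ) : ∑ v ∈ Finset.range V, cv L v ≤ L + 11 := by
  have h1 : ∑ v ∈ Finset.range V, cv L v ≤ ∑ v ∈ Finset.range (L + V), cv L v :=
    Finset.sum_le_sum_of_subset_of_nonneg (Finset.range_mono (by omega))
      fun v _ _ => cv_nonneg L v
  refine h1.trans ?_
  rw [Finset.sum_range_add]
  have h2 : ∑ v ∈ Finset.range L, cv L v = L := by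
    rw [Finset.sum_congr rfl fun v hv => show cv L v = 1 from if_pos (Finset.mem_range.1 hv)]
    simp
  have h3 : ∀ t ∈ Finset.range V, cv L (L + t) ≤ (7 / 8) ^ t + (2 / 3) ^ t := by
    intro t _
    unfold cv
    rw [if_neg (by omega), show L + t - L = t by omega]
    have : (2 / 3 : ℝ) ^ (L + t) ≤ (2 / 3) ^ t :=
      pow_le_pow_of_le_one (by norm_num) (by norm_num) (by omega)
    linarith
  have h4 := Finset.sum_le_sum h3
  rw [Finset.sum_add_distrib] at h4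
  have h5 := geom (show (0 : ℝ) ≤ 7 / 8 by norm_num) (by norm_num) V
  have h6 := geom (show (0 : ℝ) ≤ 2 / 3 by norm_num) (by norm_num) V
  norm_num at h5 h6
  rw [h2]
  linarith

lemma level (N : ℕ) (hN : 1 ≤ N) : (N : ℝ) * (3 / 4) ^ ⌈4 * Real.log N⌉₊ ≤ 1 := by
  have hN0 : (0 : ℝ) < N := by exact_mod_cast hN
  have h1 : (3 / 4 : ℝ) ≤ Real.exp (-(1 / 4)) := by
    have := Real.add_one_le_exp (-(1 / 4) : ℝ)
    linarith
  have h2 : (3 / 4 : ℝ) ^ ⌈4 * Real.log N⌉₊ ≤ Real.exp (-(1 / 4)) ^ ⌈4 * Real.log N⌉₊ :=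
    pow_le_pow_left₀ (by norm_num) h1 _
  have h3 : Real.exp (-(1 / 4)) ^ ⌈4 * Real.log N⌉₊ ≤ (N : ℝ)⁻¹ := by
    rw [← Real.exp_nat_mul]
    rw [← Real.exp_log (inv_pos.2 hN0), Real.log_inv]
    apply Real.exp_le_exp.2
    have := Nat.le_ceil (4 * Real.log N)
    linarith
  calc (N : ℝ) * (3 / 4) ^ ⌈4 * Real.log N⌉₊ ≤ N * (N : ℝ)⁻¹ :=
        mul_le_mul_of_nonneg_left (h2.trans h3) hN0.le
    _ = 1 := mul_inv_cancel₀ hN0.ne'

open Classical in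
/-- one class -/
lemma one_class (hCL : Stmt_CL) {Γ : Fin N → Set ℂ} {u : ℂ} {a b : ℤ} {M : ℝ} (hM : 0 ≤ M)
    (hN : 1 ≤ N) (hm : ∀ x ∈ X, 0 < m x) (hΓ : ∀ x ∈ X, x ∈ Γ (lab x))
    (hP : ∀ i, Pack u M (Γ i))
    (hk : ∀ k ∈ Finset.Icc a b, ∀ w ∈ X, Mc X m (cell u k) w ≤ 2 * (2 : ℝ) ^ (-k)) (v : ℕ) :
    ∑ w ∈ X, m w * ∑ k ∈ (Finset.Icc a b).filter (fun k => cls X m lab u v k w),
      al Γ lab u k w ^ 2 * √(Mc X m (cell u k) w * (2 : ℝ) ^ k) ≤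
    3 * M * cv ⌈4 * Real.log N⌉₊ v * ∑ x ∈ X, m x := by
  have hN0 : (0 : ℝ) < N := by exact_mod_cast hN
  have hX : 0 ≤ ∑ x ∈ X, m x := Finset.sum_nonneg fun x hx => (hm x hx).le
  have h22 : ∀ k : ℤ, (2 : ℝ) ^ (-k) * (2 : ℝ) ^ k = 1 := fun k => by
    rw [← zpow_add₀ (by norm_num), neg_add_cancel, zpow_zero]
  have hpos : ∀ k : ℤ, (0 : ℝ) < (2 : ℝ) ^ k := fun k => zpow_pos (by norm_num) k
  have hle2 : ∀ k ∈ Finset.Icc a b, ∀ w ∈ X, √(Mc X m (cell u k) w * (2 : ℝ) ^ k) ≤ 3 / 2 := by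
    intro k hk' w hw
    rw [Real.sqrt_le_left (by norm_num)]
    have h1 := mul_le_mul_of_nonneg_right (hk k hk' w hw) (hpos k).le
    rw [mul_assoc, h22] at h1
    linarith
  rcases Nat.lt_or_ge v ⌈4 * Real.log N⌉₊ with hv | hv
  · have h1 := (sum_class (a := a) (b := b) hCL hM hm hΓ hP v (cls X m lab u v)
      (fun k w _ w' _ hl hc h => cls_congr hl hc h) (fun k w h => h)).1
    have h2 := sum_sqrt (Γ := Γ) (a := a) (b := b) (σ := 3 / 2) (by norm_num) hm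
      (cls X m lab u v) (fun k hk' w hw _ => hle2 k hk' w hw) h1
    refine h2.trans (le_of_eq ?_)
    unfold cv
    rw [if_pos hv]
    ring
  · -- two parts
    set L := ⌈4 * Real.log N⌉₊ with hL
    have hlev : (N : ℝ) * (3 / 4) ^ L ≤ 1 := level N hN
    obtain ⟨t, rfl⟩ : ∃ t, v = L + t := ⟨v - L, by omega⟩
    obtain ⟨P1, hP1⟩ : ∃ P1 : ℤ → ℂ → Prop, ∀ k w, P1 k w ↔ cls X m lab u (L + t) k w ∧
      Mc X m (cell u k) w ≤ 2 * (N * (3 / 4 : ℝ) ^ (L + t)) * (2 : ℝ) ^ (-k) :=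
      ⟨_, fun _ _ => Iff.rfl⟩
    obtain ⟨P2, hP2⟩ : ∃ P2 : ℤ → ℂ → Prop, ∀ k w, P2 k w ↔ cls X m lab u (L + t) k w ∧
      ¬ Mc X m (cell u k) w ≤ 2 * (N * (3 / 4 : ℝ) ^ (L + t)) * (2 : ℝ) ^ (-k) :=
      ⟨_, fun _ _ => Iff.rfl⟩
    have hsplit := split_sum (X := X) (m := m) a b (cls X m lab u (L + t))
      (fun k w => Mc X m (cell u k) w ≤ 2 * (N * (3 / 4 : ℝ) ^ (L + t)) * (2 : ℝ) ^ (-k)) P1 P2
      (fun k w => al Γ lab u k w ^ 2 * √(Mc X m (cell u k) w * (2 : ℝ) ^ k)) hP1 hP2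
    rw [hsplit]
    have hA := (sum_class (a := a) (b := b) hCL hM hm hΓ hP (L + t) P1
      (fun k w _ w' _ hl hc h => (hP1 k w').2 ⟨cls_congr hl hc ((hP1 k w).1 h).1, by
        rw [← Mc_congr (cell u k) hc]; exact ((hP1 k w).1 h).2⟩) (fun k w h => ((hP1 k w).1 h).1)).1
    have hA2 := sum_sqrt (Γ := Γ) (a := a) (b := b) (σ := 3 / 2 * (7 / 8) ^ t) (by positivity) hm
      P1 (fun k hk' w hw h => by
        rw [Real.sqrt_le_left (by positivity)]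
        have h1 := mul_le_mul_of_nonneg_right ((hP1 k w).1 h).2 (hpos k).le
        rw [mul_assoc, h22, mul_one, pow_add] at h1
        have h2 : (N : ℝ) * ((3 / 4) ^ L * (3 / 4) ^ t) ≤ (3 / 4) ^ t := by
          rw [← mul_assoc]
          exact mul_le_of_le_one_left (by positivity) hlev
        have h3 : (3 / 4 : ℝ) ^ t ≤ ((7 / 8) ^ 2) ^ t :=
          pow_le_pow_left₀ (by norm_num) (by norm_num) t
        have h4 : (3 / 2 * (7 / 8 : ℝ) ^ t) ^ 2 = 9 / 4 * ((7 / 8) ^ 2) ^ t := by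
          rw [mul_pow, ← pow_mul, ← pow_mul, mul_comm t 2]
          norm_num
        have h5 : (0 : ℝ) ≤ ((7 / 8) ^ 2) ^ t := by positivity
        rw [h4]
        linarith) hA
    have hB := (sum_class (a := a) (b := b) hCL hM hm hΓ hP (L + t) P2
      (fun k w _ w' _ hl hc h => (hP2 k w').2 ⟨cls_congr hl hc ((hP2 k w).1 h).1, by
        rw [← Mc_congr (cell u k) hc]; exact ((hP2 k w).1 h).2⟩) (fun k w h => ((hP2 k w).1 h).1)).2
        ((2 / 3) ^ (L + t) / N) (by positivity) (fun k w hw h => by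
        have h1 := ((hP2 k w).1 h).1.2
        have h2 := not_le.1 ((hP2 k w).1 h).2
        refine h1.trans ?_
        have h3 : (2 / 3 : ℝ) ^ (L + t) / N * (2 * (N * (3 / 4 : ℝ) ^ (L + t)) * (2 : ℝ) ^ (-k)) =
            2 * (1 / 2 : ℝ) ^ (L + t) * (2 : ℝ) ^ (-k) := by
          have h4 : (1 / 2 : ℝ) ^ (L + t) = (2 / 3) ^ (L + t) * (3 / 4) ^ (L + t) := by
            rw [← mul_pow]
            norm_num
          rw [h4]
          field_simp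
        rw [← h3]
        exact mul_le_mul_of_nonneg_left h2.le (by positivity))
    have hB2 := sum_sqrt (Γ := Γ) (a := a) (b := b) (σ := 3 / 2) (by norm_num) hm
      P2 (fun k hk' w hw _ => hle2 k hk' w hw) hB
    refine (add_le_add hA2 hB2).trans (le_of_eq ?_)
    unfold cv
    rw [if_neg (by omega), show L + t - L = t by omega]
    field_simp

end CARL

open CARL in
open Classical in
theorem CARL_thm : Stmt_STRIP → Stmt_CL → Stmt_CARL := by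
  intro _ hCL M
  refine ⟨36 * |M| + 1, by positivity, ?_⟩
  intro N lab Γ X m u a b hN hm hΓ hP hk
  have hN0 : (1 : ℝ) ≤ N := by exact_mod_cast hN
  have hlog : 0 ≤ Real.log N := Real.log_nonneg hN0
  have hX : 0 ≤ ∑ x ∈ X, m x := Finset.sum_nonneg fun x hx => (hm x hx).le
  have hM : 0 ≤ M := by
    have h := hP ⟨0, hN⟩ 0 0 ∅ (by simp)
    simpa using h
  -- the classes
  have hex : ∀ (k : ℤ) (w : ℂ), ∃ v : ℕ, k ∈ Finset.Icc a b → w ∈ X → cls X m lab u v k w := by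
    intro k w
    by_cases h : k ∈ Finset.Icc a b ∧ w ∈ X
    · obtain ⟨v, hv⟩ := exists_cls (lab := lab) hm h.2 (hk k h.1 w h.2)
      exact ⟨v, fun _ _ => hv⟩
    · exact ⟨0, fun h1 h2 => absurd ⟨h1, h2⟩ h⟩
  choose cl hcl using hex
  obtain ⟨V, hV⟩ : ∃ V : ℕ, ∀ k ∈ Finset.Icc a b, ∀ w ∈ X, cl k w < V := by
    refine ⟨((Finset.Icc a b) ×ˢ X).sup (fun q => cl q.1 q.2) + 1, fun k hk' w hw => ?_⟩
    have hmem : ((k, w) : ℤ × ℂ) ∈ (Finset.Icc a b) ×ˢ X := Finset.mem_product.2 ⟨hk', hw⟩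
    exact Nat.lt_succ_of_le (Finset.le_sup (f := fun q : ℤ × ℂ => cl q.1 q.2) hmem)
  have h1 : TH X m Γ lab u a b ≤ ∑ v ∈ Finset.range V, ∑ w ∈ X, m w *
      ∑ k ∈ (Finset.Icc a b).filter (fun k => cls X m lab u v k w),
        al Γ lab u k w ^ 2 * √(Mc X m (cell u k) w * (2 : ℝ) ^ k) := by
    rw [Finset.sum_comm]
    unfold TH
    refine Finset.sum_le_sum fun w hw => ?_
    rw [← Finset.mul_sum]
    refine mul_le_mul_of_nonneg_left ?_ (hm w hw).le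
    simp only [Finset.sum_filter]
    rw [Finset.sum_comm]
    refine Finset.sum_le_sum fun k hk' => ?_
    have h0 : ∀ v ∈ Finset.range V, 0 ≤ (if cls X m lab u v k w then
        al Γ lab u k w ^ 2 * √(Mc X m (cell u k) w * (2 : ℝ) ^ k) else 0) := by
      intro v _
      split_ifs
      · exact mul_nonneg (sq_nonneg _) (Real.sqrt_nonneg _)
      · exact le_rfl
    refine le_trans (le_of_eq ?_) (Finset.single_le_sum h0 (Finset.mem_range.2 (hV k hk' w hw)))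
    rw [if_pos (hcl k w hk' hw)]
  have h2 : ∀ v ∈ Finset.range V, ∑ w ∈ X, m w *
      ∑ k ∈ (Finset.Icc a b).filter (fun k => cls X m lab u v k w),
        al Γ lab u k w ^ 2 * √(Mc X m (cell u k) w * (2 : ℝ) ^ k) ≤
      3 * M * cv ⌈4 * Real.log N⌉₊ v * ∑ x ∈ X, m x := fun v _ =>
    one_class hCL hM hN hm hΓ hP hk v
  refine h1.trans ((Finset.sum_le_sum h2).trans ?_)
  rw [← Finset.sum_mul, ← Finset.mul_sum]
  refine mul_le_mul_of_nonneg_right ?_ hX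
  have h3 := sum_cv ⌈4 * Real.log N⌉₊ V
  have h4 := (Nat.ceil_lt_add_one (show 0 ≤ 4 * Real.log N by positivity)).le
  have h5 : ∑ v ∈ Finset.range V, cv ⌈4 * Real.log N⌉₊ v ≤ 12 * (1 + Real.log N) := by linarith
  have h6 : 3 * M * ∑ v ∈ Finset.range V, cv ⌈4 * Real.log N⌉₊ v ≤
      3 * M * (12 * (1 + Real.log N)) := mul_le_mul_of_nonneg_left h5 (by positivity)
  rw [abs_of_nonneg hM]
  nlinarith

end Pool.Agent.ANG
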