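import Pool.Agent.ANG.Stmts

/-!
# CHAIN: the chain of directions along the curve (MP_98e313_an)
-/

set_option autoImplicit false

namespace Pool.Agent.ANG

open MeasureTheory Set Pool.Agent.ANL

namespace CHAIN

/-- the sine of the angle -/
noncomputable def S (a b : ℂ) : ℝ := |crs a b| / (‖a‖ * ‖b‖)

theorem dot_le (a b : ℂ) : |a.re * b.re + a.im * b.im| ≤ ‖a‖ * ‖b‖ := by
  rw [← norm_mul_conj a b]
  have h : a.re * b.re + a.im * b.im = (a * (starRingEnd ℂ) b).re := by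
    simp
  rw [h]
  exact Complex.abs_re_le_norm _
where
  norm_mul_conj (a b : ℂ) : ‖a * (starRingEnd ℂ) b‖ = ‖a‖ * ‖b‖ := by
    rw [norm_mul, RCLike.norm_conj]

theorem tri {a b c : ℂ} (ha : a ≠ 0) (hb : b ≠ 0) (hc : c ≠ 0) : S a c ≤ S a b + S b c := by
  have ha' : 0 < ‖a‖ := norm_pos_iff.2 ha
  have hb' : 0 < ‖b‖ := norm_pos_iff.2 hb
  have hc' : 0 < ‖c‖ := norm_pos_iff.2 hc
  have hbb : b.re * b.re + b.im * b.im = ‖b‖ ^ 2 := by
    rw [Complex.sq_norm, Complex.normSq_apply]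
  have h1 : crs a c * ‖b‖ ^ 2 =
      crs a b * (b.re * c.re + b.im * c.im) + crs b c * (a.re * b.re + a.im * b.im) := by
    rw [← hbb]
    simp only [crs]
    ring
  have h2 : |crs a c| * ‖b‖ ^ 2 ≤ |crs a b| * (‖b‖ * ‖c‖) + |crs b c| * (‖a‖ * ‖b‖) := by
    calc |crs a c| * ‖b‖ ^ 2 = |crs a c * ‖b‖ ^ 2| := by
          rw [abs_mul, abs_of_pos (pow_pos hb' 2)]
      _ ≤ _ := by
          rw [h1]
          refine (abs_add_le _ _).trans ?_
          rw [abs_mul, abs_mul]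
          exact add_le_add (mul_le_mul_of_nonneg_left (dot_le b c) (abs_nonneg _))
            (mul_le_mul_of_nonneg_left (dot_le a b) (abs_nonneg _))
  have h3 : S a b + S b c =
      (|crs a b| * (‖b‖ * ‖c‖) + |crs b c| * (‖a‖ * ‖b‖)) / (‖a‖ * ‖c‖ * ‖b‖ ^ 2) := by
    simp only [S]
    field_simp
  rw [h3, S, div_le_div_iff₀ (mul_pos ha' hc') (mul_pos (mul_pos ha' hc') (pow_pos hb' 2))]
  calc |crs a c| * (‖a‖ * ‖c‖ * ‖b‖ ^ 2) = |crs a c| * ‖b‖ ^ 2 * (‖a‖ * ‖c‖) := by ring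
    _ ≤ _ := mul_le_mul_of_nonneg_right h2 (mul_pos ha' hc').le

/-- the strip inequality in terms of angles -/
theorem strip {a b : ℂ} {B s α β : ℝ} (hB : 0 ≤ B) (ha : a ≠ 0) (hb : b ≠ 0)
    (h : |crs a b| ≤ 2 * B * s * (‖a‖ + ‖b‖)) (h1 : s ≤ α * ‖a‖) (h2 : s ≤ β * ‖b‖) :
    S a b ≤ 2 * B * (α + β) := by
  have ha' : 0 < ‖a‖ := norm_pos_iff.2 ha
  have hb' : 0 < ‖b‖ := norm_pos_iff.2 hb
  rw [S, div_le_iff₀ (mul_pos ha' hb')]
  have h3 : s * ‖a‖ ≤ β * ‖b‖ * ‖a‖ := mul_le_mul_of_nonneg_right h2 ha'.le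
  have h4 : s * ‖b‖ ≤ α * ‖a‖ * ‖b‖ := mul_le_mul_of_nonneg_right h1 hb'.le
  calc |crs a b| ≤ 2 * B * s * (‖a‖ + ‖b‖) := h
    _ = 2 * B * (s * ‖a‖ + s * ‖b‖) := by ring
    _ ≤ 2 * B * (β * ‖b‖ * ‖a‖ + α * ‖a‖ * ‖b‖) :=
        mul_le_mul_of_nonneg_left (add_le_add h3 h4) (by linarith)
    _ = 2 * B * (α + β) * (‖a‖ * ‖b‖) := by ring

theorem two_zpow_pos (k : ℤ) : (0 : ℝ) < (2 : ℝ) ^ k := zpow_pos two_pos k

theorem two_zpow_mono {k l : ℤ} (h : k ≤ l) : (2 : ℝ) ^ k ≤ (2 : ℝ) ^ l :=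
  zpow_le_zpow_right₀ one_le_two h

/-- points of the curve at given distances -/
theorem exists_pt {Γ : Set ℂ} (hΓ : IsPreconnected Γ) {w v : ℂ} (hw : w ∈ Γ) (hv : v ∈ Γ)
    {r : ℝ} (h0 : 0 ≤ r) (h1 : r ≤ ‖v - w‖) : ∃ z ∈ Γ, ‖z - w‖ = r := by
  have h2 := hΓ.intermediate_value (f := fun z => ‖z - w‖) hw hv
    (Continuous.continuousOn (by fun_prop))
  have h3 : r ∈ Icc ((fun z => ‖z - w‖) w) ((fun z => ‖z - w‖) v) := by
    refine ⟨?_, h1⟩
    simpa using h0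
  obtain ⟨z, hz, hz'⟩ := h2 h3
  exact ⟨z, hz, hz'⟩

end CHAIN

open CHAIN in
theorem CHAIN_thm : Stmt_STRIP → Stmt_CHAIN := by
  rintro ⟨hs1, hs2, hs3, -, hs5⟩ Γ u q p w x' z' y' hΓ hqp hw hx hz hy hxp hzp hyq h18 h570
  -- the beta numbers
  set β : ℤ → ℝ := fun k => bet Γ u k (cell u k w) with hβ
  have hβ0 : ∀ k, 0 ≤ β k := fun k => hs1 Γ u k _
  have hzx : z' - x' ≠ 0 := by
    intro h
    rw [h, norm_zero, mul_zero] at h18
    exact absurd h18 (not_le.2 (two_zpow_pos _))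
  have hyx : y' - x' ≠ 0 := by
    intro h
    rw [h, norm_zero, mul_zero] at h570
    exact absurd h570 (not_le.2 (two_zpow_pos _))
  -- a far point
  obtain ⟨v, hv, hvw⟩ : ∃ v ∈ Γ, (2 : ℝ) ^ (-q - 11) ≤ ‖v - w‖ := by
    have e : (2 : ℝ) ^ (-q - 11) = (2 : ℝ) ^ (-q) / 2048 := by
      rw [zpow_sub₀ two_ne_zero]
      norm_num
    have h1 : ‖y' - x'‖ ≤ ‖y' - w‖ + ‖x' - w‖ := by
      calc ‖y' - x'‖ = ‖(y' - w) - (x' - w)‖ := by rw [sub_sub_sub_cancel_right]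
        _ ≤ _ := norm_sub_le _ _
    have h0 := two_zpow_pos (-q)
    by_cases h2 : (2 : ℝ) ^ (-q - 11) ≤ ‖y' - w‖
    · exact ⟨y', hy, h2⟩
    · refine ⟨x', hx, ?_⟩
      rw [e] at h2 ⊢
      push Not at h2
      linarith
  -- the points of the chain
  have hU : ∀ k : ℤ, ∃ z, q ≤ k → z ∈ Γ ∧ ‖z - w‖ = (2 : ℝ) ^ (-k - 11) := by
    intro k
    by_cases hk : q ≤ k
    · obtain ⟨z, hz1, hz2⟩ := exists_pt hΓ hw hv (two_zpow_pos (-k - 11)).le
        ((two_zpow_mono (by omega)).trans hvw)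
      exact ⟨z, fun _ => ⟨hz1, hz2⟩⟩
    · exact ⟨0, fun h => absurd h hk⟩
  choose U hU using hU
  have hUne : ∀ k, q ≤ k → U k - w ≠ 0 := by
    intro k hk h
    have := (hU k hk).2
    rw [h, norm_zero] at this
    exact absurd this (two_zpow_pos _).ne
  have hUe : ∀ k l, q ≤ k → l ≤ k + 11 → U k ∈ Γ ∩ enl u l (cell u l w) := by
    intro k l hk hl
    refine ⟨(hU k hk).1, hs3 u l w _ ?_⟩
    rw [(hU k hk).2]
    exact two_zpow_mono (by omega)
  have hwe : ∀ l, w ∈ Γ ∩ enl u l (cell u l w) := by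
    intro l
    refine ⟨hw, hs3 u l w _ ?_⟩
    rw [sub_self, norm_zero]
    exact (two_zpow_pos _).le
  have hpow : ∀ k l : ℤ, q ≤ l → (2 : ℝ) ^ (-k) ≤ (2 : ℝ) ^ (l - k + 11) * ‖U l - w‖ := by
    intro k l hl
    rw [(hU l hl).2, ← zpow_add₀ two_ne_zero]
    exact le_of_eq (congrArg _ (by ring))
  -- start
  have hstart : S (z' - x') (U p - w) ≤ 4132 * β p := by
    have h := strip (α := 18) (β := (2 : ℝ) ^ (p - p + 11)) (hβ0 p) hzx (hUne p hqp)
      (hs2 Γ u p _ z' ⟨hz, hzp⟩ x' ⟨hx, hxp⟩ (U p) (hUe p p hqp (by omega)) w (hwe p)) h18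
      (hpow p p hqp)
    refine h.trans (le_of_eq ?_)
    rw [sub_self]
    norm_num
    ring
  -- steps
  have hstep : ∀ k, q < k → S (U k - w) (U (k - 1) - w) ≤ 12288 * β (k - 1) := by
    intro k hk
    have h := strip (α := (2 : ℝ) ^ (k - (k - 1) + 11))
      (β := (2 : ℝ) ^ ((k - 1) - (k - 1) + 11)) (hβ0 (k - 1)) (hUne k hk.le)
      (hUne (k - 1) (by omega))
      (hs2 Γ u (k - 1) _ (U k) (hUe k (k - 1) hk.le (by omega)) w (hwe (k - 1)) (U (k - 1))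
        (hUe (k - 1) (k - 1) (by omega) (by omega)) w (hwe (k - 1)))
      (hpow (k - 1) k hk.le) (hpow (k - 1) (k - 1) (by omega))
    refine h.trans (le_of_eq ?_)
    rw [sub_self, sub_sub_cancel]
    norm_num
    ring
  -- end
  have hend : S (U q - w) (y' - x') ≤ 5236 * β q := by
    have h := strip (α := (2 : ℝ) ^ (q - q + 11)) (β := 570) (hβ0 q) (hUne q le_rfl) hyx
      (hs2 Γ u q _ (U q) (hUe q q le_rfl (by omega)) w (hwe q) y' ⟨hy, hyq⟩ x'
        ⟨hx, hs5 u q p w hqp hxp⟩) (hpow q q le_rfl) h570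
    refine h.trans (le_of_eq ?_)
    rw [sub_self]
    norm_num
    ring
  -- induction
  have hind : ∀ n : ℕ, q ≤ p - n → S (z' - x') (U (p - n) - w) ≤
      4132 * β p + 12288 * ∑ l ∈ Finset.Ico (p - n) p, β l := by
    intro n
    induction n with
    | zero =>
      intro _
      simpa using hstart
    | succ n ih =>
      intro hn
      push_cast at hn ⊢
      have e1 : p - ((n : ℤ) + 1) = (p - n) - 1 := by ring
      have h1 := ih (by omega)
      have h2 := hstep (p - n) (by omega)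
      have h3 := tri hzx (hUne (p - n) (by omega)) (hUne (p - n - 1) (by omega))
      have e2 : Finset.Ico (p - (n : ℤ) - 1) p =
          insert (p - (n : ℤ) - 1) (Finset.Ico (p - (n : ℤ)) p) := by
        ext l
        simp only [Finset.mem_Ico, Finset.mem_insert]
        omega
      rw [e1, e2, Finset.sum_insert (by simp)]
      linarith
  have hfin : S (z' - x') (y' - x') ≤ 22000 * ∑ k ∈ Finset.Icc q p, β k := by
    have h1 := hind (p - q).toNat (by omega)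
    have e1 : p - ((p - q).toNat : ℤ) = q := by omega
    rw [e1] at h1
    have h2 := tri hzx (hUne q le_rfl) hyx
    have e2 : Finset.Icc q p = insert p (Finset.Ico q p) := by
      ext l
      simp only [Finset.mem_Icc, Finset.mem_insert, Finset.mem_Ico]
      omega
    have h3 : ∑ k ∈ Finset.Icc q p, β k = β p + ∑ k ∈ Finset.Ico q p, β k := by
      rw [e2, Finset.sum_insert (by simp)]
    have h4 : β q ≤ ∑ k ∈ Finset.Icc q p, β k :=
      Finset.single_le_sum (fun k _ => hβ0 k) (Finset.mem_Icc.2 ⟨le_rfl, hqp⟩)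
    have h5 := hβ0 p
    have h6 : 0 ≤ ∑ k ∈ Finset.Ico q p, β k := Finset.sum_nonneg fun k _ => hβ0 k
    linarith
  have hpos : 0 < ‖z' - x'‖ * ‖y' - x'‖ := mul_pos (norm_pos_iff.2 hzx) (norm_pos_iff.2 hyx)
  rw [S, div_le_iff₀ hpos] at hfin
  calc |crs (z' - x') (y' - x')|
      ≤ 22000 * (∑ k ∈ Finset.Icc q p, β k) * (‖z' - x'‖ * ‖y' - x'‖) := hfin
    _ = _ := by ring

end Pool.Agent.ANG
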