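import Pool.Agent.ANG.Stmts

/-!
# CL: one label, squares of comparable label density

The maximal square of a point is the cell of the least level `k` with `P k w`.
-/

set_option autoImplicit false

namespace Pool.Agent.ANG

open MeasureTheory Set Pool.Agent.ANL

namespace CL

open Classical in
/-- The least level with `P`. -/
noncomputable def k0 (a b : ℤ) (P : ℤ → ℂ → Prop) (w : ℂ) : ℤ :=
  if h : ((Finset.Icc a b).filter (fun k => P k w)).Nonempty then
    ((Finset.Icc a b).filter (fun k => P k w)).min' h else 0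

theorem k0_spec {a b : ℤ} {P : ℤ → ℂ → Prop} {w : ℂ} (h : ∃ k ∈ Finset.Icc a b, P k w) :
    k0 a b P w ∈ Finset.Icc a b ∧ P (k0 a b P w) w ∧
      ∀ k ∈ Finset.Icc a b, P k w → k0 a b P w ≤ k := by
  classical
  obtain ⟨k, hk, hP⟩ := h
  have hne : ((Finset.Icc a b).filter (fun k => P k w)).Nonempty :=
    ⟨k, Finset.mem_filter.2 ⟨hk, hP⟩⟩
  have e : k0 a b P w = ((Finset.Icc a b).filter (fun k => P k w)).min' hne := by
    unfold k0
    rw [dif_pos hne]
  have hm := Finset.min'_mem _ hne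
  rw [← e, Finset.mem_filter] at hm
  refine ⟨hm.1, hm.2, fun l hl hPl => ?_⟩
  rw [e]
  exact Finset.min'_le _ _ (Finset.mem_filter.2 ⟨hl, hPl⟩)

/-- The maximal square. -/
noncomputable def R (u : ℂ) (a b : ℤ) (P : ℤ → ℂ → Prop) (w : ℂ) : ℤ × (ℤ × ℤ) :=
  (k0 a b P w, cell u (k0 a b P w) w)

/-- A point with the label `i` in the maximal square of `w` has the same maximal square. -/
theorem same {N : ℕ} {X : Finset ℂ} {lab : ℂ → Fin N} {i : Fin N} {u : ℂ} {a b : ℤ}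
    {P : ℤ → ℂ → Prop}
    (hcell : ∀ (u : ℂ) (k l : ℤ) (x y : ℂ), k ≤ l → cell u l x = cell u l y →
      cell u k x = cell u k y)
    (hP : ∀ k, ∀ w ∈ X, ∀ w' ∈ X, lab w = i → lab w' = i → cell u k w = cell u k w' →
      P k w → P k w')
    {w w' : ℂ} (hw : w ∈ X) (hw' : w' ∈ X) (hl : lab w = i) (hl' : lab w' = i)
    (hex : ∃ k ∈ Finset.Icc a b, P k w)
    (hc : cell u (k0 a b P w) w' = cell u (k0 a b P w) w) :
    (∃ k ∈ Finset.Icc a b, P k w') ∧ R u a b P w' = R u a b P w := by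
  obtain ⟨h1, h2, h3⟩ := k0_spec hex
  have hP' : P (k0 a b P w) w' := hP _ w hw w' hw' hl hl' hc.symm h2
  have hex' : ∃ k ∈ Finset.Icc a b, P k w' := ⟨_, h1, hP'⟩
  obtain ⟨g1, g2, g3⟩ := k0_spec hex'
  have le1 : k0 a b P w' ≤ k0 a b P w := g3 _ h1 hP'
  have hc' : cell u (k0 a b P w') w' = cell u (k0 a b P w') w := hcell u _ _ _ _ le1 hc
  have hP2 : P (k0 a b P w') w := hP _ w' hw' w hw hl' hl hc' g2
  have le2 : k0 a b P w ≤ k0 a b P w' := h3 _ g1 hP2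
  have e : k0 a b P w' = k0 a b P w := le_antisymm le1 le2
  refine ⟨hex', ?_⟩
  unfold R
  rw [e, hc]

open Classical in
/-- The mass of the fibre of the maximal square. -/
theorem fib {N : ℕ} {X : Finset ℂ} {m : ℂ → ℝ} {lab : ℂ → Fin N} {i : Fin N} {u : ℂ} {a b : ℤ}
    {P : ℤ → ℂ → Prop}
    (hcell : ∀ (u : ℂ) (k l : ℤ) (x y : ℂ), k ≤ l → cell u l x = cell u l y →
      cell u k x = cell u k y)
    (hP : ∀ k, ∀ w ∈ X, ∀ w' ∈ X, lab w = i → lab w' = i → cell u k w = cell u k w' →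
      P k w → P k w')
    {w : ℂ} (hw : w ∈ X) (hl : lab w = i) (hex : ∃ k ∈ Finset.Icc a b, P k w) :
    ∑ x ∈ (X.filter (fun x => lab x = i ∧ ∃ k ∈ Finset.Icc a b, P k x)).filter
      (fun x => R u a b P x = R u a b P w), m x = Mi X m (cell u (k0 a b P w)) lab w := by
  unfold Mi
  refine Finset.sum_congr ?_ fun _ _ => rfl
  ext x
  simp only [Finset.mem_filter]
  constructor
  · rintro ⟨⟨hx, hlx, hexx⟩, hR⟩
    refine ⟨hx, ?_, by rw [hlx, hl]⟩
    unfold R at hR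
    rw [Prod.mk.injEq] at hR
    rw [← hR.1] at *
    exact hR.2
  · rintro ⟨hx, hc, hlx⟩
    have hlx' : lab x = i := by rw [hlx, hl]
    obtain ⟨h1, h2⟩ := same hcell hP hw hx hl hlx' hex hc
    exact ⟨⟨hx, hlx', h1⟩, h2⟩

open Classical in
/-- The sum over one fibre. -/
theorem one {N : ℕ} {X : Finset ℂ} {m : ℂ → ℝ} {lab : ℂ → Fin N} {i : Fin N} {G : Set ℂ}
    {M : ℝ} {u : ℂ} {a b : ℤ} {P : ℤ → ℂ → Prop} {c₁ c₂ : ℝ}
    (hcell : ∀ (u : ℂ) (k l : ℤ) (x y : ℂ), k ≤ l → cell u l x = cell u l y →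
      cell u k x = cell u k y)
    (hm : ∀ x ∈ X, 0 < m x) (hG : ∀ x ∈ X, lab x = i → x ∈ G) (hpack : Pack u M G)
    (hc₁ : 0 < c₁) (hc₂ : 0 ≤ c₂)
    (hP : ∀ k, ∀ w ∈ X, ∀ w' ∈ X, lab w = i → lab w' = i → cell u k w = cell u k w' →
      P k w → P k w')
    (hd : ∀ k ∈ Finset.Icc a b, ∀ w ∈ X, lab w = i → P k w →
      c₁ * (2 : ℝ) ^ (-k) ≤ Mi X m (cell u k) lab w ∧
        Mi X m (cell u k) lab w ≤ c₂ * (2 : ℝ) ^ (-k))
    {w₀ : ℂ} (hw₀ : w₀ ∈ X) (hl₀ : lab w₀ = i) (hex₀ : ∃ k ∈ Finset.Icc a b, P k w₀) :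
    ∑ w ∈ (X.filter (fun x => lab x = i ∧ ∃ k ∈ Finset.Icc a b, P k x)).filter
      (fun x => R u a b P x = R u a b P w₀), m w *
        ∑ k ∈ (Finset.Icc a b).filter (fun k => P k w), bet G u k (cell u k w) ^ 2 ≤
    c₂ / c₁ * M * ∑ w ∈ (X.filter (fun x => lab x = i ∧ ∃ k ∈ Finset.Icc a b, P k x)).filter
      (fun x => R u a b P x = R u a b P w₀), m w := by
  rw [fib (m := m) hcell hP hw₀ hl₀ hex₀]
  set F := (X.filter (fun x => lab x = i ∧ ∃ k ∈ Finset.Icc a b, P k x)).filter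
      (fun x => R u a b P x = R u a b P w₀) with hF
  set D : Finset (ℂ × ℤ) := (F ×ˢ Finset.Icc a b).filter (fun p => P p.2 p.1) with hD
  set φ : ℂ × ℤ → ℤ × (ℤ × ℤ) := fun p => (p.2, cell u p.2 p.1) with hφ
  have hDm : ∀ p ∈ D, p.1 ∈ X ∧ lab p.1 = i ∧ p.2 ∈ Finset.Icc a b ∧ P p.2 p.1 ∧
      k0 a b P w₀ ≤ p.2 ∧ cell u (k0 a b P w₀) p.1 = cell u (k0 a b P w₀) w₀ := by
    intro p hp
    rw [hD, Finset.mem_filter, Finset.mem_product, hF, Finset.mem_filter, Finset.mem_filter] at hp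
    obtain ⟨⟨⟨⟨hx, hlx, hexx⟩, hR⟩, hk⟩, hPp⟩ := hp
    unfold R at hR
    rw [Prod.mk.injEq] at hR
    refine ⟨hx, hlx, hk, hPp, ?_, ?_⟩
    · rw [← hR.1]
      exact (k0_spec hexx).2.2 _ hk hPp
    · rw [← hR.1] at *
      exact hR.2
  clear_value D F
  -- the sum as a sum over pairs
  have e1 : ∑ w ∈ F, m w * ∑ k ∈ (Finset.Icc a b).filter (fun k => P k w),
      bet G u k (cell u k w) ^ 2 =
      ∑ p ∈ D, m p.1 * bet G u (φ p).1 (φ p).2 ^ 2 := by
    rw [hD, Finset.sum_filter, Finset.sum_product]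
    refine Finset.sum_congr rfl fun w _ => ?_
    rw [Finset.mul_sum, Finset.sum_filter]
  have e2 : ∑ p ∈ D, m p.1 * bet G u (φ p).1 (φ p).2 ^ 2 =
      ∑ Q ∈ D.image φ, bet G u Q.1 Q.2 ^ 2 * ∑ p ∈ D.filter (fun p => φ p = Q), m p.1 := by
    rw [← Finset.sum_fiberwise_of_maps_to (g := φ) (t := D.image φ)
      (fun p hp => Finset.mem_image_of_mem φ hp)]
    refine Finset.sum_congr rfl fun Q _ => ?_
    rw [Finset.mul_sum]
    refine Finset.sum_congr rfl fun p hp => ?_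
    rw [(Finset.mem_filter.1 hp).2]
    ring
  -- the mass of one square
  have e3 : ∀ Q ∈ D.image φ, ∑ p ∈ D.filter (fun p => φ p = Q), m p.1 ≤ c₂ * (2 : ℝ) ^ (-Q.1) := by
    intro Q hQ
    obtain ⟨q, hq, rfl⟩ := Finset.mem_image.1 hQ
    obtain ⟨q1, q2, q3, q4, q5, q6⟩ := hDm q hq
    refine le_trans ?_ (hd q.2 q3 q.1 q1 q2 q4).2
    unfold Mi
    have hinj : Set.InjOn Prod.fst ((D.filter (fun p => φ p = φ q) : Finset (ℂ × ℤ)) :
        Set (ℂ × ℤ)) := by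
      intro p hp p' hp' h
      have h1 := (Finset.mem_filter.1 (Finset.mem_coe.1 hp)).2
      have h2 := (Finset.mem_filter.1 (Finset.mem_coe.1 hp')).2
      have h3 : p.2 = q.2 := congrArg Prod.fst h1
      have h4 : p'.2 = q.2 := congrArg Prod.fst h2
      exact Prod.ext h (h3.trans h4.symm)
    rw [← Finset.sum_image (f := m) (g := Prod.fst) hinj]
    refine Finset.sum_le_sum_of_subset_of_nonneg ?_ ?_
    · intro x hx
      obtain ⟨p, hp, rfl⟩ := Finset.mem_image.1 hx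
      rw [Finset.mem_filter] at hp
      obtain ⟨p1, p2, p3, p4, p5, p6⟩ := hDm p hp.1
      have h3 : p.2 = q.2 := congrArg Prod.fst hp.2
      have h4 : cell u p.2 p.1 = cell u q.2 q.1 := congrArg Prod.snd hp.2
      rw [h3] at h4
      exact Finset.mem_filter.2 ⟨p1, h4, by rw [p2, q2]⟩
    · intro x hx _
      exact (hm x (Finset.mem_filter.1 hx).1).le
  have hM : 0 ≤ M := by
    have := hpack 0 (0, 0) ∅ (by simp)
    simpa using this
  have e4 : ∑ Q ∈ D.image φ, bet G u Q.1 Q.2 ^ 2 * (2 : ℝ) ^ (-Q.1) ≤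
      M * (2 : ℝ) ^ (-(k0 a b P w₀)) := by
    refine hpack (k0 a b P w₀) (cell u (k0 a b P w₀) w₀) (D.image φ) ?_
    intro Q hQ
    obtain ⟨q, hq, rfl⟩ := Finset.mem_image.1 hQ
    obtain ⟨q1, q2, q3, q4, q5, q6⟩ := hDm q hq
    refine ⟨?_, q.1, hG _ q1 q2, rfl⟩
    intro z hz
    have hz' : cell u q.2 z = cell u q.2 q.1 := hz
    show cell u (k0 a b P w₀) z = cell u (k0 a b P w₀) w₀
    rw [← q6]
    exact hcell u _ _ _ _ q5 hz'
  obtain ⟨s1, s2, s3⟩ := k0_spec hex₀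
  have e5 := (hd _ s1 w₀ hw₀ hl₀ s2).1
  rw [e1, e2]
  calc ∑ Q ∈ D.image φ, bet G u Q.1 Q.2 ^ 2 * ∑ p ∈ D.filter (fun p => φ p = Q), m p.1
      ≤ ∑ Q ∈ D.image φ, bet G u Q.1 Q.2 ^ 2 * (c₂ * (2 : ℝ) ^ (-Q.1)) :=
        Finset.sum_le_sum fun Q hQ => mul_le_mul_of_nonneg_left (e3 Q hQ) (sq_nonneg _)
    _ = c₂ * ∑ Q ∈ D.image φ, bet G u Q.1 Q.2 ^ 2 * (2 : ℝ) ^ (-Q.1) := by
        rw [Finset.mul_sum]
        exact Finset.sum_congr rfl fun Q _ => by ring
    _ ≤ c₂ * (M * (2 : ℝ) ^ (-(k0 a b P w₀))) := mul_le_mul_of_nonneg_left e4 hc₂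
    _ = c₂ / c₁ * M * (c₁ * (2 : ℝ) ^ (-(k0 a b P w₀))) := by
        field_simp
    _ ≤ c₂ / c₁ * M * Mi X m (cell u (k0 a b P w₀)) lab w₀ :=
        mul_le_mul_of_nonneg_left e5 (mul_nonneg (div_nonneg hc₂ hc₁.le) hM)

end CL

/-- One label, squares of comparable label density. -/
theorem CL_thm (hC : Pool.Agent.ANL.Stmt_CELL) : Stmt_CL := by
  classical
  intro N X m lab i G M u a b P c₁ c₂ ρ hm hG hpack hc₁ hc₂ hρ hP hd
  have hcell := hC.1
  set W := X.filter (fun w => lab w = i ∧ ∃ k ∈ Finset.Icc a b, P k w) with hW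
  have hWm : ∀ w ∈ W, w ∈ X ∧ lab w = i ∧ ∃ k ∈ Finset.Icc a b, P k w := by
    intro w hw
    rw [hW, Finset.mem_filter] at hw
    exact hw
  have hmaps : ∀ w ∈ W, CL.R u a b P w ∈ W.image (CL.R u a b P) :=
    fun w hw => Finset.mem_image_of_mem _ hw
  constructor
  · have e1 : ∑ w ∈ X.filter (fun w => lab w = i), m w *
        ∑ k ∈ (Finset.Icc a b).filter (fun k => P k w), bet G u k (cell u k w) ^ 2 =
        ∑ w ∈ W, m w *
        ∑ k ∈ (Finset.Icc a b).filter (fun k => P k w), bet G u k (cell u k w) ^ 2 := by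
      symm
      refine Finset.sum_subset ?_ ?_
      · intro w hw
        obtain ⟨h1, h2, h3⟩ := hWm w hw
        exact Finset.mem_filter.2 ⟨h1, h2⟩
      · intro w hw hnw
        rw [Finset.mem_filter] at hw
        have : (Finset.Icc a b).filter (fun k => P k w) = ∅ := by
          rw [Finset.filter_eq_empty_iff]
          intro k hk hPk
          exact hnw (by rw [hW, Finset.mem_filter]; exact ⟨hw.1, hw.2, k, hk, hPk⟩)
        rw [this, Finset.sum_empty, mul_zero]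
    rw [e1, ← Finset.sum_fiberwise_of_maps_to hmaps, ← Finset.sum_fiberwise_of_maps_to hmaps,
      Finset.mul_sum]
    refine Finset.sum_le_sum fun r hr => ?_
    obtain ⟨w₀, hw₀, rfl⟩ := Finset.mem_image.1 hr
    obtain ⟨h1, h2, h3⟩ := hWm w₀ hw₀
    have := CL.one hcell hm hG hpack hc₁ hc₂ hP hd h1 h2 h3
    convert this using 1
  · intro hr
    rw [← Finset.sum_fiberwise_of_maps_to hmaps]
    have e1 : ∀ r ∈ W.image (CL.R u a b P), ∑ w ∈ W.filter (fun w => CL.R u a b P w = r), m w ≤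
        ρ * ∑ x ∈ X.filter (fun x => cell u r.1 x = r.2), m x := by
      intro r hr'
      obtain ⟨w₀, hw₀, rfl⟩ := Finset.mem_image.1 hr'
      obtain ⟨h1, h2, h3⟩ := hWm w₀ hw₀
      obtain ⟨s1, s2, s3⟩ := CL.k0_spec h3
      have e := CL.fib (m := m) hcell hP h1 h2 h3
      have e' := hr _ s1 w₀ h1 h2 s2
      rw [← e] at e'
      unfold Mc at e'
      exact e'
    refine (Finset.sum_le_sum e1).trans ?_
    rw [← Finset.mul_sum]
    refine mul_le_mul_of_nonneg_left ?_ hρ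
    rw [← Finset.sum_biUnion]
    · refine Finset.sum_le_sum_of_subset_of_nonneg ?_ ?_
      · intro x hx
        obtain ⟨r, _, h⟩ := Finset.mem_biUnion.1 hx
        exact (Finset.mem_filter.1 h).1
      · intro x hx _
        exact (hm x hx).le
    · -- disjoint
      have key : ∀ w ∈ W, ∀ w' ∈ W, ∀ x, CL.k0 a b P w ≤ CL.k0 a b P w' →
          cell u (CL.k0 a b P w) x = cell u (CL.k0 a b P w) w →
          cell u (CL.k0 a b P w') x = cell u (CL.k0 a b P w') w' →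
          CL.R u a b P w' = CL.R u a b P w := by
        intro w hw w' hw' x hle hx hx'
        obtain ⟨h1, h2, h3⟩ := hWm w hw
        obtain ⟨g1, g2, g3⟩ := hWm w' hw'
        have hc := hcell u _ _ _ _ hle hx'
        exact (CL.same hcell hP h1 g1 h2 g2 h3 (hc.symm.trans hx)).2
      intro r hr1 r' hr1' hne
      rw [Function.onFun, Finset.disjoint_left]
      intro x hx hx'
      apply hne
      obtain ⟨w, hw, rfl⟩ := Finset.mem_image.1 (Finset.mem_coe.1 hr1)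
      obtain ⟨w', hw', rfl⟩ := Finset.mem_image.1 (Finset.mem_coe.1 hr1')
      have a1 := (Finset.mem_filter.1 hx).2
      have a2 := (Finset.mem_filter.1 hx').2
      rcases le_total (CL.k0 a b P w) (CL.k0 a b P w') with hle | hle
      · exact (key w hw w' hw' x hle a1 a2).symm
      · exact key w' hw' w hw x hle a2 a1

end Pool.Agent.ANG
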