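import Pool.Agent.ANG.Stmts

set_option autoImplicit false

namespace Pool.Agent.ANG.DOR

open Set Pool.Agent.ANG

/-- the slope over the dyadic interval -/
noncomputable def sl (f : ℝ → ℝ) (t : ℝ) (k n : ℤ) : ℝ := (f (le t k (n + 1)) - f (le t k n)) * (2 : ℝ) ^ k

theorem zk (k : ℤ) : (2 : ℝ) ^ (-k) = 2 * (2 : ℝ) ^ (-(k + 1)) := by
  have h : -k = -(k + 1) + 1 := by ring
  calc (2 : ℝ) ^ (-k) = (2 : ℝ) ^ (-(k + 1) + 1) := by rw [← h]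
    _ = (2 : ℝ) ^ (-(k + 1)) * 2 := zpow_add_one₀ two_ne_zero _
    _ = 2 * (2 : ℝ) ^ (-(k + 1)) := mul_comm _ _

theorem zk4 (k : ℤ) : (2 : ℝ) ^ (k + 1) = 2 * (2 : ℝ) ^ k := by
  rw [zpow_add_one₀ two_ne_zero, mul_comm]

theorem zk5 (k : ℤ) : (2 : ℝ) ^ k * (2 : ℝ) ^ (-k) = 1 := by
  rw [← zpow_add₀ two_ne_zero, add_neg_cancel, zpow_zero]

theorem pos (k : ℤ) : 0 < (2 : ℝ) ^ k := zpow_pos (by norm_num) _

theorem le_left (t : ℝ) (k n : ℤ) : le t (k + 1) (2 * n) = le t k n := by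
  unfold le
  rw [zk k]
  push_cast
  ring

theorem le_right (t : ℝ) (k n : ℤ) : le t (k + 1) (2 * n + 1 + 1) = le t k (n + 1) := by
  unfold le
  rw [zk k]
  push_cast
  ring

theorem le_mid (t : ℝ) (k n : ℤ) : le t (k + 1) (2 * n + 1) = le t k n + (2 : ℝ) ^ (-(k + 1)) := by
  unfold le
  rw [zk k]
  push_cast
  ring

theorem le_succ (t : ℝ) (k n : ℤ) : le t k (n + 1) = le t k n + (2 : ℝ) ^ (-k) := by
  unfold le
  push_cast
  ring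

theorem bnd (f : ℝ → ℝ) (Λ t : ℝ) (hΛ : 0 ≤ Λ) (hf : ∀ x y, |f x - f y| ≤ Λ * |x - y|) (k n : ℤ)
    (x : ℝ) (hx : x ∈ Icc (le t k n) (le t k (n + 1))) :
    |f x - cho f t k n x| * (2 : ℝ) ^ k ≤ 2 * Λ := by
  have hq := pos k
  have hp := pos (-k)
  have hqp := zk5 k
  have hr := le_succ t k n
  obtain ⟨hx1, hx2⟩ := hx
  have h1 := hf x (le t k n)
  have h2 := hf (le t k (n + 1)) (le t k n)
  rw [abs_of_nonneg (sub_nonneg.2 hx1)] at h1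
  have h3 : le t k (n + 1) - le t k n = (2 : ℝ) ^ (-k) := by rw [hr]; ring
  rw [h3, abs_of_pos hp] at h2
  unfold cho
  have h4 : |(f (le t k (n + 1)) - f (le t k n)) * (2 : ℝ) ^ k * (x - le t k n)| ≤
      Λ * (x - le t k n) := by
    rw [abs_mul, abs_mul, abs_of_pos hq, abs_of_nonneg (sub_nonneg.2 hx1)]
    calc |f (le t k (n + 1)) - f (le t k n)| * (2 : ℝ) ^ k * (x - le t k n)
        ≤ Λ * (2 : ℝ) ^ (-k) * (2 : ℝ) ^ k * (x - le t k n) := by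
          refine mul_le_mul_of_nonneg_right ?_ (sub_nonneg.2 hx1)
          exact mul_le_mul_of_nonneg_right h2 hq.le
      _ = Λ * ((2 : ℝ) ^ k * (2 : ℝ) ^ (-k)) * (x - le t k n) := by ring
      _ = Λ * (x - le t k n) := by rw [hqp, mul_one]
  have h5 : |f x - (f (le t k n) + (f (le t k (n + 1)) - f (le t k n)) * (2 : ℝ) ^ k *
      (x - le t k n))| ≤ 2 * Λ * (x - le t k n) := by
    have h6 : f x - (f (le t k n) + (f (le t k (n + 1)) - f (le t k n)) * (2 : ℝ) ^ k *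
      (x - le t k n)) = (f x - f (le t k n)) - (f (le t k (n + 1)) - f (le t k n)) * (2 : ℝ) ^ k *
      (x - le t k n) := by ring
    rw [h6]
    refine le_trans (abs_sub _ _) ?_
    linarith
  have h7 : x - le t k n ≤ (2 : ℝ) ^ (-k) := by rw [← h3]; linarith
  calc _ ≤ 2 * Λ * (x - le t k n) * (2 : ℝ) ^ k := mul_le_mul_of_nonneg_right h5 hq.le
    _ ≤ 2 * Λ * (2 : ℝ) ^ (-k) * (2 : ℝ) ^ k := by
        refine mul_le_mul_of_nonneg_right ?_ hq.le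
        exact mul_le_mul_of_nonneg_left h7 (by linarith)
    _ = 2 * Λ * ((2 : ℝ) ^ k * (2 : ℝ) ^ (-k)) := by ring
    _ = 2 * Λ := by rw [hqp, mul_one]

theorem om_nonneg (f : ℝ → ℝ) (t : ℝ) (k n : ℤ) : 0 ≤ om f t k n := by
  unfold om
  apply Real.sSup_nonneg
  rintro s ⟨x, -, rfl⟩
  exact mul_nonneg (abs_nonneg _) (pos k).le

theorem om_bdd (f : ℝ → ℝ) (Λ t : ℝ) (hΛ : 0 ≤ Λ) (hf : ∀ x y, |f x - f y| ≤ Λ * |x - y|) (k n : ℤ) :
    BddAbove {s : ℝ | ∃ x ∈ Icc (le t k n) (le t k (n + 1)), s = |f x - cho f t k n x| * (2 : ℝ) ^ k} := by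
  refine ⟨2 * Λ, ?_⟩
  rintro s ⟨x, hx, rfl⟩
  exact bnd f Λ t hΛ hf k n x hx

theorem om_ge (f : ℝ → ℝ) (Λ t : ℝ) (hΛ : 0 ≤ Λ) (hf : ∀ x y, |f x - f y| ≤ Λ * |x - y|) (k n : ℤ)
    (x : ℝ) (hx : x ∈ Icc (le t k n) (le t k (n + 1))) :
    |f x - cho f t k n x| * (2 : ℝ) ^ k ≤ om f t k n :=
  le_csSup (om_bdd f Λ t hΛ hf k n) ⟨x, hx, rfl⟩

theorem om_ge' (f : ℝ → ℝ) (Λ t : ℝ) (hΛ : 0 ≤ Λ) (hf : ∀ x y, |f x - f y| ≤ Λ * |x - y|) (k n : ℤ)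
    (x : ℝ) (hx : x ∈ Icc (le t k n) (le t k (n + 1))) :
    |f x - cho f t k n x| ≤ om f t k n * (2 : ℝ) ^ (-k) := by
  have h1 := om_ge f Λ t hΛ hf k n x hx
  have h2 := mul_le_mul_of_nonneg_right h1 (pos (-k)).le
  rwa [mul_assoc, zk5, mul_one] at h2

theorem om_le (f : ℝ → ℝ) (t : ℝ) (k n : ℤ) (B : ℝ)
    (h : ∀ x ∈ Icc (le t k n) (le t k (n + 1)), |f x - cho f t k n x| * (2 : ℝ) ^ k ≤ B) :
    om f t k n ≤ B := by
  unfold om
  apply csSup_le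
  · refine ⟨_, le t k n, ⟨le_refl _, ?_⟩, rfl⟩
    rw [le_succ]
    linarith [pos (-k)]
  · rintro s ⟨x, hx, rfl⟩
    exact h x hx

theorem cho_left (f : ℝ → ℝ) (t : ℝ) (k n : ℤ) (x : ℝ) :
    cho f t (k + 1) (2 * n) x - cho f t k n x = -(dsl f t k n / 2 * (x - le t k n)) := by
  unfold cho dsl
  rw [le_left, zk4]
  ring

theorem cho_right (f : ℝ → ℝ) (t : ℝ) (k n : ℤ) (x : ℝ) :
    cho f t (k + 1) (2 * n + 1) x - cho f t k n x = dsl f t k n / 2 * (x - le t k (n + 1)) := by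
  have h1 : le t k (n + 1) - le t k n = (2 : ℝ) ^ (-k) := by rw [le_succ]; ring
  have h2 : (2 : ℝ) ^ k * (le t k (n + 1) - le t k n) = 1 := by rw [h1, zk5]
  have h3 : (2 : ℝ) ^ k * (le t k (n + 1) - le t (k + 1) (2 * n + 1)) = 1 / 2 := by
    have h4 : le t k (n + 1) - le t (k + 1) (2 * n + 1) = (2 : ℝ) ^ (-k) / 2 := by
      rw [le_mid, le_succ, zk k]
      ring
    rw [h4, ← mul_div_assoc, zk5]
  unfold cho dsl
  rw [le_right, zk4]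
  linear_combination 2 * (f (le t k (n + 1)) - f (le t (k + 1) (2 * n + 1))) * h3 -
    (f (le t k (n + 1)) - f (le t k n)) * h2

theorem om_rec (f : ℝ → ℝ) (Λ t : ℝ) (hΛ : 0 ≤ Λ) (hf : ∀ x y, |f x - f y| ≤ Λ * |x - y|) (k n : ℤ) :
    om f t k n ≤ |dsl f t k n| / 4 + max (om f t (k + 1) (2 * n)) (om f t (k + 1) (2 * n + 1)) / 2 := by
  apply om_le
  rintro x ⟨hx1, hx2⟩
  have hq := pos k
  have hqp := zk5 k
  have hz := zk k
  have hp := pos (-(k + 1))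
  have key : ∀ (om1 c1 e : ℝ), om1 ≤ max (om f t (k + 1) (2 * n)) (om f t (k + 1) (2 * n + 1)) →
      |f x - c1| ≤ om1 * (2 : ℝ) ^ (-(k + 1)) → |c1 - cho f t k n x| ≤ |dsl f t k n| / 2 * (2 : ℝ) ^ (-(k + 1)) →
      |f x - cho f t k n x| * (2 : ℝ) ^ k ≤ |dsl f t k n| / 4 +
        max (om f t (k + 1) (2 * n)) (om f t (k + 1) (2 * n + 1)) / 2 := by
    intro om1 c1 _ h1 h2 h3
    have h4 : |f x - cho f t k n x| ≤ om1 * (2 : ℝ) ^ (-(k + 1)) +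
        |dsl f t k n| / 2 * (2 : ℝ) ^ (-(k + 1)) := by
      have h5 : f x - cho f t k n x = (f x - c1) + (c1 - cho f t k n x) := by ring
      rw [h5]
      exact le_trans (abs_add_le _ _) (add_le_add h2 h3)
    have h6 : (2 : ℝ) ^ (-(k + 1)) * (2 : ℝ) ^ k = 1 / 2 := by
      rw [hz] at hqp
      linarith
    calc |f x - cho f t k n x| * (2 : ℝ) ^ k
        ≤ (om1 * (2 : ℝ) ^ (-(k + 1)) + |dsl f t k n| / 2 * (2 : ℝ) ^ (-(k + 1))) * (2 : ℝ) ^ k :=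
          mul_le_mul_of_nonneg_right h4 hq.le
      _ = (om1 + |dsl f t k n| / 2) * ((2 : ℝ) ^ (-(k + 1)) * (2 : ℝ) ^ k) := by ring
      _ = |dsl f t k n| / 4 + om1 / 2 := by rw [h6]; ring
      _ ≤ _ := by linarith
  rcases le_total x (le t (k + 1) (2 * n + 1)) with hc | hc
  · refine key (om f t (k + 1) (2 * n)) (cho f t (k + 1) (2 * n) x) 0 (le_max_left _ _) ?_ ?_
    · exact om_ge' f Λ t hΛ hf (k + 1) (2 * n) x ⟨by rw [le_left]; exact hx1, hc⟩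
    · rw [cho_left, abs_neg, abs_mul, abs_div, abs_two, abs_of_nonneg (sub_nonneg.2 hx1)]
      refine mul_le_mul_of_nonneg_left ?_ (by positivity)
      rw [le_mid] at hc
      linarith
  · refine key (om f t (k + 1) (2 * n + 1)) (cho f t (k + 1) (2 * n + 1) x) 0 (le_max_right _ _) ?_ ?_
    · exact om_ge' f Λ t hΛ hf (k + 1) (2 * n + 1) x ⟨hc, by rw [le_right]; exact hx2⟩
    · rw [cho_right, abs_mul, abs_div, abs_two, abs_sub_comm, abs_of_nonneg (sub_nonneg.2 hx2)]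
      refine mul_le_mul_of_nonneg_left ?_ (by positivity)
      rw [le_mid] at hc
      rw [le_succ, hz]
      linarith

/-- the two inequalities of one step -/
theorem step (f : ℝ → ℝ) (Λ t : ℝ) (hΛ : 0 ≤ Λ) (hf : ∀ x y, |f x - f y| ≤ Λ * |x - y|) (k n : ℤ) :
    4 * om f t k n ^ 2 + 3 * sl f t k n ^ 2 ≤
      3 / 2 * (om f t (k + 1) (2 * n) ^ 2 + om f t (k + 1) (2 * n + 1) ^ 2) +
        3 / 2 * (sl f t (k + 1) (2 * n) ^ 2 + sl f t (k + 1) (2 * n + 1) ^ 2) := by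
  have h1 := om_rec f Λ t hΛ hf k n
  have h0 := om_nonneg f t k n
  have h01 := om_nonneg f t (k + 1) (2 * n)
  have h02 := om_nonneg f t (k + 1) (2 * n + 1)
  have h2 : om f t k n ^ 2 ≤ 3 / 16 * dsl f t k n ^ 2 +
      3 / 8 * (om f t (k + 1) (2 * n) ^ 2 + om f t (k + 1) (2 * n + 1) ^ 2) := by
    have h3 : max (om f t (k + 1) (2 * n)) (om f t (k + 1) (2 * n + 1)) ^ 2 ≤
        om f t (k + 1) (2 * n) ^ 2 + om f t (k + 1) (2 * n + 1) ^ 2 := by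
      rcases max_choice (om f t (k + 1) (2 * n)) (om f t (k + 1) (2 * n + 1)) with h | h
      · rw [h]; nlinarith [sq_nonneg (om f t (k + 1) (2 * n + 1))]
      · rw [h]; nlinarith [sq_nonneg (om f t (k + 1) (2 * n))]
    have h4 : om f t k n ^ 2 ≤ (|dsl f t k n| / 4 +
        max (om f t (k + 1) (2 * n)) (om f t (k + 1) (2 * n + 1)) / 2) ^ 2 :=
      pow_le_pow_left₀ h0 h1 2
    have h5 : |dsl f t k n| ^ 2 = dsl f t k n ^ 2 := sq_abs _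
    nlinarith [sq_nonneg (|dsl f t k n| / 4 -
        max (om f t (k + 1) (2 * n)) (om f t (k + 1) (2 * n + 1)) / 4)]
  have h6 : sl f t (k + 1) (2 * n) ^ 2 + sl f t (k + 1) (2 * n + 1) ^ 2 =
      2 * sl f t k n ^ 2 + dsl f t k n ^ 2 / 2 := by
    unfold sl dsl
    rw [le_left, le_right, zk4]
    ring
  nlinarith [h2, h6]

theorem sl_le (f : ℝ → ℝ) (Λ t : ℝ) (hf : ∀ x y, |f x - f y| ≤ Λ * |x - y|) (k n : ℤ) :
    sl f t k n ^ 2 ≤ Λ ^ 2 := by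
  have h2 := hf (le t k (n + 1)) (le t k n)
  have h3 : le t k (n + 1) - le t k n = (2 : ℝ) ^ (-k) := by rw [le_succ]; ring
  rw [h3, abs_of_pos (pos _)] at h2
  have h4 : |sl f t k n| ≤ Λ := by
    unfold sl
    rw [abs_mul, abs_of_pos (pos k)]
    calc _ ≤ Λ * (2 : ℝ) ^ (-k) * (2 : ℝ) ^ k := mul_le_mul_of_nonneg_right h2 (pos k).le
      _ = Λ * ((2 : ℝ) ^ k * (2 : ℝ) ^ (-k)) := by ring
      _ = Λ := by rw [zk5, mul_one]
  rw [← sq_abs]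
  exact pow_le_pow_left₀ (abs_nonneg _) h4 2

theorem om_le2 (f : ℝ → ℝ) (Λ t : ℝ) (hΛ : 0 ≤ Λ) (hf : ∀ x y, |f x - f y| ≤ Λ * |x - y|) (k n : ℤ) :
    om f t k n ^ 2 ≤ 4 * Λ ^ 2 := by
  have h1 := om_le f t k n (2 * Λ) (fun x hx => bnd f Λ t hΛ hf k n x hx)
  have h2 := pow_le_pow_left₀ (om_nonneg f t k n) h1 2
  nlinarith

/-- the packing inequality with the potential -/
theorem pack (f : ℝ → ℝ) (Λ t : ℝ) (hΛ : 0 ≤ Λ) (hf : ∀ x y, |f x - f y| ≤ Λ * |x - y|) (T : ℕ) :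
    ∀ (k₀ n₀ : ℤ) (S : Finset (ℤ × ℤ)),
    (∀ J ∈ S, k₀ ≤ J.1 ∧ n₀ * 2 ^ (J.1 - k₀).toNat ≤ J.2 ∧ J.2 < (n₀ + 1) * 2 ^ (J.1 - k₀).toNat) →
    (∀ J ∈ S, J.1 < k₀ + T) →
    ∑ J ∈ S, om f t J.1 J.2 ^ 2 * (2 : ℝ) ^ (-J.1) ≤
      (15 * Λ ^ 2 - 3 * om f t k₀ n₀ ^ 2 - 3 * sl f t k₀ n₀ ^ 2) * (2 : ℝ) ^ (-k₀) := by
  induction T with
  | zero =>
    intro k₀ n₀ S h1 h2
    have h3 : S = ∅ := by
      rw [Finset.eq_empty_iff_forall_notMem]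
      intro J hJ
      have h4 := (h1 J hJ).1
      have h5 := h2 J hJ
      push_cast at h5
      omega
    rw [h3, Finset.sum_empty]
    refine mul_nonneg ?_ (pos _).le
    have := sl_le f Λ t hf k₀ n₀
    have := om_le2 f Λ t hΛ hf k₀ n₀
    linarith
  | succ T ih =>
    intro k₀ n₀ S h1 h2
    have hnn : ∀ J : ℤ × ℤ, 0 ≤ om f t J.1 J.2 ^ 2 * (2 : ℝ) ^ (-J.1) := fun J =>
      mul_nonneg (sq_nonneg _) (pos _).le
    have e0 := Finset.sum_filter_add_sum_filter_not S (fun J : ℤ × ℤ => J.1 = k₀)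
      (fun J => om f t J.1 J.2 ^ 2 * (2 : ℝ) ^ (-J.1))
    have e1 := Finset.sum_filter_add_sum_filter_not (S.filter (fun J : ℤ × ℤ => ¬ J.1 = k₀))
      (fun J : ℤ × ℤ => J.2 < (2 * n₀ + 1) * 2 ^ (J.1 - (k₀ + 1)).toNat)
      (fun J => om f t J.1 J.2 ^ 2 * (2 : ℝ) ^ (-J.1))
    have hA : ∑ J ∈ S.filter (fun J : ℤ × ℤ => J.1 = k₀), om f t J.1 J.2 ^ 2 * (2 : ℝ) ^ (-J.1) ≤
        om f t k₀ n₀ ^ 2 * (2 : ℝ) ^ (-k₀) := by
      have h3 : S.filter (fun J : ℤ × ℤ => J.1 = k₀) ⊆ {(k₀, n₀)} := by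
        intro J hJ
        rw [Finset.mem_filter] at hJ
        obtain ⟨hJ1, hJ2⟩ := hJ
        obtain ⟨-, h4, h5⟩ := h1 J hJ1
        rw [hJ2, sub_self, Int.toNat_zero, pow_zero, mul_one] at h4 h5
        rw [Finset.mem_singleton]
        exact Prod.ext hJ2 (by show J.2 = n₀; omega)
      refine le_trans (Finset.sum_le_sum_of_subset_of_nonneg h3 fun J _ _ => hnn J) ?_
      rw [Finset.sum_singleton]
    have hpw : ∀ J ∈ S, ¬ J.1 = k₀ → k₀ + 1 ≤ J.1 ∧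
        (2 : ℤ) ^ (J.1 - k₀).toNat = 2 * 2 ^ (J.1 - (k₀ + 1)).toNat := by
      intro J hJ hne
      have h3 := (h1 J hJ).1
      have h4 : k₀ + 1 ≤ J.1 := by omega
      refine ⟨h4, ?_⟩
      have h5 : (J.1 - k₀).toNat = (J.1 - (k₀ + 1)).toNat + 1 := by omega
      rw [h5, pow_succ, mul_comm]
    have hB := ih (k₀ + 1) (2 * n₀) ((S.filter (fun J : ℤ × ℤ => ¬ J.1 = k₀)).filter
        (fun J : ℤ × ℤ => J.2 < (2 * n₀ + 1) * 2 ^ (J.1 - (k₀ + 1)).toNat))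
      (by
        intro J hJ
        rw [Finset.mem_filter, Finset.mem_filter] at hJ
        obtain ⟨⟨hJ1, hJ2⟩, hJ3⟩ := hJ
        obtain ⟨-, h4, h5⟩ := h1 J hJ1
        obtain ⟨h6, h7⟩ := hpw J hJ1 hJ2
        rw [h7] at h4
        refine ⟨h6, ?_, hJ3⟩
        calc 2 * n₀ * 2 ^ (J.1 - (k₀ + 1)).toNat = n₀ * (2 * 2 ^ (J.1 - (k₀ + 1)).toNat) := by ring
          _ ≤ J.2 := h4)
      (by
        intro J hJ
        rw [Finset.mem_filter, Finset.mem_filter] at hJ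
        have h3 := h2 J hJ.1.1
        push_cast at h3
        omega)
    have hC := ih (k₀ + 1) (2 * n₀ + 1) ((S.filter (fun J : ℤ × ℤ => ¬ J.1 = k₀)).filter
        (fun J : ℤ × ℤ => ¬ J.2 < (2 * n₀ + 1) * 2 ^ (J.1 - (k₀ + 1)).toNat))
      (by
        intro J hJ
        rw [Finset.mem_filter, Finset.mem_filter] at hJ
        obtain ⟨⟨hJ1, hJ2⟩, hJ3⟩ := hJ
        obtain ⟨-, h4, h5⟩ := h1 J hJ1
        obtain ⟨h6, h7⟩ := hpw J hJ1 hJ2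
        rw [h7] at h5
        refine ⟨h6, not_lt.1 hJ3, ?_⟩
        calc J.2 < (n₀ + 1) * (2 * 2 ^ (J.1 - (k₀ + 1)).toNat) := h5
          _ = (2 * n₀ + 1 + 1) * 2 ^ (J.1 - (k₀ + 1)).toNat := by ring)
      (by
        intro J hJ
        rw [Finset.mem_filter, Finset.mem_filter] at hJ
        have h3 := h2 J hJ.1.1
        push_cast at h3
        omega)
    have hs := step f Λ t hΛ hf k₀ n₀
    have hz := zk k₀
    have hp := pos (-(k₀ + 1))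
    rw [← e0, ← e1]
    rw [hz] at hA ⊢
    nlinarith [mul_le_mul_of_nonneg_right hs hp.le]

end Pool.Agent.ANG.DOR

namespace Pool.Agent.ANG

open Set

theorem DOR_thm : Stmt_DOR := by
  intro f Λ t hΛ hf
  refine ⟨DOR.om_nonneg f t, DOR.om_ge' f Λ t hΛ hf, ?_⟩
  intro k₀ n₀ S hS
  have h1 := DOR.pack f Λ t hΛ hf (S.sup (fun J : ℤ × ℤ => (J.1 - k₀).toNat) + 1) k₀ n₀ S hS
    (by
      intro J hJ
      have h2 := Finset.le_sup (f := fun J : ℤ × ℤ => (J.1 - k₀).toNat) hJ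
      have h3 := (hS J hJ).1
      push_cast
      omega)
  refine le_trans h1 ?_
  refine mul_le_mul_of_nonneg_right ?_ (DOR.pos _).le
  nlinarith [sq_nonneg Λ, sq_nonneg (om f t k₀ n₀), sq_nonneg (DOR.sl f t k₀ n₀)]

end Pool.Agent.ANG
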