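import Pool.Agent.ANL.Stmts

/-!
# Analytic capacity and few curves: definitions (MP_98e313_an)

The cells `cell u k`, the masses `Mc`, `Mi`, the sums `Sm`, `T1`, `T3`, the shifts `sh` are those of
`Pool/Agent/ANL/Defs.lean`.
-/

set_option autoImplicit false

namespace Pool.Agent.ANG

open MeasureTheory Set Pool.Agent.ANL

/-- The square of level `k` (side `2 ^ (-k)`) with indices `P` of the dyadic grid shifted by `u`. -/
def sq (u : ℂ) (k : ℤ) (P : ℤ × ℤ) : Set ℂ := {z | cell u k z = P}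

/-- The closed square with the same centre and three times the side. -/
def enl (u : ℂ) (k : ℤ) (P : ℤ × ℤ) : Set ℂ :=
  {z | (P.1 : ℝ) - 1 ≤ (2 : ℝ) ^ k * (z - u).re ∧ (2 : ℝ) ^ k * (z - u).re ≤ P.1 + 2 ∧
    (P.2 : ℝ) - 1 ≤ (2 : ℝ) ^ k * (z - u).im ∧ (2 : ℝ) ^ k * (z - u).im ≤ P.2 + 2}

/-- The beta number of Jones: `G`, inside the threefold square, is in a strip of half width
`β 2 ^ (-k)` about the line through `a` with direction `v`. -/
noncomputable def bet (G : Set ℂ) (u : ℂ) (k : ℤ) (P : ℤ × ℤ) : ℝ :=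
  sInf {δ : ℝ | 0 ≤ δ ∧ ∃ a v : ℂ, ‖v‖ = 1 ∧
    ∀ z ∈ G ∩ enl u k P, |crs v (z - a)| ≤ δ * (2 : ℝ) ^ (-k)}

/-- Jones' condition for the dyadic grid shifted by `u`: for every finite family of squares which meet
`G` and are contained in one square of level `k₀`. -/
def Pack (u : ℂ) (M : ℝ) (G : Set ℂ) : Prop :=
  ∀ (k₀ : ℤ) (P₀ : ℤ × ℤ) (S : Finset (ℤ × (ℤ × ℤ))),
    (∀ Q ∈ S, sq u Q.1 Q.2 ⊆ sq u k₀ P₀ ∧ (G ∩ sq u Q.1 Q.2).Nonempty) →
    ∑ Q ∈ S, bet G u Q.1 Q.2 ^ 2 * (2 : ℝ) ^ (-Q.1) ≤ M * (2 : ℝ) ^ (-k₀)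

/-- The beta number of the curve of `w` in the square of `w`. -/
noncomputable def al {N : ℕ} (Γ : Fin N → Set ℂ) (lab : ℂ → Fin N) (u : ℂ) (k : ℤ) (w : ℂ) : ℝ :=
  bet (Γ (lab w)) u k (cell u k w)

/-- The curve of `w` is not flat at resolution `2 ^ (-j)` between the scales `2 ^ b` and `2 ^ d`. -/
def exw {N : ℕ} (Γ : Fin N → Set ℂ) (lab : ℂ → Fin N) (u : ℂ) (b d : ℤ) (j : ℕ) (w : ℂ) : Prop :=
  (1 / 2 : ℝ) ^ j < 250000 * ∑ k ∈ Finset.Icc (-d - 9) (-b - 4), al Γ lab u k w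

/-- The triple `(x, z, y)`: `x, z` in the same cell of `f'`, `x, y` in the same cell of `f`, the cell
of `f'` is contained in the cell of `f`, and every `w` in the cell of `f'` whose label is present in
the three fine cells satisfies `e`. -/
def Pw {N : ℕ} (X : Finset ℂ) (lab : ℂ → Fin N) (f' g' f g : ℂ → ℤ × ℤ) (e : ℂ → Prop)
    (x z y : ℂ) : Prop :=
  f' z = f' x ∧ f y = f x ∧ (∀ w ∈ X, f' w = f' x → f w = f x) ∧
    ∀ w ∈ X, f' w = f' x → str X g' lab (lab w) x → str X g' lab (lab w) z →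
      str X g lab (lab w) y → e w

open Classical in
/-- The contribution of the exceptional points to the triples of one type. -/
noncomputable def Wx {N : ℕ} (X : Finset ℂ) (m : ℂ → ℝ) (Γ : Fin N → Set ℂ) (lab : ℂ → Fin N)
    (K : ℕ) (b d : ℤ) (j : ℕ) (ω' ω : Bool × Bool) : ℝ :=
  (1 / 4) ^ j / (4 : ℝ) ^ d * ∑ w ∈ X.filter (exw Γ lab (sh K ω') b d j),
    m w * (Mc X m (cell (sh K ω') (-b - 4)) w * Mc X m (cell (sh K ω) (-d - 9)) w)

/-- The Carleson sum: squares of the beta numbers with the square root of the density. -/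
noncomputable def TH {N : ℕ} (X : Finset ℂ) (m : ℂ → ℝ) (Γ : Fin N → Set ℂ) (lab : ℂ → Fin N)
    (u : ℂ) (a b : ℤ) : ℝ :=
  ∑ w ∈ X, m w * ∑ k ∈ Finset.Icc a b,
    al Γ lab u k w ^ 2 * √(Mc X m (cell u k) w * (2 : ℝ) ^ k)

/-- The graph of `f`, rotated by `v`. -/
def gr (v : ℂ) (f : ℝ → ℝ) : Set ℂ := {z | ∃ x : ℝ, z = v * ((x : ℂ) + f x * Complex.I)}

/-- The left end of the dyadic interval of level `k` with index `n`, shifted by `t`. -/
noncomputable def le (t : ℝ) (k n : ℤ) : ℝ := t + n * (2 : ℝ) ^ (-k)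

/-- The chord of `f` over the dyadic interval. -/
noncomputable def cho (f : ℝ → ℝ) (t : ℝ) (k n : ℤ) (x : ℝ) : ℝ :=
  f (le t k n) + (f (le t k (n + 1)) - f (le t k n)) * (2 : ℝ) ^ k * (x - le t k n)

/-- The difference of the slopes of the two halves of the dyadic interval. -/
noncomputable def dsl (f : ℝ → ℝ) (t : ℝ) (k n : ℤ) : ℝ :=
  (f (le t k n) + f (le t k (n + 1)) - 2 * f (le t (k + 1) (2 * n + 1))) * (2 : ℝ) ^ (k + 1)

/-- The distance of `f` from the chord, divided by the length. -/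
noncomputable def om (f : ℝ → ℝ) (t : ℝ) (k n : ℤ) : ℝ :=
  sSup {s : ℝ | ∃ x ∈ Icc (le t k n) (le t k (n + 1)), s = |f x - cho f t k n x| * (2 : ℝ) ^ k}

end Pool.Agent.ANG
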