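import Pool.Agent.ANG.Stmts

/-!
# EXS: the sum over the exceptional points (MP_98e313_an)
-/

set_option autoImplicit false

namespace Pool.Agent.ANG

open MeasureTheory Set Pool.Agent.ANL

namespace EXS

theorem geo_all (n : ℕ) : ∑ j ∈ Finset.range n, (1 / 4 : ℝ) ^ j ≤ 4 / 3 := by
  have h : ∀ n : ℕ, ∑ j ∈ Finset.range n, (1 / 4 : ℝ) ^ j = 4 / 3 - 4 / 3 * (1 / 4) ^ n := by
    intro n
    induction n with
    | zero => simp
    | succ n ih =>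
      rw [Finset.sum_range_succ, ih, pow_succ]
      ring
  rw [h n]
  have : (0 : ℝ) ≤ (1 / 4) ^ n := by positivity
  linarith

/-- The sum over the resolutions. -/
theorem geo_le (J : ℕ) : ∀ t : ℝ, 0 ≤ t →
    ∑ j ∈ Finset.range J, (if (1 / 2 : ℝ) ^ j < t then (1 / 4 : ℝ) ^ j else 0) ≤
      4 / 3 * t ^ 2 := by
  induction J with
  | zero =>
    intro t ht
    rw [Finset.sum_range_zero]
    positivity
  | succ J ih =>
    intro t ht
    rcases le_or_gt t 1 with h | h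
    · rw [Finset.sum_range_succ']
      have h0 : (if (1 / 2 : ℝ) ^ 0 < t then (1 / 4 : ℝ) ^ 0 else 0) = 0 := by
        rw [pow_zero, if_neg (not_lt.2 h)]
      have h1 : ∀ j ∈ Finset.range J,
          (if (1 / 2 : ℝ) ^ (j + 1) < t then (1 / 4 : ℝ) ^ (j + 1) else 0) =
            1 / 4 * (if (1 / 2 : ℝ) ^ j < 2 * t then (1 / 4 : ℝ) ^ j else 0) := by
        intro j _
        have h2 : (1 / 2 : ℝ) ^ (j + 1) < t ↔ (1 / 2 : ℝ) ^ j < 2 * t := by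
          rw [pow_succ]
          constructor <;> intro h3 <;> linarith
        by_cases h3 : (1 / 2 : ℝ) ^ j < 2 * t
        · rw [if_pos h3, if_pos (h2.2 h3), pow_succ]
          ring
        · rw [if_neg h3, if_neg (fun h4 => h3 (h2.1 h4))]
          ring
      rw [h0, add_zero, Finset.sum_congr rfl h1, ← Finset.mul_sum]
      have h2 := ih (2 * t) (by linarith)
      nlinarith [h2]
    · have h1 : ∑ j ∈ Finset.range (J + 1), (if (1 / 2 : ℝ) ^ j < t then (1 / 4 : ℝ) ^ j else 0) ≤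
          ∑ j ∈ Finset.range (J + 1), (1 / 4 : ℝ) ^ j := by
        apply Finset.sum_le_sum
        intro j _
        split_ifs
        · exact le_rfl
        · positivity
      have h2 := geo_all (J + 1)
      have h3 : 1 ≤ t ^ 2 := by nlinarith
      linarith

/-- `(z + 1) r ^ z` for `z ≥ 0`, and `0` otherwise. -/
noncomputable def H (r : ℝ) (z : ℤ) : ℝ := if 0 ≤ z then ((z : ℝ) + 1) * r ^ z.toNat else 0

theorem H_nonneg {r : ℝ} (hr : 0 ≤ r) (z : ℤ) : 0 ≤ H r z := by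
  unfold H
  split_ifs with h
  · have h1 : (0 : ℝ) ≤ z := by exact_mod_cast h
    positivity
  · exact le_rfl

theorem H_nat (r : ℝ) (n : ℕ) : H r (n : ℤ) = ((n : ℝ) + 1) * r ^ n := by
  unfold H
  rw [if_pos (Int.natCast_nonneg n)]
  simp

theorem sum_H (r c : ℝ) (hr : 0 ≤ r)
    (hc : ∀ n : ℕ, ∑ i ∈ Finset.range n, ((i : ℝ) + 1) * r ^ i ≤ c)
    (S : Finset ℤ) (φ : ℤ → ℤ) (hφ : Function.Injective φ) : ∑ d ∈ S, H r (φ d) ≤ c := by
  classical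
  have h1 : ∑ d ∈ S, H r (φ d) = ∑ d ∈ S.filter (fun d => 0 ≤ φ d), H r (φ d) := by
    rw [Finset.sum_filter]
    apply Finset.sum_congr rfl
    intro d _
    by_cases h : 0 ≤ φ d
    · rw [if_pos h]
    · rw [if_neg h]
      unfold H
      rw [if_neg h]
  have hinj : Set.InjOn (fun d => (φ d).toNat) (S.filter (fun d => 0 ≤ φ d) : Set ℤ) := by
    intro a ha b hb hab
    have ha' := (Finset.mem_filter.1 (Finset.mem_coe.1 ha)).2
    have hb' := (Finset.mem_filter.1 (Finset.mem_coe.1 hb)).2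
    apply hφ
    have h2 : ((φ a).toNat : ℤ) = ((φ b).toNat : ℤ) := congrArg Int.ofNat hab
    rwa [Int.toNat_of_nonneg ha', Int.toNat_of_nonneg hb'] at h2
  have h2 : ∑ d ∈ S.filter (fun d => 0 ≤ φ d), H r (φ d) =
      ∑ i ∈ (S.filter (fun d => 0 ≤ φ d)).image (fun d => (φ d).toNat), ((i : ℝ) + 1) * r ^ i := by
    rw [Finset.sum_image hinj]
    apply Finset.sum_congr rfl
    intro d hd
    have hd' := (Finset.mem_filter.1 hd).2
    have h3 : φ d = (((φ d).toNat : ℕ) : ℤ) := (Int.toNat_of_nonneg hd').symm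
    conv_lhs => rw [h3]
    rw [H_nat]
  rw [h1, h2]
  set T := (S.filter (fun d => 0 ≤ φ d)).image (fun d => (φ d).toNat) with hT
  refine le_trans ?_ (hc (T.sup id + 1))
  apply Finset.sum_le_sum_of_subset_of_nonneg
  · intro i hi
    rw [Finset.mem_range]
    have h3 : id i ≤ T.sup id := Finset.le_sup hi
    simp only [id] at h3
    omega
  · intro i _ _
    positivity

theorem sum_half (n : ℕ) : ∑ i ∈ Finset.range n, ((i : ℝ) + 1) * (1 / 2) ^ i ≤ 4 := by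
  have h : ∀ n : ℕ, ∑ i ∈ Finset.range n, ((i : ℝ) + 1) * (1 / 2) ^ i =
      4 - (2 * n + 4) * (1 / 2) ^ n := by
    intro n
    induction n with
    | zero => simp
    | succ n ih =>
      rw [Finset.sum_range_succ, ih, pow_succ]
      push_cast
      ring
  rw [h n]
  have : (0 : ℝ) ≤ (2 * n + 4) * (1 / 2) ^ n := by positivity
  linarith

theorem sum_quart (n : ℕ) : ∑ i ∈ Finset.range n, ((i : ℝ) + 1) * (3 / 4) ^ i ≤ 16 := by
  have h : ∀ n : ℕ, ∑ i ∈ Finset.range n, ((i : ℝ) + 1) * (3 / 4) ^ i =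
      16 - (4 * n + 16) * (3 / 4) ^ n := by
    intro n
    induction n with
    | zero => simp
    | succ n ih =>
      rw [Finset.sum_range_succ, ih, pow_succ]
      push_cast
      ring
  rw [h n]
  have : (0 : ℝ) ≤ (4 * n + 16) * (3 / 4) ^ n := by positivity
  linarith

/-- The mass of a fine cell in terms of the mass of a larger one. -/
theorem mu_le (μp μk : ℝ) (k : ℤ) (n : ℕ) (h0 : 0 ≤ μp) (h1 : μp ≤ μk)
    (h2 : μp ≤ 3 / 2 * (2 : ℝ) ^ (-(k + n))) :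
    μp ≤ 2 * (2 : ℝ) ^ (-k) * (3 / 4) ^ n * √(μk * (2 : ℝ) ^ k) := by
  have hk : (0 : ℝ) < (2 : ℝ) ^ k := zpow_pos (by norm_num) _
  have hk' : (0 : ℝ) < (2 : ℝ) ^ (-k) := zpow_pos (by norm_num) _
  have hkk : (2 : ℝ) ^ (-k) * (2 : ℝ) ^ k = 1 := by
    rw [← zpow_add₀ (by norm_num : (2 : ℝ) ≠ 0)]
    simp
  have h3 : (2 : ℝ) ^ (-(k + n)) = (2 : ℝ) ^ (-k) * (1 / 2) ^ n := by
    rw [neg_add, zpow_add₀ (by norm_num : (2 : ℝ) ≠ 0), zpow_neg (2 : ℝ) (n : ℤ), zpow_natCast,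
      one_div, inv_pow]
  rw [h3] at h2
  have hμk : 0 ≤ μk := h0.trans h1
  have h4 : μp ^ 2 ≤ (2 * (2 : ℝ) ^ (-k) * (3 / 4) ^ n) ^ 2 * (μk * (2 : ℝ) ^ k) := by
    have h5 : μp ^ 2 ≤ 3 / 2 * ((2 : ℝ) ^ (-k) * (1 / 2) ^ n) * μk := by
      rw [pow_two]
      exact mul_le_mul h2 h1 h0 (h0.trans h2)
    have h6 : (2 * (2 : ℝ) ^ (-k) * (3 / 4) ^ n) ^ 2 * (μk * (2 : ℝ) ^ k) =
        4 * (2 : ℝ) ^ (-k) * (9 / 16) ^ n * μk := by
      have h7 : (9 / 16 : ℝ) ^ n = ((3 / 4) ^ n) ^ 2 := by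
        rw [← pow_mul, mul_comm n 2, pow_mul]
        norm_num
      rw [h7]
      calc (2 * (2 : ℝ) ^ (-k) * (3 / 4) ^ n) ^ 2 * (μk * (2 : ℝ) ^ k)
          = 4 * (2 : ℝ) ^ (-k) * ((3 / 4) ^ n) ^ 2 * μk * ((2 : ℝ) ^ (-k) * (2 : ℝ) ^ k) := by ring
        _ = _ := by rw [hkk, mul_one]
    rw [h6]
    refine h5.trans ?_
    have h8 : (1 / 2 : ℝ) ^ n ≤ (9 / 16) ^ n := pow_le_pow_left₀ (by norm_num) (by norm_num) n
    have h9 : (0 : ℝ) ≤ (1 / 2) ^ n := by positivity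
    have h10 : (0 : ℝ) ≤ (2 : ℝ) ^ (-k) * μk := by positivity
    nlinarith [mul_le_mul_of_nonneg_left h8 h10, mul_nonneg h10 h9]
  calc μp = √(μp ^ 2) := (Real.sqrt_sq h0).symm
    _ ≤ √((2 * (2 : ℝ) ^ (-k) * (3 / 4) ^ n) ^ 2 * (μk * (2 : ℝ) ^ k)) := Real.sqrt_le_sqrt h4
    _ = 2 * (2 : ℝ) ^ (-k) * (3 / 4) ^ n * √(μk * (2 : ℝ) ^ k) := by
        rw [Real.sqrt_mul (sq_nonneg _), Real.sqrt_sq (by positivity)]

/-- The mass of a cell. -/
theorem cell_mass (hC : ANL.Stmt_CELL) (X : Finset ℂ) (m : ℂ → ℝ) (ε : ℝ) (hG : Grow X m ε)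
    (u : ℂ) (k : ℤ) (hε : ε ≤ 3 / 2 * (2 : ℝ) ^ (-k)) (w : ℂ) :
    Mc X m (cell u k) w ≤ 3 / 2 * (2 : ℝ) ^ (-k) := by
  classical
  refine le_trans ?_ (hG.2 w _ hε)
  unfold Mc
  refine Finset.sum_le_sum_of_subset_of_nonneg ?_ ?_
  · intro y hy
    rw [Finset.mem_filter] at hy ⊢
    exact ⟨hy.1, hC.2.1 u k y w hy.2⟩
  · intro y hy _
    exact hG.1 y (Finset.mem_filter.mp hy).1

theorem Mc_nonneg (X : Finset ℂ) (m : ℂ → ℝ) (hm : ∀ x ∈ X, 0 < m x) (f : ℂ → ℤ × ℤ) (w : ℂ) :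
    0 ≤ Mc X m f w := by
  classical
  unfold Mc
  exact Finset.sum_nonneg fun y hy => (hm y (Finset.mem_filter.1 hy).1).le

theorem Mc_mono (hC : ANL.Stmt_CELL) (X : Finset ℂ) (m : ℂ → ℝ) (hm : ∀ x ∈ X, 0 < m x) (u : ℂ)
    (k l : ℤ) (hkl : k ≤ l) (w : ℂ) : Mc X m (cell u l) w ≤ Mc X m (cell u k) w := by
  classical
  unfold Mc
  refine Finset.sum_le_sum_of_subset_of_nonneg ?_ ?_
  · intro y hy
    rw [Finset.mem_filter] at hy ⊢
    exact ⟨hy.1, hC.1 u k l y w hkl hy.2⟩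
  · intro y hy _
    exact (hm y (Finset.mem_filter.mp hy).1).le

theorem swapA {ι : Type*} (t : Finset ι) (S : Finset ℤ) (S' : ℤ → Finset ℤ) (J : ℕ)
    (F : ℤ → ℤ → ℕ → ι → ℝ) :
    ∑ d ∈ S, ∑ b ∈ S' d, ∑ j ∈ Finset.range J, ∑ i ∈ t, F d b j i =
      ∑ i ∈ t, ∑ d ∈ S, ∑ b ∈ S' d, ∑ j ∈ Finset.range J, F d b j i := by
  calc ∑ d ∈ S, ∑ b ∈ S' d, ∑ j ∈ Finset.range J, ∑ i ∈ t, F d b j i
      = ∑ d ∈ S, ∑ b ∈ S' d, ∑ i ∈ t, ∑ j ∈ Finset.range J, F d b j i :=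
        Finset.sum_congr rfl fun d _ => Finset.sum_congr rfl fun b _ => Finset.sum_comm
    _ = ∑ d ∈ S, ∑ i ∈ t, ∑ b ∈ S' d, ∑ j ∈ Finset.range J, F d b j i :=
        Finset.sum_congr rfl fun d _ => Finset.sum_comm
    _ = ∑ i ∈ t, ∑ d ∈ S, ∑ b ∈ S' d, ∑ j ∈ Finset.range J, F d b j i := Finset.sum_comm

/-- The constant of one pair of scales. -/
noncomputable def C1 : ℝ := 4 / 3 * 250000 ^ 2 * (768 * 512 * 2)

theorem C1_pos : 0 < C1 := by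
  unfold C1
  norm_num

/-- The sum over the resolutions, for one point and one pair of scales. -/
theorem one_pair (J : ℕ) (β μ : ℤ → ℝ) (b d : ℤ) (ν : ℝ) (hβ : ∀ k, 0 ≤ β k) (hμ0 : ∀ k, 0 ≤ μ k)
    (hμ : ∀ k l, k ≤ l → μ l ≤ μ k) (hμp : μ (-b - 4) ≤ 3 / 2 * (2 : ℝ) ^ (-(-b - 4)))
    (hν0 : 0 ≤ ν) (hν : ν ≤ 3 / 2 * (2 : ℝ) ^ (-(-d - 9))) (hbd : b ≤ d) :
    ∑ j ∈ Finset.range J, (1 / 4 : ℝ) ^ j / (4 : ℝ) ^ d *
      (if (1 / 2 : ℝ) ^ j < 250000 * ∑ k ∈ Finset.Icc (-d - 9) (-b - 4), β k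
        then μ (-b - 4) * ν else 0) ≤
    C1 * ∑ k ∈ Finset.Icc (-d - 9) (-b - 4), β k ^ 2 * √(μ k * (2 : ℝ) ^ k) *
      (H (1 / 2) (k + d + 9) * H (3 / 4) (-b - 4 - k)) := by
  set q : ℤ := -d - 9 with hq
  set p : ℤ := -b - 4 with hp
  have hqp : q ≤ p := by omega
  set t : ℝ := 250000 * ∑ k ∈ Finset.Icc q p, β k with ht
  have ht0 : 0 ≤ t := mul_nonneg (by norm_num) (Finset.sum_nonneg fun k _ => hβ k)
  have h4d : (0 : ℝ) < (4 : ℝ) ^ d := zpow_pos (by norm_num) _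
  have e1 : ∑ j ∈ Finset.range J, (1 / 4 : ℝ) ^ j / (4 : ℝ) ^ d *
      (if (1 / 2 : ℝ) ^ j < t then μ p * ν else 0) =
      μ p * (ν / (4 : ℝ) ^ d) *
        ∑ j ∈ Finset.range J, (if (1 / 2 : ℝ) ^ j < t then (1 / 4 : ℝ) ^ j else 0) := by
    rw [Finset.mul_sum]
    apply Finset.sum_congr rfl
    intro j _
    split_ifs
    · ring
    · ring
  have h1 := geo_le J t ht0
  have h2 : t ^ 2 ≤ 250000 ^ 2 * (((p : ℝ) - q + 1) * ∑ k ∈ Finset.Icc q p, β k ^ 2) := by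
    have h3 := sq_sum_le_card_mul_sum_sq (s := Finset.Icc q p) (f := β)
    have h4 : ((Finset.Icc q p).card : ℝ) = (p : ℝ) - q + 1 := by
      rw [Int.card_Icc]
      have h5 : (((p + 1 - q).toNat : ℕ) : ℤ) = p + 1 - q := Int.toNat_of_nonneg (by omega)
      have h6 : (((p + 1 - q).toNat : ℕ) : ℝ) = ((p + 1 - q : ℤ) : ℝ) := by
        exact_mod_cast h5
      rw [h6]
      push_cast
      ring
    rw [h4] at h3
    rw [ht, mul_pow]
    exact mul_le_mul_of_nonneg_left h3 (by norm_num)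
  have hν' : ν / (4 : ℝ) ^ d ≤ 768 * 512 * (2 : ℝ) ^ q := by
    rw [div_le_iff₀ h4d]
    have h5 : (4 : ℝ) ^ d = (2 : ℝ) ^ d * (2 : ℝ) ^ d := by
      rw [← mul_zpow]
      norm_num
    have h6 : (2 : ℝ) ^ q = ((2 : ℝ) ^ d)⁻¹ * (1 / 512) := by
      rw [hq, sub_eq_add_neg, zpow_add₀ (by norm_num : (2 : ℝ) ≠ 0), zpow_neg]
      norm_num
    have h7 : (2 : ℝ) ^ (-q) = (2 : ℝ) ^ d * 512 := by
      rw [hq, neg_sub, sub_neg_eq_add, zpow_add₀ (by norm_num : (2 : ℝ) ≠ 0), mul_comm]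
      norm_num
    have h8 : (0 : ℝ) < (2 : ℝ) ^ d := zpow_pos (by norm_num) _
    rw [h7] at hν
    rw [h5, h6]
    have h9 : 768 * 512 * (((2 : ℝ) ^ d)⁻¹ * (1 / 512)) * ((2 : ℝ) ^ d * (2 : ℝ) ^ d) =
        768 * (2 : ℝ) ^ d := by
      field_simp
    rw [h9]
    linarith
  have hν0' : 0 ≤ ν / (4 : ℝ) ^ d := div_nonneg hν0 h4d.le
  rw [e1]
  have h5 : μ p * (ν / (4 : ℝ) ^ d) *
      ∑ j ∈ Finset.range J, (if (1 / 2 : ℝ) ^ j < t then (1 / 4 : ℝ) ^ j else 0) ≤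
      μ p * (ν / (4 : ℝ) ^ d) *
        (4 / 3 * (250000 ^ 2 * (((p : ℝ) - q + 1) * ∑ k ∈ Finset.Icc q p, β k ^ 2))) := by
    apply mul_le_mul_of_nonneg_left _ (mul_nonneg (hμ0 p) hν0')
    linarith
  refine h5.trans ?_
  rw [Finset.mul_sum, Finset.mul_sum, Finset.mul_sum, Finset.mul_sum, Finset.mul_sum]
  apply Finset.sum_le_sum
  intro k hk
  obtain ⟨hk1, hk2⟩ := Finset.mem_Icc.1 hk
  obtain ⟨n, hn⟩ := Int.eq_ofNat_of_zero_le (sub_nonneg.2 hk2)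
  obtain ⟨i, hi⟩ := Int.eq_ofNat_of_zero_le (sub_nonneg.2 hk1)
  have hpk : p = k + n := by omega
  have hqk : q = k - i := by omega
  have e2 : k + d + 9 = (i : ℤ) := by omega
  have e3 : p - k = (n : ℤ) := by omega
  rw [e2, e3, H_nat, H_nat]
  have hμk := mu_le (μ p) (μ k) k n (hμ0 p) (hμ k p hk2) (by rw [← hpk]; exact hμp)
  have hpq : (p : ℝ) - q + 1 ≤ ((i : ℝ) + 1) * ((n : ℝ) + 1) := by
    have h6 : (p : ℝ) = k + n := by rw [hpk]; push_cast; ring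
    have h7 : (q : ℝ) = k - i := by rw [hqk]; push_cast; ring
    rw [h6, h7]
    have h8 : (0 : ℝ) ≤ (i : ℝ) * n := by positivity
    linarith
  have hpq0 : 0 ≤ (p : ℝ) - q + 1 := by
    have h6 : (q : ℝ) ≤ p := by exact_mod_cast hqp
    linarith
  have h2q : (2 : ℝ) ^ q * (2 : ℝ) ^ (-k) = (1 / 2) ^ i := by
    rw [← zpow_add₀ (by norm_num : (2 : ℝ) ≠ 0), hqk]
    have h6 : k - (i : ℤ) + -k = -(i : ℤ) := by ring
    rw [h6, zpow_neg, zpow_natCast, one_div, inv_pow]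
  have hβ2 : 0 ≤ β k ^ 2 := sq_nonneg _
  have hs : 0 ≤ √(μ k * (2 : ℝ) ^ k) := Real.sqrt_nonneg _
  have hq0 : (0 : ℝ) < (2 : ℝ) ^ q := zpow_pos (by norm_num) _
  have hk0 : (0 : ℝ) < (2 : ℝ) ^ (-k) := zpow_pos (by norm_num) _
  -- the product of the two masses
  have h6 : μ p * (ν / (4 : ℝ) ^ d) ≤
      (2 * (2 : ℝ) ^ (-k) * (3 / 4) ^ n * √(μ k * (2 : ℝ) ^ k)) * (768 * 512 * (2 : ℝ) ^ q) :=
    mul_le_mul hμk hν' hν0' (by positivity)
  have h7 : μ p * (ν / (4 : ℝ) ^ d) * ((p : ℝ) - q + 1) ≤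
      (2 * (2 : ℝ) ^ (-k) * (3 / 4) ^ n * √(μ k * (2 : ℝ) ^ k)) * (768 * 512 * (2 : ℝ) ^ q) *
        (((i : ℝ) + 1) * ((n : ℝ) + 1)) :=
    mul_le_mul h6 hpq hpq0 (by positivity)
  calc μ p * (ν / (4 : ℝ) ^ d) * (4 / 3 * (250000 ^ 2 * (((p : ℝ) - q + 1) * β k ^ 2)))
      = 4 / 3 * 250000 ^ 2 * β k ^ 2 * (μ p * (ν / (4 : ℝ) ^ d) * ((p : ℝ) - q + 1)) := by ring
    _ ≤ 4 / 3 * 250000 ^ 2 * β k ^ 2 *
        ((2 * (2 : ℝ) ^ (-k) * (3 / 4) ^ n * √(μ k * (2 : ℝ) ^ k)) * (768 * 512 * (2 : ℝ) ^ q) *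
        (((i : ℝ) + 1) * ((n : ℝ) + 1))) :=
        mul_le_mul_of_nonneg_left h7 (by positivity)
    _ = C1 * (β k ^ 2 * √(μ k * (2 : ℝ) ^ k) *
        (((i : ℝ) + 1) * ((2 : ℝ) ^ q * (2 : ℝ) ^ (-k)) * (((n : ℝ) + 1) * (3 / 4) ^ n))) := by
        unfold C1
        ring
    _ = C1 * (β k ^ 2 * √(μ k * (2 : ℝ) ^ k) *
        (((i : ℝ) + 1) * (1 / 2) ^ i * (((n : ℝ) + 1) * (3 / 4) ^ n))) := by rw [h2q]

/-- The sum over all pairs of scales and resolutions, for one point. -/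
theorem one_point (J : ℕ) (β μ ν : ℤ → ℝ) (B0 B1 : ℤ) (hβ : ∀ k, 0 ≤ β k) (hμ0 : ∀ k, 0 ≤ μ k)
    (hμ : ∀ k l, k ≤ l → μ l ≤ μ k)
    (hμp : ∀ k, k ≤ -B0 - 4 → μ k ≤ 3 / 2 * (2 : ℝ) ^ (-k))
    (hν0 : ∀ k, 0 ≤ ν k) (hν : ∀ k, k ≤ -B0 - 4 → ν k ≤ 3 / 2 * (2 : ℝ) ^ (-k)) :
    ∑ d ∈ Finset.Icc B0 B1, ∑ b ∈ Finset.Icc B0 d, ∑ j ∈ Finset.range J,
      (1 / 4 : ℝ) ^ j / (4 : ℝ) ^ d *
      (if (1 / 2 : ℝ) ^ j < 250000 * ∑ k ∈ Finset.Icc (-d - 9) (-b - 4), β k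
        then μ (-b - 4) * ν (-d - 9) else 0) ≤
    C1 * 64 * ∑ k ∈ Finset.Icc (-B1 - 9) (-B0 - 4), β k ^ 2 * √(μ k * (2 : ℝ) ^ k) := by
  have hH1 : ∀ z, 0 ≤ H (1 / 2) z := fun z => H_nonneg (by norm_num) z
  have hH2 : ∀ z, 0 ≤ H (3 / 4) z := fun z => H_nonneg (by norm_num) z
  have hg : ∀ k, 0 ≤ β k ^ 2 * √(μ k * (2 : ℝ) ^ k) := fun k =>
    mul_nonneg (sq_nonneg _) (Real.sqrt_nonneg _)
  calc ∑ d ∈ Finset.Icc B0 B1, ∑ b ∈ Finset.Icc B0 d, ∑ j ∈ Finset.range J,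
      (1 / 4 : ℝ) ^ j / (4 : ℝ) ^ d *
      (if (1 / 2 : ℝ) ^ j < 250000 * ∑ k ∈ Finset.Icc (-d - 9) (-b - 4), β k
        then μ (-b - 4) * ν (-d - 9) else 0)
      ≤ ∑ d ∈ Finset.Icc B0 B1, ∑ b ∈ Finset.Icc B0 d,
        C1 * ∑ k ∈ Finset.Icc (-B1 - 9) (-B0 - 4), β k ^ 2 * √(μ k * (2 : ℝ) ^ k) *
          (H (1 / 2) (k + d + 9) * H (3 / 4) (-b - 4 - k)) := by
        apply Finset.sum_le_sum
        intro d hd
        apply Finset.sum_le_sum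
        intro b hb
        obtain ⟨hd1, hd2⟩ := Finset.mem_Icc.1 hd
        obtain ⟨hb1, hb2⟩ := Finset.mem_Icc.1 hb
        refine (one_pair J β μ b d (ν (-d - 9)) hβ hμ0 hμ (hμp _ (by omega)) (hν0 _)
          (hν _ (by omega)) hb2).trans ?_
        apply mul_le_mul_of_nonneg_left _ C1_pos.le
        apply Finset.sum_le_sum_of_subset_of_nonneg
        · intro k hk
          rw [Finset.mem_Icc] at hk ⊢
          constructor <;> omega
        · intro k _ _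
          exact mul_nonneg (hg k) (mul_nonneg (hH1 _) (hH2 _))
    _ = C1 * ∑ d ∈ Finset.Icc B0 B1, ∑ k ∈ Finset.Icc (-B1 - 9) (-B0 - 4),
        β k ^ 2 * √(μ k * (2 : ℝ) ^ k) * H (1 / 2) (k + d + 9) *
          ∑ b ∈ Finset.Icc B0 d, H (3 / 4) (-b - 4 - k) := by
        rw [Finset.mul_sum]
        apply Finset.sum_congr rfl
        intro d _
        rw [← Finset.mul_sum, Finset.sum_comm]
        congr 1
        apply Finset.sum_congr rfl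
        intro k _
        rw [Finset.mul_sum]
        apply Finset.sum_congr rfl
        intro b _
        ring
    _ ≤ C1 * ∑ d ∈ Finset.Icc B0 B1, ∑ k ∈ Finset.Icc (-B1 - 9) (-B0 - 4),
        β k ^ 2 * √(μ k * (2 : ℝ) ^ k) * H (1 / 2) (k + d + 9) * 16 := by
        apply mul_le_mul_of_nonneg_left _ C1_pos.le
        apply Finset.sum_le_sum
        intro d _
        apply Finset.sum_le_sum
        intro k _
        apply mul_le_mul_of_nonneg_left _ (mul_nonneg (hg k) (hH1 _))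
        exact sum_H (3 / 4) 16 (by norm_num) sum_quart (Finset.Icc B0 d) (fun b => -b - 4 - k)
          (fun x y h => by simp only at h; omega)
    _ = C1 * ∑ k ∈ Finset.Icc (-B1 - 9) (-B0 - 4), 16 * (β k ^ 2 * √(μ k * (2 : ℝ) ^ k)) *
          ∑ d ∈ Finset.Icc B0 B1, H (1 / 2) (k + d + 9) := by
        rw [Finset.sum_comm]
        congr 1
        apply Finset.sum_congr rfl
        intro k _
        rw [Finset.mul_sum]
        apply Finset.sum_congr rfl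
        intro d _
        ring
    _ ≤ C1 * ∑ k ∈ Finset.Icc (-B1 - 9) (-B0 - 4), 16 * (β k ^ 2 * √(μ k * (2 : ℝ) ^ k)) * 4 := by
        apply mul_le_mul_of_nonneg_left _ C1_pos.le
        apply Finset.sum_le_sum
        intro k _
        apply mul_le_mul_of_nonneg_left _ (mul_nonneg (by norm_num) (hg k))
        exact sum_H (1 / 2) 4 (by norm_num) sum_half (Finset.Icc B0 B1) (fun d => k + d + 9)
          (fun x y h => by simp only at h; omega)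
    _ = C1 * 64 * ∑ k ∈ Finset.Icc (-B1 - 9) (-B0 - 4), β k ^ 2 * √(μ k * (2 : ℝ) ^ k) := by
        rw [mul_assoc, Finset.mul_sum (Finset.Icc (-B1 - 9) (-B0 - 4))
          (fun k => β k ^ 2 * √(μ k * (2 : ℝ) ^ k)) 64]
        congr 1
        apply Finset.sum_congr rfl
        intro k _
        ring

open Classical in
theorem Wx_eq {N : ℕ} (X : Finset ℂ) (m : ℂ → ℝ) (Γ : Fin N → Set ℂ) (lab : ℂ → Fin N)
    (K : ℕ) (b d : ℤ) (j : ℕ) (ω' ω : Bool × Bool) :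
    Wx X m Γ lab K b d j ω' ω = ∑ w ∈ X, m w * ((1 / 4 : ℝ) ^ j / (4 : ℝ) ^ d *
      (if (1 / 2 : ℝ) ^ j < 250000 * ∑ k ∈ Finset.Icc (-d - 9) (-b - 4), al Γ lab (sh K ω') k w
        then Mc X m (cell (sh K ω') (-b - 4)) w * Mc X m (cell (sh K ω) (-d - 9)) w
        else 0)) := by
  unfold Wx
  rw [Finset.mul_sum, Finset.sum_filter]
  apply Finset.sum_congr rfl
  intro w _
  by_cases h : exw Γ lab (sh K ω') b d j w
  · rw [if_pos h]
    unfold exw at h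
    rw [if_pos h]
    ring
  · rw [if_neg h]
    unfold exw at h
    rw [if_neg h]
    ring

end EXS

open EXS in
theorem EXS_thm : ANL.Stmt_CELL → Stmt_STRIP → Stmt_EXS := by
  classical
  intro hC hS
  refine ⟨4 * (C1 * 64), by have := C1_pos; positivity, ?_⟩
  intro N lab Γ X m ε K hε hm hG B0 B1 J hB
  have hβ : ∀ (u : ℂ) (w : ℂ) (k : ℤ), 0 ≤ al Γ lab u k w := fun u w k => hS.1 _ _ _ _
  have hmass : ∀ (u : ℂ) (w : ℂ) (k : ℤ), k ≤ -B0 - 4 →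
      Mc X m (cell u k) w ≤ 3 / 2 * (2 : ℝ) ^ (-k) := by
    intro u w k hk
    apply cell_mass hC X m ε hG u k _ w
    have h1 : (2 : ℝ) ^ (B0 + 4) ≤ (2 : ℝ) ^ (-k) :=
      zpow_le_zpow_right₀ (by norm_num) (by omega)
    have h2 : (2 : ℝ) ^ (B0 + 4) = (2 : ℝ) ^ B0 * 16 := by
      rw [zpow_add₀ (by norm_num : (2 : ℝ) ≠ 0)]
      norm_num
    have h3 : (0 : ℝ) < (2 : ℝ) ^ B0 := zpow_pos (by norm_num) _
    rw [h2] at h1
    linarith
  rw [swapA (t := Finset.univ)]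
  have h1 : ∀ ω' : Bool × Bool,
      ∑ d ∈ Finset.Icc B0 B1, ∑ b ∈ Finset.Icc B0 d, ∑ j ∈ Finset.range J,
        ∑ ω : Bool × Bool, Wx X m Γ lab K b d j ω' ω ≤
      4 * (C1 * 64) * TH X m Γ lab (sh K ω') (-B1 - 9) (-B0 - 4) := by
    intro ω'
    rw [swapA (t := Finset.univ)]
    have h2 : ∀ ω : Bool × Bool,
        ∑ d ∈ Finset.Icc B0 B1, ∑ b ∈ Finset.Icc B0 d, ∑ j ∈ Finset.range J,
          Wx X m Γ lab K b d j ω' ω ≤
        C1 * 64 * TH X m Γ lab (sh K ω') (-B1 - 9) (-B0 - 4) := by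
      intro ω
      have h3 : ∑ d ∈ Finset.Icc B0 B1, ∑ b ∈ Finset.Icc B0 d, ∑ j ∈ Finset.range J,
          Wx X m Γ lab K b d j ω' ω =
          ∑ w ∈ X, m w * ∑ d ∈ Finset.Icc B0 B1, ∑ b ∈ Finset.Icc B0 d,
            ∑ j ∈ Finset.range J, (1 / 4 : ℝ) ^ j / (4 : ℝ) ^ d *
            (if (1 / 2 : ℝ) ^ j < 250000 *
                ∑ k ∈ Finset.Icc (-d - 9) (-b - 4), al Γ lab (sh K ω') k w
              then Mc X m (cell (sh K ω') (-b - 4)) w * Mc X m (cell (sh K ω) (-d - 9)) w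
              else 0) := by
        simp only [Wx_eq]
        rw [swapA]
        apply Finset.sum_congr rfl
        intro w _
        simp only [Finset.mul_sum]
      rw [h3]
      unfold TH
      rw [Finset.mul_sum]
      apply Finset.sum_le_sum
      intro w hw
      have h4 := one_point J (fun k => al Γ lab (sh K ω') k w)
        (fun k => Mc X m (cell (sh K ω') k) w) (fun k => Mc X m (cell (sh K ω) k) w) B0 B1
        (hβ _ _) (fun k => Mc_nonneg X m hm _ _)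
        (fun k l hkl => Mc_mono hC X m hm _ k l hkl w) (hmass _ _)
        (fun k => Mc_nonneg X m hm _ _) (hmass _ _)
      have h5 := mul_le_mul_of_nonneg_left h4 (hm w hw).le
      refine h5.trans (le_of_eq ?_)
      ring
    calc ∑ ω : Bool × Bool, ∑ d ∈ Finset.Icc B0 B1, ∑ b ∈ Finset.Icc B0 d,
          ∑ j ∈ Finset.range J, Wx X m Γ lab K b d j ω' ω
        ≤ ∑ _ω : Bool × Bool, C1 * 64 * TH X m Γ lab (sh K ω') (-B1 - 9) (-B0 - 4) :=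
          Finset.sum_le_sum fun ω _ => h2 ω
      _ = 4 * (C1 * 64) * TH X m Γ lab (sh K ω') (-B1 - 9) (-B0 - 4) := by
          rw [Finset.sum_const, Finset.card_univ]
          simp only [Fintype.card_prod, Fintype.card_bool, nsmul_eq_mul]
          push_cast
          ring
  calc ∑ ω' : Bool × Bool, ∑ d ∈ Finset.Icc B0 B1, ∑ b ∈ Finset.Icc B0 d,
        ∑ j ∈ Finset.range J, ∑ ω : Bool × Bool, Wx X m Γ lab K b d j ω' ω
      ≤ ∑ ω' : Bool × Bool, 4 * (C1 * 64) * TH X m Γ lab (sh K ω') (-B1 - 9) (-B0 - 4) :=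
        Finset.sum_le_sum fun ω' _ => h1 ω'
    _ = 4 * (C1 * 64) * ∑ ω' : Bool × Bool, TH X m Γ lab (sh K ω') (-B1 - 9) (-B0 - 4) := by
        rw [Finset.mul_sum]

end Pool.Agent.ANG
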