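import Pool.Agent.ANG.Stmts
import Pool.Agent.ANL.CURV
import Pool.Agent.ANL.TEST
import Pool.Agent.ANL.TSUM
import Pool.Agent.ANL.Final

/-!
# Analytic capacity and few curves: the main theorem from the module statements (MP_98e313_an)
-/

set_option autoImplicit false

namespace Pool.Agent.ANG

open MeasureTheory Set Pool.Agent.ANL

/-- The assumptions on the curves. -/
def Good (M : ℝ) (G : Set ℂ) : Prop := IsPreconnected G ∧ Pack 0 M G

open CURV in
/-- The curvature of a measure of linear growth on `N` curves. -/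
theorem curv (hCell : Stmt_CELL) (hT : Stmt_TSUM) (hF : Stmt_FSUM) (hE : Stmt_EXS)
    (hC : Stmt_CARL) (hGr : Stmt_GRID) (M : ℝ) : ∃ C : ℝ, 0 < C ∧ ∀ (N : ℕ) (lab : ℂ → Fin N)
      (Γ : Fin N → Set ℂ) (X : Finset ℂ) (m : ℂ → ℝ) (ε : ℝ), 1 ≤ N → 0 < ε → Grow X m ε →
      (∀ i, Good M (Γ i)) → (∀ x ∈ X, x ∈ Γ (lab x)) →
      T3 X m ε ≤ C * (1 + Real.log N) * ∑ x ∈ X, m x := by
  classical
  obtain ⟨C0, hC0, hF⟩ := hF
  obtain ⟨C1, hC1, hE⟩ := hE
  obtain ⟨C2, hC2, hC⟩ := hC (144 * M)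
  refine ⟨3 * (16 * 24 * 768 * (C0 + C1 * (4 * C2))), by positivity, ?_⟩
  intro N lab Γ X m ε hN hε hG hΓ hO
  obtain ⟨hm, hgr⟩ := hG
  set Y : Finset ℂ := X.filter (fun x => 0 < m x) with hY
  have hYX : Y ⊆ X := Finset.filter_subset _ _
  have hz : ∀ x ∈ X, x ∉ Y → m x = 0 := by
    intro x hx hx'
    by_contra hne
    exact hx' (Finset.mem_filter.2 ⟨hx, lt_of_le_of_ne (hm x hx) (Ne.symm hne)⟩)
  have hpos : ∀ x ∈ Y, 0 < m x := fun x hx => (Finset.mem_filter.1 hx).2
  have hsum : ∑ x ∈ Y, m x = ∑ x ∈ X, m x := Finset.sum_subset hYX hz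
  have hT3 : T3 X m ε = T3 Y m ε := by
    rw [T3_eq, T3_eq]
    refine sum3 X Y hYX _ ?_ ?_ ?_
    · intro x hx hx' y z
      have := hz x hx hx'
      simp only [g, this, zero_mul, ite_self]
    · intro y hy hy' x z
      have := hz y hy hy'
      simp only [g, this, zero_mul, mul_zero, ite_self]
    · intro z hz1 hz' x y
      have := hz z hz1 hz'
      simp only [g, this, zero_mul, mul_zero, ite_self]
  have hG' : Grow Y m ε := by
    refine ⟨fun x hx => (hpos x hx).le, fun z r hr => le_trans ?_ (hgr z r hr)⟩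
    refine Finset.sum_le_sum_of_subset_of_nonneg ?_ ?_
    · exact Finset.filter_subset_filter _ hYX
    · intro x hx _
      exact hm x (Finset.mem_filter.1 hx).1
  have hO' : ∀ x ∈ Y, x ∈ Γ (lab x) := fun x hx => hO x (hYX hx)
  obtain ⟨K, hK⟩ := exists_K Y
  obtain ⟨B0, B1, J, hB0, hb⟩ := hT N lab Γ Y m ε K hε hpos hG' (fun i => (hΓ i).1) hO' hK
  have hf := hF N lab (fun _ => 0) Y m K hN (fun _ => le_rfl) hpos B0 B1 J
  have he := hE N lab Γ Y m ε K hε hpos hG' B0 B1 J hB0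
  set S : ℝ := ∑ x ∈ Y, m x with hS
  have hth : ∑ ω' : Bool × Bool, TH Y m Γ lab (sh K ω') (-B1 - 9) (-B0 - 4) ≤
      4 * (C2 * (1 + Real.log N) * S) := by
    have h1 : ∀ ω' : Bool × Bool, TH Y m Γ lab (sh K ω') (-B1 - 9) (-B0 - 4) ≤
        C2 * (1 + Real.log N) * S := by
      intro ω'
      refine hC N lab Γ Y m (sh K ω') (-B1 - 9) (-B0 - 4) hN hpos hO'
        (fun i => hGr M (Γ i) (sh K ω') (hΓ i).2) ?_
      intro k hk w _
      have hk2 : k ≤ -B0 - 4 := (Finset.mem_Icc.mp hk).2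
      have h2 : (2 : ℝ) ^ (B0 + 4) ≤ (2 : ℝ) ^ (-k) :=
        zpow_le_zpow_right₀ (by norm_num) (by omega)
      have h3 : (2 : ℝ) ^ (B0 + 4) = 16 * (2 : ℝ) ^ B0 := by
        rw [zpow_add₀ (by norm_num : (2 : ℝ) ≠ 0)]
        norm_num
        ring
      have h4 : (0 : ℝ) < (2 : ℝ) ^ (-k) := zpow_pos (by norm_num) _
      have h5 : (0 : ℝ) < (2 : ℝ) ^ B0 := zpow_pos (by norm_num) _
      exact TSUM.cell_mass hCell Y m ε hG' _ _ _ (by linarith) (by linarith) w
    refine (Finset.sum_le_sum fun ω' _ => h1 ω').trans (le_of_eq ?_)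
    rw [Finset.sum_const, Finset.card_univ]
    simp
  have htot : ∑ d ∈ Finset.Icc B0 B1, ∑ b ∈ Finset.Icc B0 d, ∑ j ∈ Finset.range J,
      ∑ ω' : Bool × Bool, ∑ ω : Bool × Bool,
        (Wt Y m lab (fun _ => 0) K b d j ω' ω + Wx Y m Γ lab K b d j ω' ω) ≤
      (C0 + C1 * (4 * C2)) * (1 + Real.log N) * S := by
    simp only [Finset.sum_add_distrib]
    have h1 := mul_le_mul_of_nonneg_left hth hC1.le
    calc _ ≤ C0 * (1 + Real.log N) * S + C1 * (4 * (C2 * (1 + Real.log N) * S)) :=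
          add_le_add hf (he.trans h1)
      _ = _ := by ring
  rw [hT3, ← hsum]
  calc T3 Y m ε ≤ 3 * T1 Y m ε := T3_le Y m ε fun x hx => (hpos x hx).le
    _ ≤ 3 * (16 * 24 * 768 * ((C0 + C1 * (4 * C2)) * (1 + Real.log N) * S)) := by
        refine mul_le_mul_of_nonneg_left (hb.trans ?_) (by norm_num)
        exact mul_le_mul_of_nonneg_left htot (by norm_num)
    _ = 3 * (16 * 24 * 768 * (C0 + C1 * (4 * C2))) * (1 + Real.log N) * S := by ring

/-- The testing inequality. -/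
def Test (M : ℝ) : Prop := ∃ C : ℝ, 0 < C ∧ ∀ (N : ℕ) (lab : ℂ → Fin N) (Γ : Fin N → Set ℂ)
  (X : Finset ℂ) (w : ℂ → ℝ) (ε : ℝ), 1 ≤ N → 0 < ε → Grow X w ε →
  (∀ i, Good M (Γ i)) → (∀ x ∈ X, x ∈ Γ (lab x)) →
  ∑ x ∈ X, w x * ‖Cw X w ε x‖ ^ 2 ≤ C * (1 + Real.log N) * ∑ x ∈ X, w x

open TEST in
theorem test (M : ℝ) (hCu : ∃ C : ℝ, 0 < C ∧ ∀ (N : ℕ) (lab : ℂ → Fin N)
      (Γ : Fin N → Set ℂ) (X : Finset ℂ) (m : ℂ → ℝ) (ε : ℝ), 1 ≤ N → 0 < ε → Grow X m ε →
      (∀ i, Good M (Γ i)) → (∀ x ∈ X, x ∈ Γ (lab x)) →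
      T3 X m ε ≤ C * (1 + Real.log N) * ∑ x ∈ X, m x)
    (hS : Stmt_SYM) (hT : Stmt_TAIL) : Test M := by
  classical
  obtain ⟨C, hC, hcurv⟩ := hCu
  refine ⟨C / 3 + 18, by positivity, ?_⟩
  intro N lab Γ X w ε hN hε hG hΓ hO
  have hw := hG.1
  have hW : 0 ≤ ∑ x ∈ X, w x := Finset.sum_nonneg hw
  have hlog : 0 ≤ Real.log N := Real.log_nonneg (by exact_mod_cast hN)
  have hT3 := hcurv N lab Γ X w ε hN hε hG hΓ hO
  have hA : ∑ x ∈ X, w x * ‖Ct X w ε x‖ ^ 2 ≤ T3 X w ε / 6 + 8 * ∑ x ∈ X, w x := by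
    have e1 : ∀ x ∈ X, w x * ‖Ct X w ε x‖ ^ 2 ≤
        (∑ y ∈ X, ∑ z ∈ X, (if ε ≤ ‖x - y‖ ∧ ε ≤ ‖y - z‖ ∧ ε ≤ ‖z - x‖ then
          w x * w y * w z * (1 / ((x - y) * (starRingEnd ℂ) (x - z))).re else 0)) +
        8 * w x := by
      intro x hx
      rw [sq_expand, Finset.mul_sum]
      have e2 : ∀ y ∈ X, w x * ∑ z ∈ X, (if ε ≤ ‖x - y‖ ∧ ε ≤ ‖x - z‖ then
          w y * w z * (1 / ((x - y) * (starRingEnd ℂ) (x - z))).re else 0) ≤
          (∑ z ∈ X, (if ε ≤ ‖x - y‖ ∧ ε ≤ ‖y - z‖ ∧ ε ≤ ‖z - x‖ then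
            w x * w y * w z * (1 / ((x - y) * (starRingEnd ℂ) (x - z))).re else 0)) +
          w x * ∑ z ∈ X, ((if ε ≤ ‖y - x‖ then w y / ‖y - x‖ ^ 2 else 0) *
            (2 * (if ‖y - z‖ < ε then w z else 0))) := by
        intro y hy
        rw [Finset.mul_sum, Finset.mul_sum, ← Finset.sum_add_distrib]
        exact Finset.sum_le_sum fun z hz => pointwise hε hw hx hy hz
      refine (Finset.sum_le_sum e2).trans ?_
      rw [Finset.sum_add_distrib, ← Finset.mul_sum]
      have e3 := mul_le_mul_of_nonneg_left (inner_bound hT hε hG x) (hw x hx)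
      linarith
    refine (Finset.sum_le_sum e1).trans ?_
    rw [Finset.sum_add_distrib, ← Finset.mul_sum, hS X w ε hε]
  have hB : ∑ x ∈ X, w x * ‖Cw X w ε x‖ ^ 2 ≤
      2 * ∑ x ∈ X, w x * ‖Ct X w ε x‖ ^ 2 + 2 * ∑ x ∈ X, w x := by
    rw [Finset.mul_sum, Finset.mul_sum, ← Finset.sum_add_distrib]
    refine Finset.sum_le_sum fun x hx => ?_
    have h1 := diff_le hε hG x
    have h2 : ‖Cw X w ε x‖ ≤ ‖Ct X w ε x‖ + 1 := by
      have := norm_add_le (Cw X w ε x - Ct X w ε x) (Ct X w ε x)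
      rw [sub_add_cancel] at this
      linarith
    have h3 : ‖Cw X w ε x‖ ^ 2 ≤ 2 * ‖Ct X w ε x‖ ^ 2 + 2 := by
      have h4 : ‖Cw X w ε x‖ ^ 2 ≤ (‖Ct X w ε x‖ + 1) ^ 2 :=
        pow_le_pow_left₀ (norm_nonneg _) h2 2
      nlinarith [sq_nonneg (‖Ct X w ε x‖ - 1)]
    have := mul_le_mul_of_nonneg_left h3 (hw x hx)
    linarith
  have hfin : (18 : ℝ) * ∑ x ∈ X, w x ≤ 18 * (1 + Real.log N) * ∑ x ∈ X, w x := by
    nlinarith [mul_nonneg hlog hW]
  calc ∑ x ∈ X, w x * ‖Cw X w ε x‖ ^ 2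
      ≤ T3 X w ε / 3 + 18 * ∑ x ∈ X, w x := by linarith
    _ ≤ C * (1 + Real.log N) * (∑ x ∈ X, w x) / 3 +
        18 * (1 + Real.log N) * ∑ x ∈ X, w x := by linarith
    _ = (C / 3 + 18) * (1 + Real.log N) * ∑ x ∈ X, w x := by ring

/-- The core: capacity of a set on `N` pieces. -/
theorem core (B : ℝ) (hT : Test B) (hM : Stmt_MASS) (hX : Stmt_MAXM) (hL : Stmt_LIM)
    (hF : Stmt_FROST) : ∃ C : ℝ, 0 < C ∧ ∀ (N : ℕ), 1 ≤ N → ∀ (F : Set ℂ) (G : Fin N → Set ℂ),
      IsCompact F → F ⊆ ⋃ i, G i → (∀ i, Good B (G i)) →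
      ∀ η : ℝ, (∀ R, Cov F R → η ≤ R) → η ≤ C * √(1 + Real.log N) * FCC.gam F := by
  obtain ⟨C0, hC0, hT⟩ := hT
  refine ⟨192 * (√(192 * C0) + 8), by positivity, ?_⟩
  intro N hN F G hFc hFG hG η hη
  have hN0 : 0 < N := hN
  have hlog : 0 ≤ Real.log N := Real.log_natCast_nonneg N
  set M : ℝ := C0 * (1 + Real.log N) with hMdef
  have hMpos : 0 < M := by positivity
  set B : ℝ := √(192 * M) + 8 with hB
  have hBpos : 0 < B := by positivity
  obtain ⟨R1, hR1⟩ := hFc.isBounded.subset_closedBall (0 : ℂ)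
  set W : ℝ := max R1 1 with hW
  have key : (η / 24 / 8) / B ≤ FCC.gam F := by
    apply hL F (η / 24 / 8) W B hFc hBpos
    intro δ hδ
    set ε : ℝ := min δ 1 with hε
    have hεpos : 0 < ε := lt_min hδ one_pos
    obtain ⟨X, m, hXF, hgrow, hmass⟩ := hF F η hFc hη ε hεpos
    -- labels
    have hex : ∀ x : ℂ, ∃ i : Fin N, x ∈ F → x ∈ G i := by
      intro x
      by_cases hx : x ∈ F
      · obtain ⟨i, hi⟩ := mem_iUnion.mp (hFG hx)
        exact ⟨i, fun _ => hi⟩
      · exact ⟨⟨0, hN0⟩, fun h => absurd h hx⟩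
    choose lab hlab using hex
    have hOn : ∀ x ∈ X, x ∈ G (lab x) := fun x hx => hlab x (hXF x hx)
    -- the density
    have hker : ∀ z : ℂ, ker ε (-z) = - ker ε z := by
      intro z
      unfold ker
      rw [norm_neg, map_neg, neg_div]
    obtain ⟨h, hh, hhm, hhC⟩ := hM X (fun i => m i) (fun i j => ker ε ((i : ℂ) - j)) M hMpos
      (fun i => hgrow.1 i i.2) (fun i j => by
        rw [← hker, neg_sub]) (by
        intro g hg
        classical
        set w : ℂ → ℝ := fun x => if hx : x ∈ X then m x * g ⟨x, hx⟩ else 0 with hw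
        have hw0 : ∀ x ∈ X, 0 ≤ w x := by
          intro x hx
          simp only [hw, dif_pos hx]
          exact mul_nonneg (hgrow.1 x hx) (hg _).1
        have hw1 : ∀ x ∈ X, w x ≤ m x := by
          intro x hx
          simp only [hw, dif_pos hx]
          exact mul_le_of_le_one_right (hgrow.1 x hx) (hg _).2
        have := hT N lab G X w ε hN hεpos (hgrow.sub hw0 hw1) hG hOn
        have e1 : ∀ i : X, w i = m i * g i := by
          intro i
          simp [hw]
        have e2 : ∑ x ∈ X, w x = ∑ i : X, m i * g i := by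
          rw [← Finset.sum_coe_sort X w]
          exact Finset.sum_congr rfl fun i _ => e1 i
        have e3 : ∀ x : ℂ, Cw X w ε x = ∑ j : X, ((m j * g j : ℝ) : ℂ) * ker ε (x - j) := by
          intro x
          unfold Cw
          rw [← Finset.sum_coe_sort X (fun y => (w y : ℂ) * ker ε (x - y))]
          exact Finset.sum_congr rfl fun i _ => by rw [e1 i]
        rw [e2, ← Finset.sum_coe_sort X (fun x => w x * ‖Cw X w ε x‖ ^ 2)] at this
        refine le_trans (le_of_eq ?_) this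
        refine Finset.sum_congr rfl fun i _ => ?_
        rw [e1 i, e3])
    classical
    set w : ℂ → ℝ := fun x => if hx : x ∈ X then m x * h ⟨x, hx⟩ else 0 with hw
    have hw0 : ∀ x ∈ X, 0 ≤ w x := by
      intro x hx
      simp only [hw, dif_pos hx]
      exact mul_nonneg (hgrow.1 x hx) (hh _).1
    have hw1 : ∀ x ∈ X, w x ≤ m x := by
      intro x hx
      simp only [hw, dif_pos hx]
      exact mul_le_of_le_one_right (hgrow.1 x hx) ((hh _).2.trans (by norm_num))
    have e1 : ∀ i : X, w i = m i * h i := by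
      intro i
      simp [hw]
    have e2 : ∑ x ∈ X, w x = ∑ i : X, m i * h i := by
      rw [← Finset.sum_coe_sort X w]
      exact Finset.sum_congr rfl fun i _ => e1 i
    have e3 : ∀ x : ℂ, Cw X w ε x = ∑ j : X, ((m j * h j : ℝ) : ℂ) * ker ε (x - j) := by
      intro x
      unfold Cw
      rw [← Finset.sum_coe_sort X (fun y => (w y : ℂ) * ker ε (x - y))]
      exact Finset.sum_congr rfl fun i _ => by rw [e1 i]
    refine ⟨X, w, hXF, hw0, ?_, ?_, ?_⟩
    · rw [e2]
      refine le_trans ?_ hhm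
      rw [Finset.sum_coe_sort X m]
      linarith
    · have h1 := hgrow.2 0 W ((min_le_right _ _).trans (le_max_right _ _))
      have h2 : X.filter (fun x => ‖x - 0‖ ≤ W) = X := by
        apply Finset.filter_true_of_mem
        intro x hx
        have := hR1 (hXF x hx)
        rw [Metric.mem_closedBall, dist_zero_right] at this
        rw [sub_zero]
        exact this.trans (le_max_left _ _)
      rw [h2] at h1
      exact (Finset.sum_le_sum hw1).trans h1
    · intro z hz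
      apply hX X w ε (√(192 * M)) hεpos (Real.sqrt_nonneg _) (hgrow.sub hw0 hw1)
      · intro x hx hwx
        have hhx : 0 < h ⟨x, hx⟩ := by
          simp only [hw, dif_pos hx] at hwx
          by_contra hcon
          have : h ⟨x, hx⟩ = 0 := le_antisymm (not_lt.mp hcon) (hh _).1
          rw [this, mul_zero] at hwx
          exact lt_irrefl _ hwx
        have := hhC ⟨x, hx⟩ hhx
        rw [e3]
        exact Real.le_sqrt_of_sq_le this
      · intro x hx
        exact (min_le_left _ _).trans_lt (hz x (hXF x hx))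
  have hgam := gam_nonneg hFc
  rw [div_le_iff₀ hBpos] at key
  have hBle : B ≤ (√(192 * C0) + 8) * √(1 + Real.log N) := by
    have h1 : √(192 * M) = √(192 * C0) * √(1 + Real.log N) := by
      rw [hMdef, ← mul_assoc, Real.sqrt_mul (by positivity)]
    have h2 : 1 ≤ √(1 + Real.log N) := by
      rw [Real.one_le_sqrt]
      linarith
    rw [hB, h1]
    nlinarith [Real.sqrt_nonneg (192 * C0)]
  have h3 : FCC.gam F * B ≤ FCC.gam F * ((√(192 * C0) + 8) * √(1 + Real.log N)) :=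
    mul_le_mul_of_nonneg_left hBle hgam
  nlinarith

/-- Segments are flat. -/
lemma good_segment (hS : Stmt_STRIP) {B : ℝ} (hB : 0 ≤ B) (p q : ℂ) :
    Good B (segment ℝ p q) := by
  refine ⟨(convex_segment p q).isPreconnected, ?_⟩
  have hz : ∀ (u : ℂ) (k : ℤ) (P : ℤ × ℤ), bet (segment ℝ p q) u k P = 0 := by
    intro u k P
    refine le_antisymm ?_ (hS.1 _ _ _ _)
    by_cases hpq : p = q
    · subst hpq
      refine hS.2.2.2.1 _ u k P 0 p 1 le_rfl (by simp) ?_
      rintro z ⟨hz, -⟩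
      rw [segment_same, mem_singleton_iff] at hz
      subst hz
      simp [crs]
    · have hne : q - p ≠ 0 := sub_ne_zero.mpr (Ne.symm hpq)
      have hnorm : (‖q - p‖ : ℝ) ≠ 0 := norm_ne_zero_iff.mpr hne
      refine hS.2.2.2.1 _ u k P 0 p ((‖q - p‖⁻¹ : ℝ) • (q - p)) le_rfl ?_ ?_
      · rw [norm_smul, norm_inv, norm_norm, inv_mul_cancel₀ hnorm]
      · rintro z ⟨hz, -⟩
        rw [segment_eq_image'] at hz
        obtain ⟨c, -, rfl⟩ := hz
        simp [crs]
        ring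
  intro k₀ P₀ S _
  have h1 : ∀ Q ∈ S, bet (segment ℝ p q) 0 Q.1 Q.2 ^ 2 * (2 : ℝ) ^ (-Q.1) = 0 := by
    intro Q _
    rw [hz]
    simp
  rw [Finset.sum_eq_zero h1]
  positivity

/-- The main theorem. -/
theorem main (hS : Stmt_STRIP) (B : ℝ) (hB : 0 ≤ B) (hT : Test B) (hM : Stmt_MASS)
    (hX : Stmt_MAXM) (hL : Stmt_LIM) (hF : Stmt_FROST) (hC : Stmt_CHORD) (hV : Stmt_FAVC) :
    ∃ c : ℝ, 0 < c ∧ ∀ (N : ℕ), 1 ≤ N → ∀ (E E0 : Set ℂ) (G K : Fin N → Set ℂ),
      IsCompact E0 → (∀ i, IsCompact (K i)) → (∀ i, Convex ℝ (K i)) → E0 ⊆ ⋃ i, G i →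
      (∀ i, Good B (G i)) →
      E = E0 ∪ ⋃ i, K i →
      c * cont1 E ≤ √(1 + Real.log N) * FCC.gam E ∧
        c * FCC.Fav E ≤ √(1 + Real.log N) * FCC.gam E := by
  obtain ⟨C, hCpos, hcore⟩ := core B hT hM hX hL hF
  refine ⟨1 / (2 * C * (38 * Real.pi)), by positivity, ?_⟩
  intro N hN E E0 G K hE0 hKc hKv hE0G hG hE
  have hEc : IsCompact E := by
    rw [hE]
    exact hE0.union (isCompact_iUnion hKc)
  have hlog : 0 ≤ Real.log N := Real.log_natCast_nonneg N
  -- the empty set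
  rcases E.eq_empty_or_nonempty with hemp | ⟨e, he⟩
  · have hcov : Cov E 0 := ⟨0, Fin.elim0, Fin.elim0, fun i => i.elim0, by rw [hemp]; simp, by simp⟩
    obtain ⟨h1, h2⟩ := hV E 0 hcov
    have hg := gam_nonneg hEc
    have hc : 0 ≤ 1 / (2 * C * (38 * Real.pi)) := by positivity
    constructor
    · nlinarith [Real.sqrt_nonneg (1 + Real.log N), mul_nonneg (Real.sqrt_nonneg (1 + Real.log N)) hg]
    · nlinarith [Real.sqrt_nonneg (1 + Real.log N), mul_nonneg (Real.sqrt_nonneg (1 + Real.log N)) hg]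
  -- nonempty convex sets
  classical
  set K' : Fin N → Set ℂ := fun i => if (K i).Nonempty then K i else {e} with hK'
  have hK'c : ∀ i, IsCompact (K' i) := by
    intro i
    simp only [hK']
    split_ifs
    · exact hKc i
    · exact isCompact_singleton
  have hK'v : ∀ i, Convex ℝ (K' i) := by
    intro i
    simp only [hK']
    split_ifs
    · exact hKv i
    · exact convex_singleton e
  have hK'n : ∀ i, (K' i).Nonempty := by
    intro i
    simp only [hK']
    split_ifs with h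
    · exact h
    · exact singleton_nonempty e
  have hK'E : ∀ i, K' i ⊆ E := by
    intro i
    simp only [hK']
    split_ifs
    · rw [hE]
      exact (subset_iUnion K i).trans subset_union_right
    · exact singleton_subset_iff.mpr he
  have hEK' : E = E0 ∪ ⋃ i, K' i := by
    apply Subset.antisymm
    · nth_rewrite 1 [hE]
      apply union_subset_union_right
      apply iUnion_mono
      intro i x hx
      have : (K i).Nonempty := ⟨x, hx⟩
      simp only [hK', if_pos this]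
      exact hx
    · apply union_subset
      · rw [hE]
        exact subset_union_left
      · exact iUnion_subset hK'E
  -- diameters
  have hdiam : ∀ i, ∃ pq : ℂ × ℂ, pq.1 ∈ K' i ∧ pq.2 ∈ K' i ∧
      ∀ u ∈ K' i, ∀ v ∈ K' i, ‖u - v‖ ≤ ‖pq.1 - pq.2‖ := by
    intro i
    obtain ⟨a, ha⟩ := hK'n i
    obtain ⟨pq, hpq, hmax⟩ := ((hK'c i).prod (hK'c i)).exists_isMaxOn ⟨(a, a), ha, ha⟩
      (f := fun pq : ℂ × ℂ => ‖pq.1 - pq.2‖) (by fun_prop)
    refine ⟨pq, hpq.1, hpq.2, fun u hu v hv => ?_⟩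
    exact hmax (show (u, v) ∈ K' i ×ˢ K' i from ⟨hu, hv⟩)
  choose pq hp hq hpq using hdiam
  set F : Set ℂ := E0 ∪ ⋃ i, segment ℝ (pq i).1 (pq i).2 with hFdef
  have hFc : IsCompact F := hE0.union (isCompact_iUnion fun i => segment_compact _ _)
  have hFE : F ⊆ E := by
    rw [hEK']
    apply union_subset_union_right
    apply iUnion_mono
    intro i
    exact (hK'v i).segment_subset (hp i) (hq i)
  -- the pieces
  set G' : Fin (N + N) → Set ℂ := fun i =>
    Sum.elim G (fun i => segment ℝ (pq i).1 (pq i).2) (finSumFinEquiv.symm i) with hG'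
  have hFG' : F ⊆ ⋃ i, G' i := by
    intro x hx
    rcases hx with hx | hx
    · obtain ⟨i, hi⟩ := mem_iUnion.mp (hE0G hx)
      refine mem_iUnion.mpr ⟨finSumFinEquiv (Sum.inl i), ?_⟩
      simpa [hG'] using hi
    · obtain ⟨i, hi⟩ := mem_iUnion.mp hx
      refine mem_iUnion.mpr ⟨finSumFinEquiv (Sum.inr i), ?_⟩
      simpa only [hG', Equiv.symm_apply_apply, Sum.elim_inr] using hi
  have hG'p : ∀ i, Good B (G' i) := by
    intro i
    simp only [hG']
    generalize finSumFinEquiv.symm i = s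
    rcases s with j | j
    · exact hG j
    · exact good_segment hS hB _ _
  have hN2 : 1 ≤ N + N := by omega
  have hγ : FCC.gam F ≤ FCC.gam E := gam_mono hEc hFE
  have hg0 : 0 ≤ FCC.gam F := gam_nonneg hFc
  have hsq : √(1 + Real.log ((N + N : ℕ) : ℝ)) ≤ 2 * √(1 + Real.log N) := by
    have hNpos : (0 : ℝ) < N := by exact_mod_cast hN
    have h1 : Real.log ((N + N : ℕ) : ℝ) = Real.log 2 + Real.log N := by
      rw [← Real.log_mul (by norm_num) hNpos.ne']
      congr 1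
      push_cast
      ring
    have h2 : Real.log 2 < 1 := by
      have := Real.log_two_lt_d9
      linarith
    rw [Real.sqrt_le_left (by positivity), mul_pow, Real.sq_sqrt (by positivity), h1]
    linarith
  have hcovE : ∀ R, Cov F R → FCC.Fav E ≤ 2 * Real.pi * (19 * R) ∧ cont1 E ≤ 2 * (19 * R) := by
    intro R hR
    have := hC N E0 K' (fun i => (pq i).1) (fun i => (pq i).2)
      (fun i => ⟨hp i, hq i, hpq i⟩) R hR
    rw [← hEK'] at this
    exact hV E _ this
  have hfin : ∀ η : ℝ, (∀ R, Cov F R → η ≤ R) →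
      η ≤ 2 * C * (√(1 + Real.log N) * FCC.gam E) := by
    intro η hη
    have h1 := hcore (N + N) hN2 F G' hFc hFG' hG'p η hη
    have h2 : C * √(1 + Real.log ((N + N : ℕ) : ℝ)) * FCC.gam F ≤
        C * (2 * √(1 + Real.log N)) * FCC.gam E := by
      apply mul_le_mul _ hγ hg0 (by positivity)
      exact mul_le_mul_of_nonneg_left hsq hCpos.le
    calc η ≤ _ := h1
      _ ≤ _ := h2
      _ = 2 * C * (√(1 + Real.log N) * FCC.gam E) := by ring
  have hpi : (1 : ℝ) ≤ Real.pi := by linarith [Real.pi_gt_three]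
  constructor
  · have h1 := hfin (cont1 E / 38) (by
      intro R hR
      have := (hcovE R hR).2
      linarith)
    have hP : 0 ≤ √(1 + Real.log N) * FCC.gam E :=
      mul_nonneg (Real.sqrt_nonneg _) (gam_nonneg hEc)
    rw [one_div, inv_mul_le_iff₀ (by positivity)]
    have h2 : cont1 E ≤ 38 * (2 * C * (√(1 + Real.log N) * FCC.gam E)) := by linarith
    have h3 : (2 * C * 38) * (√(1 + Real.log N) * FCC.gam E) ≤
        (2 * C * 38) * (√(1 + Real.log N) * FCC.gam E) * Real.pi :=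
      le_mul_of_one_le_right (by positivity) hpi
    nlinarith
  · have h1 := hfin (FCC.Fav E / (38 * Real.pi)) (by
      intro R hR
      have := (hcovE R hR).1
      rw [div_le_iff₀ (by positivity)]
      linarith)
    rw [div_le_iff₀ (by positivity)] at h1
    rw [one_div, inv_mul_le_iff₀ (by positivity)]
    linarith

end Pool.Agent.ANG
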