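import Pool.Agent.ANG.Stmts

/-!
# Lipschitz graphs satisfy Jones' condition (MP_98e313_an, module GRA)
-/

set_option autoImplicit false

namespace Pool.Agent.ANG

open MeasureTheory Set Pool.Agent.ANL

namespace GRA

theorem mem_sq {u : ℂ} {k : ℤ} {P : ℤ × ℤ} {z : ℂ} : z ∈ sq u k P ↔ cell u k z = P := Iff.rfl

/-- the bounds for a point of a square -/
theorem sq_bounds {u : ℂ} {k : ℤ} {P : ℤ × ℤ} {z : ℂ} (h : z ∈ sq u k P) :
    ((P.1 : ℝ) ≤ (2 : ℝ) ^ k * (z - u).re ∧ (2 : ℝ) ^ k * (z - u).re < P.1 + 1) ∧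
      ((P.2 : ℝ) ≤ (2 : ℝ) ^ k * (z - u).im ∧ (2 : ℝ) ^ k * (z - u).im < P.2 + 1) := by
  rw [mem_sq] at h
  subst h
  exact ⟨⟨Int.floor_le _, Int.lt_floor_add_one _⟩, ⟨Int.floor_le _, Int.lt_floor_add_one _⟩⟩

theorem two_mul_inv (k : ℤ) (x : ℝ) : (2 : ℝ) ^ k * (x * (2 : ℝ) ^ (-k)) = x := by
  rw [mul_comm x, ← mul_assoc, ← zpow_add₀ (by norm_num : (2 : ℝ) ≠ 0), add_neg_cancel, zpow_zero,
    one_mul]

theorem inv_mul_two (k : ℤ) (x : ℝ) : (2 : ℝ) ^ k * x * (2 : ℝ) ^ (-k) = x := by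
  rw [mul_comm ((2 : ℝ) ^ k) x, mul_assoc, ← zpow_add₀ (by norm_num : (2 : ℝ) ≠ 0), add_neg_cancel,
    zpow_zero, mul_one]

/-- levels of nested squares -/
theorem level_le {u : ℂ} {k k₀ : ℤ} {P P₀ : ℤ × ℤ} (h : sq u k P ⊆ sq u k₀ P₀) : k₀ ≤ k := by
  by_contra hlt
  push Not at hlt
  let z : ℝ → ℂ := fun t => u + ⟨(P.1 + t) * (2 : ℝ) ^ (-k), P.2 * (2 : ℝ) ^ (-k)⟩
  have hre : ∀ t, (z t - u).re = (P.1 + t) * (2 : ℝ) ^ (-k) := fun t => by simp [z]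
  have him : ∀ t, (z t - u).im = P.2 * (2 : ℝ) ^ (-k) := fun t => by simp [z]
  have hz : ∀ t, 0 ≤ t → t < 1 → z t ∈ sq u k P := by
    intro t h0 h1
    rw [mem_sq]
    unfold cell
    rw [hre, him, two_mul_inv, two_mul_inv]
    refine Prod.ext ?_ ?_
    · rw [Int.floor_eq_iff]
      constructor <;> linarith
    · exact Int.floor_intCast _
  have h1 := congrArg Prod.fst (mem_sq.1 (h (hz 0 le_rfl (by norm_num))))
  have h2 := congrArg Prod.fst (mem_sq.1 (h (hz (1 / 2) (by norm_num) (by norm_num))))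
  have h3 := Int.abs_sub_lt_one_of_floor_eq_floor (h1.trans h2.symm)
  rw [hre, hre] at h3
  have h4 : (2 : ℝ) ≤ (2 : ℝ) ^ k₀ * (2 : ℝ) ^ (-k) := by
    rw [← zpow_add₀ (by norm_num : (2 : ℝ) ≠ 0)]
    calc (2 : ℝ) = (2 : ℝ) ^ (1 : ℤ) := by norm_num
      _ ≤ _ := zpow_le_zpow_right₀ (by norm_num) (by omega)
  have h5 : (2 : ℝ) ^ k₀ * ((P.1 + 0) * (2 : ℝ) ^ (-k)) -
      (2 : ℝ) ^ k₀ * ((P.1 + 1 / 2) * (2 : ℝ) ^ (-k)) = -((2 : ℝ) ^ k₀ * (2 : ℝ) ^ (-k) / 2) := by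
    ring
  rw [h5, abs_neg, abs_of_pos (by positivity)] at h3
  linarith

/-- The point of the graph. -/
noncomputable def pt (v : ℂ) (f : ℝ → ℝ) (x : ℝ) : ℂ := v * ((x : ℂ) + f x * Complex.I)

theorem gr_eq (v : ℂ) (f : ℝ → ℝ) : gr v f = range (pt v f) := by
  ext z
  constructor
  · rintro ⟨x, hx⟩
    exact ⟨x, hx.symm⟩
  · rintro ⟨x, hx⟩
    exact ⟨x, hx.symm⟩

theorem preconn (v : ℂ) (f : ℝ → ℝ) (Λ : ℝ) (hΛ : 0 ≤ Λ) (hf : ∀ x y, |f x - f y| ≤ Λ * |x - y|) :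
    IsPreconnected (gr v f) := by
  have hc : Continuous f := by
    have h : LipschitzWith ⟨Λ, hΛ⟩ f := LipschitzWith.of_dist_le_mul fun x y => by
      rw [Real.dist_eq, Real.dist_eq]
      exact hf x y
    exact h.continuous
  rw [gr_eq]
  apply isPreconnected_range
  unfold pt
  fun_prop

theorem sub_pt (v : ℂ) (f : ℝ → ℝ) (x y : ℝ) :
    pt v f x - pt v f y = v * (((x - y : ℝ) : ℂ) + ((f x - f y : ℝ) : ℂ) * Complex.I) := by
  unfold pt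
  push_cast
  ring

theorem abs_le_norm (v : ℂ) (hv : ‖v‖ = 1) (f : ℝ → ℝ) (x y : ℝ) :
    |x - y| ≤ ‖pt v f x - pt v f y‖ := by
  rw [sub_pt, norm_mul, hv, one_mul]
  have h := Complex.abs_re_le_norm (((x - y : ℝ) : ℂ) + ((f x - f y : ℝ) : ℂ) * Complex.I)
  have e : (((x - y : ℝ) : ℂ) + ((f x - f y : ℝ) : ℂ) * Complex.I).re = x - y := by
    simp
  rw [e] at h
  exact h

theorem norm_le (v : ℂ) (hv : ‖v‖ = 1) (f : ℝ → ℝ) (Λ : ℝ)
    (hf : ∀ x y, |f x - f y| ≤ Λ * |x - y|) (x y : ℝ) :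
    ‖pt v f x - pt v f y‖ ≤ (1 + Λ) * |x - y| := by
  rw [sub_pt, norm_mul, hv, one_mul]
  refine (norm_add_le _ _).trans ?_
  rw [norm_mul, Complex.norm_I, mul_one, Complex.norm_real, Complex.norm_real, Real.norm_eq_abs,
    Real.norm_eq_abs]
  have := hf x y
  linarith

/-- the norm from the coordinates -/
theorem norm_coord {z : ℂ} {r : ℝ} (h1 : |z.re| ≤ r) (h2 : |z.im| ≤ r) : ‖z‖ ≤ 3 / 2 * r := by
  have hr : 0 ≤ r := (abs_nonneg _).trans h1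
  have h3 := Complex.sq_norm z
  rw [Complex.normSq_apply] at h3
  have h4 : z.re * z.re ≤ r * r := by
    have := mul_self_le_mul_self (abs_nonneg _) h1
    rwa [abs_mul_abs_self] at this
  have h5 : z.im * z.im ≤ r * r := by
    have := mul_self_le_mul_self (abs_nonneg _) h2
    rwa [abs_mul_abs_self] at this
  exact le_of_sq_le_sq' (by nlinarith) (by positivity)
where
  le_of_sq_le_sq' {a b : ℝ} (h : a ^ 2 ≤ b ^ 2) (hb : 0 ≤ b) : a ≤ b := by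
    exact le_of_sq_le_sq h hb

theorem abs_of_scaled {k : ℤ} {a c : ℝ} (h : |(2 : ℝ) ^ k * a| ≤ c) : |a| ≤ c * (2 : ℝ) ^ (-k) := by
  have hk : (0 : ℝ) < (2 : ℝ) ^ (-k) := by positivity
  have e : a = (2 : ℝ) ^ k * a * (2 : ℝ) ^ (-k) := (inv_mul_two k a).symm
  rw [e, abs_mul, abs_of_pos hk]
  exact mul_le_mul_of_nonneg_right h hk.le

/-- a point of the enlarged square is near a point of the square -/
theorem enl_near {k : ℤ} {P : ℤ × ℤ} {z w : ℂ} (hz : z ∈ enl 0 k P) (hw : w ∈ sq 0 k P) :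
    ‖z - w‖ ≤ 3 * (2 : ℝ) ^ (-k) := by
  obtain ⟨⟨a1, a2⟩, ⟨a3, a4⟩⟩ := sq_bounds hw
  obtain ⟨b1, b2, b3, b4⟩ := hz
  simp only [sub_zero] at a1 a2 a3 a4 b1 b2 b3 b4
  have h1 : |(z - w).re| ≤ 2 * (2 : ℝ) ^ (-k) := by
    apply abs_of_scaled
    rw [Complex.sub_re, mul_sub, abs_le]
    constructor <;> linarith
  have h2 : |(z - w).im| ≤ 2 * (2 : ℝ) ^ (-k) := by
    apply abs_of_scaled
    rw [Complex.sub_im, mul_sub, abs_le]
    constructor <;> linarith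
  have h3 := norm_coord h1 h2
  linarith

/-- two points of a square are near each other -/
theorem sq_near {k : ℤ} {P : ℤ × ℤ} {z w : ℂ} (hz : z ∈ sq 0 k P) (hw : w ∈ sq 0 k P) :
    ‖z - w‖ ≤ 2 * (2 : ℝ) ^ (-k) := by
  obtain ⟨⟨a1, a2⟩, ⟨a3, a4⟩⟩ := sq_bounds hw
  obtain ⟨⟨b1, b2⟩, ⟨b3, b4⟩⟩ := sq_bounds hz
  simp only [sub_zero] at a1 a2 a3 a4 b1 b2 b3 b4
  have h1 : |(z - w).re| ≤ 1 * (2 : ℝ) ^ (-k) := by
    apply abs_of_scaled
    rw [Complex.sub_re, mul_sub, abs_le]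
    constructor <;> linarith
  have h2 : |(z - w).im| ≤ 1 * (2 : ℝ) ^ (-k) := by
    apply abs_of_scaled
    rw [Complex.sub_im, mul_sub, abs_le]
    constructor <;> linarith
  have h3 := norm_coord h1 h2
  have hk : (0 : ℝ) < (2 : ℝ) ^ (-k) := by positivity
  linarith

theorem crs_mul (v a b : ℂ) (hv : ‖v‖ = 1) : crs (v * a) (v * b) = crs a b := by
  have h : v.re * v.re + v.im * v.im = 1 := by
    have := Complex.normSq_apply v
    rw [← this, Complex.normSq_eq_norm_sq, hv]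
    norm_num
  unfold crs
  simp only [Complex.mul_re, Complex.mul_im]
  linear_combination (a.re * b.im - a.im * b.re) * h

/-- the beta number of a square and the distance of `f` from its chord -/
theorem bet_le (hS : Stmt_STRIP) (hD : Stmt_DOR) (Λ : ℝ) (hΛ : 0 ≤ Λ) (f : ℝ → ℝ) (v : ℂ)
    (hv : ‖v‖ = 1) (hf : ∀ x y, |f x - f y| ≤ Λ * |x - y|) (k : ℤ) (P : ℤ × ℤ) (x : ℝ)
    (hx : pt v f x ∈ sq 0 k P) (t : ℝ) (n : ℤ)
    (hn : ∀ y, |y - x| ≤ 3 * (2 : ℝ) ^ (-k) → y ∈ Icc (le t (k - 6) n) (le t (k - 6) (n + 1))) :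
    bet (gr v f) 0 k P ≤ 64 * om f t (k - 6) n := by
  obtain ⟨hD1, hD2, -⟩ := hD f Λ t hΛ hf
  set κ := k - 6 with hκ
  set l := le t κ n with hl
  set s := (f (le t κ (n + 1)) - f l) * (2 : ℝ) ^ κ with hs
  have hq : 0 < 1 + s ^ 2 := by positivity
  have hq1 : 1 ≤ √(1 + s ^ 2) := by
    rw [Real.one_le_sqrt]
    nlinarith [sq_nonneg s]
  have hq0 : (0 : ℝ) < √(1 + s ^ 2) := by linarith
  have hdir : ‖(⟨1, s⟩ : ℂ)‖ = √(1 + s ^ 2) := by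
    rw [Complex.norm_def, Complex.normSq_apply]
    congr 1
    ring
  refine hS.2.2.2.1 (gr v f) 0 k P (64 * om f t κ n) (pt v f l)
    (v * ((((√(1 + s ^ 2))⁻¹ : ℝ) : ℂ) * ⟨1, s⟩)) (by have := hD1 κ n; positivity) ?_ ?_
  · rw [norm_mul, norm_mul, hv, hdir, Complex.norm_real, Real.norm_eq_abs,
      abs_of_pos (inv_pos.2 hq0), one_mul, inv_mul_cancel₀ hq0.ne']
  · rintro z ⟨⟨y, rfl⟩, hz⟩
    have h1 : |y - x| ≤ 3 * (2 : ℝ) ^ (-k) :=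
      (abs_le_norm v hv f y x).trans (enl_near hz hx)
    have h2 := hD2 κ n y (hn y h1)
    have e1 : v * ((y : ℂ) + f y * Complex.I) - pt v f l =
        v * (((y - l : ℝ) : ℂ) + ((f y - f l : ℝ) : ℂ) * Complex.I) := sub_pt v f y l
    rw [e1, crs_mul v _ _ hv]
    have e2 : crs ((((√(1 + s ^ 2))⁻¹ : ℝ) : ℂ) * ⟨1, s⟩)
        (((y - l : ℝ) : ℂ) + ((f y - f l : ℝ) : ℂ) * Complex.I) =
        (√(1 + s ^ 2))⁻¹ * (f y - cho f t κ n y) := by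
      have e3 : cho f t κ n y = f l + s * (y - l) := rfl
      rw [e3]
      simp [crs]
      ring
    rw [e2, abs_mul, abs_of_pos (inv_pos.2 hq0)]
    have h3 : (√(1 + s ^ 2))⁻¹ ≤ 1 := inv_le_one_of_one_le₀ hq1
    have h4 : (2 : ℝ) ^ (-κ) = 64 * (2 : ℝ) ^ (-k) := by
      rw [hκ, show -(k - 6) = 6 + -k by ring, zpow_add₀ (by norm_num : (2 : ℝ) ≠ 0)]
      norm_num
    rw [h4] at h2
    have h5 := abs_nonneg (f y - cho f t κ n y)
    have h6 : (√(1 + s ^ 2))⁻¹ * |f y - cho f t κ n y| ≤ 1 * |f y - cho f t κ n y| :=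
      mul_le_mul_of_nonneg_right h3 h5
    linarith

/-- the shift in one variable -/
noncomputable def tt (K : ℕ) (b : Bool) : ℝ := if b then 2 ^ K / 3 else 0

/-- the index of the dyadic interval -/
noncomputable def ix (t : ℝ) (κ : ℤ) (x : ℝ) : ℤ := ⌊(2 : ℝ) ^ κ * (x - t)⌋

theorem ix_mem (t : ℝ) (κ : ℤ) (x : ℝ) : x ∈ Icc (le t κ (ix t κ x)) (le t κ (ix t κ x + 1)) := by
  have hk : (0 : ℝ) < (2 : ℝ) ^ (-κ) := by positivity
  have h1 := Int.floor_le ((2 : ℝ) ^ κ * (x - t))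
  have h2 := (Int.lt_floor_add_one ((2 : ℝ) ^ κ * (x - t))).le
  have e := inv_mul_two κ (x - t)
  have h3 := mul_le_mul_of_nonneg_right h1 hk.le
  have h4 := mul_le_mul_of_nonneg_right h2 hk.le
  rw [e] at h3 h4
  unfold le ix
  push_cast
  constructor <;> linarith

theorem le_succ (t : ℝ) (κ n : ℤ) : le t κ (n + 1) = le t κ n + (2 : ℝ) ^ (-κ) := by
  unfold le
  push_cast
  ring

theorem exists_shift (hC : ANL.Stmt_CELL) (K : ℕ) (k : ℤ) (hk : 6 - (K : ℤ) ≤ k) (x : ℝ) :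
    ∃ b : Bool, ∀ y, |y - x| ≤ 3 * (2 : ℝ) ^ (-k) →
      y ∈ Icc (le (tt K b) (k - 6) (ix (tt K b) (k - 6) x))
        (le (tt K b) (k - 6) (ix (tt K b) (k - 6) x + 1)) := by
  have h0 : (2 : ℝ) ^ (k - 6) * (3 * (2 : ℝ) ^ (-k)) ≤ 1 / 8 := by
    have e : (2 : ℝ) ^ (k - 6) * (3 * (2 : ℝ) ^ (-k)) = 3 / 64 := by
      rw [zpow_sub₀ (by norm_num : (2 : ℝ) ≠ 0)]
      have h := two_mul_inv k 3
      have h2 : (2 : ℝ) ^ k / 2 ^ (6 : ℤ) * (3 * (2 : ℝ) ^ (-k)) =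
        (2 : ℝ) ^ k * (3 * (2 : ℝ) ^ (-k)) / 2 ^ (6 : ℤ) := by ring
      rw [h2, h]
      norm_num
    rw [e]
    norm_num
  obtain ⟨ω, hω⟩ := hC.2.2 K (k - 6) (by omega) (3 * (2 : ℝ) ^ (-k)) h0 (x : ℂ)
  refine ⟨ω.1, fun y hy => ?_⟩
  have h1 := hω (y : ℂ) (by
    rw [← Complex.ofReal_sub, Complex.norm_real, Real.norm_eq_abs]
    exact hy)
  have h2 := congrArg Prod.fst h1
  have e : ∀ y : ℝ, ((y : ℂ) - sh K ω).re = y - tt K ω.1 := by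
    intro y
    simp [sh, tt]
  simp only [cell] at h2
  rw [e, e] at h2
  have h3 := ix_mem (tt K ω.1) (k - 6) y
  unfold ix at h3
  rw [h2] at h3
  exact h3

/-- the ancestors -/
theorem anc (t : ℝ) (κ₀ κ : ℤ) (x : ℝ) (h : κ₀ ≤ κ) :
    ix t κ₀ x * 2 ^ (κ - κ₀).toNat ≤ ix t κ x ∧ ix t κ x < (ix t κ₀ x + 1) * 2 ^ (κ - κ₀).toNat := by
  obtain ⟨j, hj⟩ := Int.le.dest h
  have e1 : (κ - κ₀).toNat = j := by omega
  rw [e1]
  have e2 : (2 : ℝ) ^ κ * (x - t) = (2 : ℝ) ^ κ₀ * (x - t) * 2 ^ j := by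
    rw [← hj, zpow_add₀ (by norm_num : (2 : ℝ) ≠ 0), zpow_natCast]
    ring
  have hp : (0 : ℝ) < 2 ^ j := by positivity
  constructor
  · unfold ix
    rw [Int.le_floor, e2]
    push_cast
    exact mul_le_mul_of_nonneg_right (Int.floor_le _) hp.le
  · unfold ix
    rw [Int.floor_lt, e2]
    push_cast
    exact mul_lt_mul_of_pos_right (Int.lt_floor_add_one _) hp

/-- two possible ancestors -/
theorem two_anc (t : ℝ) (κ₀ : ℤ) (x y : ℝ) (h : |y - x| ≤ 2 * (2 : ℝ) ^ (-(κ₀ + 6))) :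
    ix t κ₀ y ∈ Finset.Icc ⌊(2 : ℝ) ^ κ₀ * (x - t) - 1 / 4⌋
      (⌊(2 : ℝ) ^ κ₀ * (x - t) - 1 / 4⌋ + 1) := by
  have hp : (0 : ℝ) < (2 : ℝ) ^ κ₀ := by positivity
  have h1 : |(2 : ℝ) ^ κ₀ * (y - x)| ≤ 1 / 4 := by
    rw [abs_mul, abs_of_pos hp]
    have h2 := mul_le_mul_of_nonneg_left h hp.le
    have e : (2 : ℝ) ^ κ₀ * (2 * (2 : ℝ) ^ (-(κ₀ + 6))) = 1 / 32 := by
      rw [show -(κ₀ + 6) = -κ₀ + -6 by ring, zpow_add₀ (by norm_num : (2 : ℝ) ≠ 0)]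
      have h3 := two_mul_inv κ₀ (2 * (2 : ℝ) ^ (-6 : ℤ))
      have h4 : (2 : ℝ) ^ κ₀ * (2 * ((2 : ℝ) ^ (-κ₀) * (2 : ℝ) ^ (-6 : ℤ))) =
        (2 : ℝ) ^ κ₀ * (2 * (2 : ℝ) ^ (-6 : ℤ) * (2 : ℝ) ^ (-κ₀)) := by ring
      rw [h4, h3]
      norm_num
    rw [e] at h2
    linarith
  rw [abs_le] at h1
  have e2 : (2 : ℝ) ^ κ₀ * (y - t) = (2 : ℝ) ^ κ₀ * (x - t) + (2 : ℝ) ^ κ₀ * (y - x) := by ring
  rw [Finset.mem_Icc]
  unfold ix
  rw [e2]
  set A := (2 : ℝ) ^ κ₀ * (x - t) - 1 / 4 with hA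
  refine ⟨Int.floor_le_floor (by linarith), ?_⟩
  have h3 : (2 : ℝ) ^ κ₀ * (x - t) + (2 : ℝ) ^ κ₀ * (y - x) < ((⌊A⌋ + 2 : ℤ) : ℝ) := by
    push_cast
    linarith [Int.lt_floor_add_one A]
  have := Int.floor_lt.2 h3
  omega

/-- a sum over fibres -/
theorem fib {α β : Type} [DecidableEq α] [DecidableEq β] (S : Finset α) (φ : α → β) (F : β → ℝ)
    (C : ℕ) (hF : ∀ b, 0 ≤ F b) (hc : ∀ b ∈ S.image φ, (S.filter (fun a => φ a = b)).card ≤ C) :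
    ∑ a ∈ S, F (φ a) ≤ C * ∑ b ∈ S.image φ, F b := by
  rw [← Finset.sum_fiberwise_of_maps_to (g := φ) (t := S.image φ)
      (fun Q hQ => Finset.mem_image_of_mem φ hQ), Finset.mul_sum]
  refine Finset.sum_le_sum fun b hb => ?_
  rw [Finset.sum_congr rfl (g := fun _ => F b)
    (fun Q hQ => by rw [(Finset.mem_filter.1 hQ).2]), Finset.sum_const, nsmul_eq_mul]
  exact mul_le_mul_of_nonneg_right (by exact_mod_cast hc b hb) (hF b)

/-- floors of near numbers -/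
theorem floor_near {a b c : ℝ} {D : ℕ} (h : |a - b| ≤ c) (hD : c + 1 ≤ D) :
    ⌊a⌋ ∈ Finset.Icc (⌊b⌋ - D) (⌊b⌋ + D) := by
  rw [abs_le] at h
  have h1 := Int.floor_le a
  have h2 := Int.lt_floor_add_one a
  have h3 := Int.floor_le b
  have h4 := Int.lt_floor_add_one b
  rw [Finset.mem_Icc]
  constructor
  · have h5 : ((⌊b⌋ - D : ℤ) : ℝ) < ((⌊a⌋ + 1 : ℤ) : ℝ) := by
      push_cast
      linarith
    have := Int.cast_lt.1 h5
    omega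
  · have h5 : ((⌊a⌋ : ℤ) : ℝ) < ((⌊b⌋ + D + 1 : ℤ) : ℝ) := by
      push_cast
      linarith
    have := Int.cast_lt.1 h5
    omega

/-- the cells of near points -/
theorem cell_near {k : ℤ} {z w : ℂ} {c : ℝ} {D : ℕ} (h : ‖z - w‖ ≤ c * (2 : ℝ) ^ (-k))
    (hD : c + 1 ≤ D) :
    cell 0 k z ∈ Finset.Icc ((cell 0 k w).1 - (D : ℤ)) ((cell 0 k w).1 + D) ×ˢ
      Finset.Icc ((cell 0 k w).2 - (D : ℤ)) ((cell 0 k w).2 + D) := by
  have hp : (0 : ℝ) < (2 : ℝ) ^ k := by positivity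
  have key : ∀ a : ℝ, |a| ≤ c * (2 : ℝ) ^ (-k) → |(2 : ℝ) ^ k * a| ≤ c := by
    intro a ha
    rw [abs_mul, abs_of_pos hp]
    have h1 := mul_le_mul_of_nonneg_left ha hp.le
    rwa [two_mul_inv] at h1
  rw [Finset.mem_product]
  constructor
  · apply floor_near _ hD
    have h1 := key _ ((Complex.abs_re_le_norm (z - w)).trans h)
    rw [Complex.sub_re, mul_sub] at h1
    simpa using h1
  · apply floor_near _ hD
    have h1 := key _ ((Complex.abs_im_le_norm (z - w)).trans h)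
    rw [Complex.sub_im, mul_sub] at h1
    simpa using h1

end GRA

open Classical in
theorem GRA_thm (hC : ANL.Stmt_CELL) (hS : Stmt_STRIP) (hD : Stmt_DOR) : Stmt_GRA := by
  intro Λ hΛ
  obtain ⟨D, hDn⟩ := exists_nat_ge (64 * (1 + Λ) + 1)
  refine ⟨((2 * D + 1) ^ 2 : ℕ) * 64 * 2 * 2 * (20 * Λ ^ 2) * 64, ?_⟩
  intro f v hv hf
  refine ⟨GRA.preconn v f Λ hΛ hf, ?_⟩
  intro k₀ P₀ S hSf
  rcases S.eq_empty_or_nonempty with rfl | ⟨Q₁, hQ₁⟩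
  · simp only [Finset.sum_empty]
    positivity
  -- the points
  have hex : ∀ Q : ℤ × (ℤ × ℤ), ∃ x : ℝ, Q ∈ S → GRA.pt v f x ∈ sq 0 Q.1 Q.2 := by
    intro Q
    by_cases hQ : Q ∈ S
    · obtain ⟨w, ⟨x, hx⟩, hw⟩ := (hSf Q hQ).2
      refine ⟨x, fun _ => ?_⟩
      rw [hx] at hw
      exact hw
    · exact ⟨0, fun h => absurd h hQ⟩
  choose x hx using hex
  have hlev : ∀ Q ∈ S, k₀ ≤ Q.1 := fun Q hQ => GRA.level_le (hSf Q hQ).1
  obtain ⟨K, hK⟩ : ∃ K : ℕ, 6 - k₀ ≤ (K : ℤ) := ⟨(6 - k₀).toNat, by omega⟩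
  have hsh : ∀ Q : ℤ × (ℤ × ℤ), ∃ b : Bool, Q ∈ S → ∀ y, |y - x Q| ≤ 3 * (2 : ℝ) ^ (-Q.1) →
      y ∈ Icc (le (GRA.tt K b) (Q.1 - 6) (GRA.ix (GRA.tt K b) (Q.1 - 6) (x Q)))
        (le (GRA.tt K b) (Q.1 - 6) (GRA.ix (GRA.tt K b) (Q.1 - 6) (x Q) + 1)) := by
    intro Q
    by_cases hQ : Q ∈ S
    · have h1 := hlev Q hQ
      obtain ⟨b, hb⟩ := GRA.exists_shift hC K Q.1 (by omega) (x Q)
      exact ⟨b, fun _ => hb⟩
    · exact ⟨true, fun h => absurd h hQ⟩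
  choose β hβ using hsh
  let φ : Bool → ℤ × (ℤ × ℤ) → ℤ × ℤ := fun b Q =>
    (Q.1 - 6, GRA.ix (GRA.tt K b) (Q.1 - 6) (x Q))
  let F : Bool → ℤ × ℤ → ℝ := fun b J => om f (GRA.tt K b) J.1 J.2 ^ 2 * (2 : ℝ) ^ (-J.1)
  have hF : ∀ b J, 0 ≤ F b J := fun b J => by positivity
  -- step 1
  have h1 : ∀ Q ∈ S, bet (gr v f) 0 Q.1 Q.2 ^ 2 * (2 : ℝ) ^ (-Q.1) ≤ 64 * F (β Q) (φ (β Q) Q) := by
    intro Q hQ
    have h2 := GRA.bet_le hS hD Λ hΛ f v hv hf Q.1 Q.2 (x Q) (hx Q hQ) (GRA.tt K (β Q))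
      (GRA.ix (GRA.tt K (β Q)) (Q.1 - 6) (x Q)) (hβ Q hQ)
    have h3 := hS.1 (gr v f) 0 Q.1 Q.2
    have h4 := pow_le_pow_left₀ h3 h2 2
    have h5 : (0 : ℝ) < (2 : ℝ) ^ (-Q.1) := by positivity
    have h6 : (2 : ℝ) ^ (-(Q.1 - 6)) = 64 * (2 : ℝ) ^ (-Q.1) := by
      rw [show -(Q.1 - 6) = 6 + -Q.1 by ring, zpow_add₀ (by norm_num : (2 : ℝ) ≠ 0)]
      norm_num
    calc _ ≤ (64 * om f (GRA.tt K (β Q)) (Q.1 - 6)
          (GRA.ix (GRA.tt K (β Q)) (Q.1 - 6) (x Q))) ^ 2 * (2 : ℝ) ^ (-Q.1) :=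
          mul_le_mul_of_nonneg_right h4 h5.le
      _ = 64 * F (β Q) (φ (β Q) Q) := by
          simp only [F, φ]
          rw [h6]
          ring
  -- step 2: one shift
  have h2 : ∀ b : Bool, ∑ Q ∈ S.filter (fun Q => β Q = b), F b (φ b Q) ≤
      ((2 * D + 1) ^ 2 : ℕ) * (2 * (20 * Λ ^ 2 * (64 * (2 : ℝ) ^ (-k₀)))) := by
    intro b
    set t := GRA.tt K b with ht
    have h3 := GRA.fib (S.filter (fun Q => β Q = b)) (φ b) (F b) ((2 * D + 1) ^ 2) (hF b) (by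
      intro J hJ
      set pp := GRA.pt v f (le t J.1 J.2) with hpp
      have h4 : ((S.filter (fun Q => β Q = b)).filter (fun Q => φ b Q = J)).card ≤
          (Finset.Icc ((cell 0 (J.1 + 6) pp).1 - (D : ℤ)) ((cell 0 (J.1 + 6) pp).1 + D) ×ˢ
            Finset.Icc ((cell 0 (J.1 + 6) pp).2 - (D : ℤ))
              ((cell 0 (J.1 + 6) pp).2 + D)).card := by
        refine Finset.card_le_card_of_injOn Prod.snd ?_ ?_
        · intro Q hQ
          have hQ1 := Finset.mem_filter.1 (Finset.mem_coe.1 hQ)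
          have hQ2 := Finset.mem_filter.1 hQ1.1
          have e1 : Q.1 - 6 = J.1 := congrArg Prod.fst hQ1.2
          have e2 : GRA.ix t (Q.1 - 6) (x Q) = J.2 := congrArg Prod.snd hQ1.2
          have e3 : cell 0 Q.1 (GRA.pt v f (x Q)) = Q.2 := hx Q hQ2.1
          have e4 : Q.1 = J.1 + 6 := by omega
          have h5 := GRA.ix_mem t (Q.1 - 6) (x Q)
          rw [e2, e1, GRA.le_succ] at h5
          have h6 : |x Q - le t J.1 J.2| ≤ (2 : ℝ) ^ (-J.1) := by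
            rw [abs_le]
            have h7 : (0 : ℝ) < (2 : ℝ) ^ (-J.1) := by positivity
            constructor <;> linarith [h5.1, h5.2]
          have h7 := GRA.norm_le v hv f Λ hf (x Q) (le t J.1 J.2)
          have h8 : (2 : ℝ) ^ (-J.1) = 64 * (2 : ℝ) ^ (-Q.1) := by
            rw [show -J.1 = 6 + -Q.1 by omega, zpow_add₀ (by norm_num : (2 : ℝ) ≠ 0)]
            norm_num
          have h9 : ‖GRA.pt v f (x Q) - pp‖ ≤ 64 * (1 + Λ) * (2 : ℝ) ^ (-Q.1) := by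
            refine h7.trans ?_
            rw [h8] at h6
            have h10 := mul_le_mul_of_nonneg_left h6 (by linarith : (0 : ℝ) ≤ 1 + Λ)
            linarith
          have h10 := GRA.cell_near h9 hDn
          rw [e3, e4] at h10
          exact h10
        · intro Q hQ R hR hQR
          have hQ1 := Finset.mem_filter.1 (Finset.mem_coe.1 hQ)
          have hR1 := Finset.mem_filter.1 (Finset.mem_coe.1 hR)
          have e1 : Q.1 - 6 = J.1 := congrArg Prod.fst hQ1.2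
          have e2 : R.1 - 6 = J.1 := congrArg Prod.fst hR1.2
          exact Prod.ext (by omega) hQR
      refine h4.trans (le_of_eq ?_)
      rw [Finset.card_product, Int.card_Icc, Int.card_Icc, pow_two]
      congr 1 <;> omega)
    refine h3.trans (mul_le_mul_of_nonneg_left ?_ (by positivity))
    -- the two ancestors
    set A := ⌊(2 : ℝ) ^ (k₀ - 6) * (x Q₁ - t) - 1 / 4⌋ with hA
    have h4 : ∑ J ∈ (S.filter (fun Q => β Q = b)).image (φ b), F b J ≤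
        ∑ n₀ ∈ Finset.Icc A (A + 1), ∑ J ∈ ((S.filter (fun Q => β Q = b)).image (φ b)).filter
          (fun J => k₀ - 6 ≤ J.1 ∧ n₀ * 2 ^ (J.1 - (k₀ - 6)).toNat ≤ J.2 ∧
            J.2 < (n₀ + 1) * 2 ^ (J.1 - (k₀ - 6)).toNat), F b J := by
      have h5 : ∀ J ∈ (S.filter (fun Q => β Q = b)).image (φ b), F b J ≤
          ∑ n₀ ∈ Finset.Icc A (A + 1), if (k₀ - 6 ≤ J.1 ∧ n₀ * 2 ^ (J.1 - (k₀ - 6)).toNat ≤ J.2 ∧
            J.2 < (n₀ + 1) * 2 ^ (J.1 - (k₀ - 6)).toNat) then F b J else 0 := by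
        intro J hJ
        obtain ⟨Q, hQ, rfl⟩ := Finset.mem_image.1 hJ
        have hQ1 := (Finset.mem_filter.1 hQ).1
        have e1 := hlev Q hQ1
        have e2 : GRA.ix t (k₀ - 6) (x Q) ∈ Finset.Icc A (A + 1) := by
          apply GRA.two_anc
          refine (GRA.abs_le_norm v hv f (x Q) (x Q₁)).trans ?_
          rw [show k₀ - 6 + 6 = k₀ by ring]
          exact GRA.sq_near ((hSf Q hQ1).1 (hx Q hQ1)) ((hSf Q₁ hQ₁).1 (hx Q₁ hQ₁))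
        have e3 := GRA.anc t (k₀ - 6) (Q.1 - 6) (x Q) (by omega)
        refine le_trans (le_of_eq ?_) (Finset.single_le_sum (f := fun n₀ : ℤ =>
          if (k₀ - 6 ≤ (φ b Q).1 ∧ n₀ * 2 ^ ((φ b Q).1 - (k₀ - 6)).toNat ≤ (φ b Q).2 ∧
            (φ b Q).2 < (n₀ + 1) * 2 ^ ((φ b Q).1 - (k₀ - 6)).toNat) then F b (φ b Q) else 0)
          ?_ e2)
        · rw [if_pos ⟨by show k₀ - 6 ≤ Q.1 - 6; omega, e3⟩]
        · intro n₀ _
          show (0 : ℝ) ≤ if _ then _ else _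
          split_ifs
          · exact hF b _
          · exact le_rfl
      refine (Finset.sum_le_sum h5).trans (le_of_eq ?_)
      rw [Finset.sum_comm]
      refine Finset.sum_congr rfl fun n₀ _ => ?_
      rw [Finset.sum_filter]
    have h5 : ∀ n₀ ∈ Finset.Icc A (A + 1),
        ∑ J ∈ ((S.filter (fun Q => β Q = b)).image (φ b)).filter
          (fun J => k₀ - 6 ≤ J.1 ∧ n₀ * 2 ^ (J.1 - (k₀ - 6)).toNat ≤ J.2 ∧
            J.2 < (n₀ + 1) * 2 ^ (J.1 - (k₀ - 6)).toNat), F b J ≤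
          20 * Λ ^ 2 * (2 : ℝ) ^ (-(k₀ - 6)) := by
      intro n₀ _
      exact (hD f Λ t hΛ hf).2.2 (k₀ - 6) n₀ _ fun J hJ => (Finset.mem_filter.1 hJ).2
    have h6 := Finset.sum_le_sum h5
    rw [Finset.sum_const, Int.card_Icc, show (A + 1 + 1 - A).toNat = 2 by omega, nsmul_eq_mul] at h6
    have h7 : (2 : ℝ) ^ (-(k₀ - 6)) = 64 * (2 : ℝ) ^ (-k₀) := by
      rw [show -(k₀ - 6) = 6 + -k₀ by ring, zpow_add₀ (by norm_num : (2 : ℝ) ≠ 0)]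
      norm_num
    rw [h7] at h6
    refine h4.trans (h6.trans (le_of_eq ?_))
    push_cast
    ring
  -- the sum
  have h3 := Finset.sum_le_sum h1
  refine h3.trans ?_
  rw [← Finset.mul_sum, ← Finset.sum_fiberwise_of_maps_to (g := β) (t := Finset.univ)
      (fun Q _ => Finset.mem_univ _), Fintype.sum_bool]
  have h4 : ∀ b : Bool, ∑ Q ∈ S.filter (fun Q => β Q = b), F (β Q) (φ (β Q) Q) =
      ∑ Q ∈ S.filter (fun Q => β Q = b), F b (φ b Q) := fun b =>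
    Finset.sum_congr rfl fun Q hQ => by rw [(Finset.mem_filter.1 hQ).2]
  rw [h4, h4]
  have h5 := h2 true
  have h6 := h2 false
  nlinarith

end Pool.Agent.ANG
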