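import Pool.Agent.ANG.Stmts

/-!
# Analytic capacity and few curves: one grid is enough (MP_98e313_an)
-/

set_option autoImplicit false

namespace Pool.Agent.ANG

open MeasureTheory Set Pool.Agent.ANL

namespace GRID

theorem mem_sq {u : ℂ} {k : ℤ} {P : ℤ × ℤ} {z : ℂ} : z ∈ sq u k P ↔ cell u k z = P := Iff.rfl

/-- the bounds for a point of a square -/
theorem sq_bounds {u : ℂ} {k : ℤ} {P : ℤ × ℤ} {z : ℂ} (h : z ∈ sq u k P) :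
    ((P.1 : ℝ) ≤ (2 : ℝ) ^ k * (z - u).re ∧ (2 : ℝ) ^ k * (z - u).re < P.1 + 1) ∧
      ((P.2 : ℝ) ≤ (2 : ℝ) ^ k * (z - u).im ∧ (2 : ℝ) ^ k * (z - u).im < P.2 + 1) := by
  rw [mem_sq] at h
  subst h
  exact ⟨⟨Int.floor_le _, Int.lt_floor_add_one _⟩, ⟨Int.floor_le _, Int.lt_floor_add_one _⟩⟩

theorem two_mul_inv (k : ℤ) (x : ℝ) : (2 : ℝ) ^ k * (x * (2 : ℝ) ^ (-k)) = x := by
  rw [mul_comm x, ← mul_assoc, ← zpow_add₀ (by norm_num : (2 : ℝ) ≠ 0), add_neg_cancel, zpow_zero,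
    one_mul]

/-- levels of nested squares -/
theorem level_le {u : ℂ} {k k₀ : ℤ} {P P₀ : ℤ × ℤ} (h : sq u k P ⊆ sq u k₀ P₀) : k₀ ≤ k := by
  by_contra hlt
  push Not at hlt
  let z : ℝ → ℂ := fun t => u + ⟨(P.1 + t) * (2 : ℝ) ^ (-k), P.2 * (2 : ℝ) ^ (-k)⟩
  have hre : ∀ t, (z t - u).re = (P.1 + t) * (2 : ℝ) ^ (-k) := fun t => by simp [z]
  have him : ∀ t, (z t - u).im = P.2 * (2 : ℝ) ^ (-k) := fun t => by simp [z]
  have hz : ∀ t, 0 ≤ t → t < 1 → z t ∈ sq u k P := by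
    intro t h0 h1
    rw [mem_sq]
    unfold cell
    rw [hre, him, two_mul_inv, two_mul_inv]
    refine Prod.ext ?_ ?_
    · rw [Int.floor_eq_iff]
      constructor <;> linarith
    · exact Int.floor_intCast _
  have h1 := congrArg Prod.fst (mem_sq.1 (h (hz 0 le_rfl (by norm_num))))
  have h2 := congrArg Prod.fst (mem_sq.1 (h (hz (1 / 2) (by norm_num) (by norm_num))))
  have h3 := Int.abs_sub_lt_one_of_floor_eq_floor (h1.trans h2.symm)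
  rw [hre, hre] at h3
  have h4 : (2 : ℝ) ≤ (2 : ℝ) ^ k₀ * (2 : ℝ) ^ (-k) := by
    rw [← zpow_add₀ (by norm_num : (2 : ℝ) ≠ 0)]
    calc (2 : ℝ) = (2 : ℝ) ^ (1 : ℤ) := by norm_num
      _ ≤ _ := zpow_le_zpow_right₀ (by norm_num) (by omega)
  have h5 : (2 : ℝ) ^ k₀ * ((P.1 + 0) * (2 : ℝ) ^ (-k)) -
      (2 : ℝ) ^ k₀ * ((P.1 + 1 / 2) * (2 : ℝ) ^ (-k)) = -((2 : ℝ) ^ k₀ * (2 : ℝ) ^ (-k) / 2) := by
    ring
  rw [h5, abs_neg, abs_of_pos (by positivity)] at h3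
  linarith

/-- the enlarged square is in an enlarged square of the grid `0` -/
theorem enl_sub {u : ℂ} {k : ℤ} {P : ℤ × ℤ} {w : ℂ} (hw : w ∈ sq u k P) :
    enl u k P ⊆ enl 0 (k - 1) (cell 0 (k - 1) w) := by
  intro z hz
  obtain ⟨⟨a1, a2⟩, ⟨a3, a4⟩⟩ := sq_bounds hw
  obtain ⟨b1, b2, b3, b4⟩ := hz
  have e1 : (2 : ℝ) ^ k = 2 * (2 : ℝ) ^ (k - 1) := by
    rw [zpow_sub_one₀ (by norm_num : (2 : ℝ) ≠ 0)]
    ring
  obtain ⟨⟨c1, c2⟩, ⟨c3, c4⟩⟩ := sq_bounds (u := 0) (k := k - 1) (z := w) (P := cell 0 (k - 1) w) rfl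
  simp only [Complex.sub_re, Complex.sub_im, sub_zero] at *
  rw [e1] at a1 a2 a3 a4 b1 b2 b3 b4
  refine ⟨?_, ?_, ?_, ?_⟩ <;> simp only [sub_zero] <;> nlinarith

/-- the set in the definition of `bet` is not empty -/
theorem bet_nonempty (G : Set ℂ) (u : ℂ) (k : ℤ) (P : ℤ × ℤ) :
    {δ : ℝ | 0 ≤ δ ∧ ∃ a v : ℂ, ‖v‖ = 1 ∧
      ∀ z ∈ G ∩ enl u k P, |crs v (z - a)| ≤ δ * (2 : ℝ) ^ (-k)}.Nonempty := by
  refine ⟨2, by norm_num, u + ⟨0, P.2 * (2 : ℝ) ^ (-k)⟩, 1, by simp, ?_⟩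
  rintro z ⟨-, -, -, h3, h4⟩
  have hk : (0 : ℝ) < (2 : ℝ) ^ (-k) := by positivity
  have e2 : (z - u).im = ((2 : ℝ) ^ k * (z - u).im) * (2 : ℝ) ^ (-k) := by
    rw [mul_comm ((2 : ℝ) ^ k), mul_assoc, ← zpow_add₀ (by norm_num : (2 : ℝ) ≠ 0), add_neg_cancel,
      zpow_zero, mul_one]
  have e1 : crs 1 (z - (u + ⟨0, P.2 * (2 : ℝ) ^ (-k)⟩)) =
      ((2 : ℝ) ^ k * (z - u).im - P.2) * (2 : ℝ) ^ (-k) := by
    rw [sub_mul, ← e2]
    simp [crs]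
    ring
  rw [e1, abs_mul, abs_of_pos hk]
  refine mul_le_mul_of_nonneg_right ?_ hk.le
  rw [abs_le]
  constructor <;> linarith

theorem bet_le (hS : Stmt_STRIP) (G : Set ℂ) {u : ℂ} {k : ℤ} {P : ℤ × ℤ} {w : ℂ}
    (hw : w ∈ sq u k P) : bet G u k P ≤ 2 * bet G 0 (k - 1) (cell 0 (k - 1) w) := by
  have h1 : bet G u k P / 2 ≤ bet G 0 (k - 1) (cell 0 (k - 1) w) := by
    refine le_csInf (bet_nonempty G 0 (k - 1) _) ?_
    rintro δ ⟨h0, a, v, hv, h⟩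
    have h2 := hS.2.2.2.1 G u k P (2 * δ) a v (by linarith) hv fun z hz => by
      refine (h z ⟨hz.1, enl_sub hw hz.2⟩).trans (le_of_eq ?_)
      rw [show -(k - 1) = -k + 1 by ring, zpow_add₀ (by norm_num : (2 : ℝ) ≠ 0), zpow_one]
      ring
    linarith
  linarith

theorem floor_mem_two {A x : ℝ} (h1 : A ≤ x) (h2 : x < A + 2) :
    ⌊x⌋ ∈ Finset.Icc ⌊A⌋ (⌊A⌋ + 2) := by
  rw [Finset.mem_Icc]
  refine ⟨Int.floor_le_floor h1, ?_⟩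
  have h3 : x < ((⌊A⌋ + 3 : ℤ) : ℝ) := by
    push_cast
    linarith [Int.lt_floor_add_one A]
  have := Int.floor_lt.2 h3
  omega

theorem floor_mem_one {A x : ℝ} (h1 : A ≤ x) (h2 : x < A + 1) :
    ⌊x⌋ ∈ Finset.Icc ⌊A⌋ (⌊A⌋ + 1) := by
  rw [Finset.mem_Icc]
  refine ⟨Int.floor_le_floor h1, ?_⟩
  have h3 : x < ((⌊A⌋ + 2 : ℤ) : ℝ) := by
    push_cast
    linarith [Int.lt_floor_add_one A]
  have := Int.floor_lt.2 h3
  omega

/-- the nine possible squares -/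
theorem nine (u : ℂ) (k : ℤ) (p : ℤ × ℤ) : ∃ T : Finset (ℤ × ℤ), T.card = 9 ∧
    ∀ w, cell 0 (k - 1) w = p → cell u k w ∈ T := by
  refine ⟨Finset.Icc ⌊2 * (p.1 : ℝ) - 2 ^ k * u.re⌋ (⌊2 * (p.1 : ℝ) - 2 ^ k * u.re⌋ + 2) ×ˢ
    Finset.Icc ⌊2 * (p.2 : ℝ) - 2 ^ k * u.im⌋ (⌊2 * (p.2 : ℝ) - 2 ^ k * u.im⌋ + 2), ?_, ?_⟩
  · rw [Finset.card_product, Int.card_Icc, Int.card_Icc]
    simp only [show ∀ a : ℤ, a + 2 + 1 - a = 3 by intro a; ring]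
    rfl
  · intro w hw
    have e1 : (2 : ℝ) ^ k = 2 * (2 : ℝ) ^ (k - 1) := by
      rw [zpow_sub_one₀ (by norm_num : (2 : ℝ) ≠ 0)]
      ring
    obtain ⟨⟨c1, c2⟩, ⟨c3, c4⟩⟩ := sq_bounds (mem_sq.2 hw)
    simp only [sub_zero] at *
    rw [Finset.mem_product]
    constructor
    · apply floor_mem_two
      · rw [Complex.sub_re, mul_sub, e1]
        linarith
      · rw [Complex.sub_re, mul_sub, e1]
        linarith
    · apply floor_mem_two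
      · rw [Complex.sub_im, mul_sub, e1]
        linarith
      · rw [Complex.sub_im, mul_sub, e1]
        linarith

/-- the four possible ancestors -/
theorem four (u : ℂ) (k : ℤ) (p : ℤ × ℤ) : ∃ T : Finset (ℤ × ℤ), T.card = 4 ∧
    ∀ w, cell u k w = p → cell 0 (k - 1) w ∈ T := by
  refine ⟨Finset.Icc ⌊((p.1 : ℝ) + 2 ^ k * u.re) / 2⌋ (⌊((p.1 : ℝ) + 2 ^ k * u.re) / 2⌋ + 1) ×ˢ
    Finset.Icc ⌊((p.2 : ℝ) + 2 ^ k * u.im) / 2⌋ (⌊((p.2 : ℝ) + 2 ^ k * u.im) / 2⌋ + 1), ?_, ?_⟩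
  · rw [Finset.card_product, Int.card_Icc, Int.card_Icc]
    simp only [show ∀ a : ℤ, a + 1 + 1 - a = 2 by intro a; ring]
    rfl
  · intro w hw
    have e1 : (2 : ℝ) ^ k = 2 * (2 : ℝ) ^ (k - 1) := by
      rw [zpow_sub_one₀ (by norm_num : (2 : ℝ) ≠ 0)]
      ring
    obtain ⟨⟨c1, c2⟩, ⟨c3, c4⟩⟩ := sq_bounds (mem_sq.2 hw)
    rw [Complex.sub_re, mul_sub] at c1 c2
    rw [Complex.sub_im, mul_sub] at c3 c4
    rw [Finset.mem_product]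
    constructor
    · apply floor_mem_one
      · rw [sub_zero, e1] at *
        linarith
      · rw [sub_zero, e1] at *
        linarith
    · apply floor_mem_one
      · rw [sub_zero, e1] at *
        linarith
      · rw [sub_zero, e1] at *
        linarith

end GRID

open Classical in
theorem GRID_thm (hC : ANL.Stmt_CELL) (hS : Stmt_STRIP) : Stmt_GRID := by
  intro M G u hP k₀ P₀ S hSf
  have hM : 0 ≤ M := by
    have h := hP 0 (0, 0) ∅ (by simp)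
    simpa using h
  have hex : ∀ Q : ℤ × (ℤ × ℤ), ∃ w : ℂ, Q ∈ S → w ∈ G ∩ sq u Q.1 Q.2 := by
    intro Q
    by_cases hQ : Q ∈ S
    · obtain ⟨w, hw⟩ := (hSf Q hQ).2
      exact ⟨w, fun _ => hw⟩
    · exact ⟨0, fun h => absurd h hQ⟩
  choose w hw using hex
  let φ : ℤ × (ℤ × ℤ) → ℤ × (ℤ × ℤ) := fun Q => (Q.1 - 1, cell 0 (Q.1 - 1) (w Q))
  let F : ℤ × (ℤ × ℤ) → ℝ := fun Q => bet G 0 Q.1 Q.2 ^ 2 * (2 : ℝ) ^ (-Q.1)
  have hF : ∀ Q, 0 ≤ F Q := fun Q => by positivity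
  obtain ⟨T, hT, hTm⟩ := GRID.four u k₀ P₀
  -- step 1
  have h1 : ∀ Q ∈ S, bet G u Q.1 Q.2 ^ 2 * (2 : ℝ) ^ (-Q.1) ≤ 2 * F (φ Q) := by
    intro Q hQ
    have h2 := GRID.bet_le hS G (hw Q hQ).2
    have h3 := hS.1 G u Q.1 Q.2
    have h4 : bet G u Q.1 Q.2 ^ 2 ≤ (2 * bet G 0 (Q.1 - 1) (cell 0 (Q.1 - 1) (w Q))) ^ 2 :=
      pow_le_pow_left₀ h3 h2 2
    have h5 : (0 : ℝ) < (2 : ℝ) ^ (-Q.1) := by positivity
    have h6 : (2 : ℝ) ^ (-(Q.1 - 1)) = 2 * (2 : ℝ) ^ (-Q.1) := by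
      rw [show -(Q.1 - 1) = -Q.1 + 1 by ring, zpow_add₀ (by norm_num : (2 : ℝ) ≠ 0), zpow_one]
      ring
    calc bet G u Q.1 Q.2 ^ 2 * (2 : ℝ) ^ (-Q.1) ≤
        (2 * bet G 0 (Q.1 - 1) (cell 0 (Q.1 - 1) (w Q))) ^ 2 * (2 : ℝ) ^ (-Q.1) :=
          mul_le_mul_of_nonneg_right h4 h5.le
      _ = 2 * F (φ Q) := by
          simp only [F, φ]
          rw [h6]
          ring
  -- step 2: multiplicity
  have h2 : ∑ Q ∈ S, 2 * F (φ Q) ≤ ∑ Q' ∈ S.image φ, 9 * (2 * F Q') := by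
    rw [← Finset.sum_fiberwise_of_maps_to (g := φ) (t := S.image φ)
      (fun Q hQ => Finset.mem_image_of_mem φ hQ)]
    refine Finset.sum_le_sum fun Q' hQ' => ?_
    have h3 : ∑ Q ∈ S.filter (fun Q => φ Q = Q'), 2 * F (φ Q) =
        (S.filter (fun Q => φ Q = Q')).card * (2 * F Q') := by
      rw [Finset.sum_congr rfl (g := fun _ => 2 * F Q')
        (fun Q hQ => by rw [(Finset.mem_filter.1 hQ).2]), Finset.sum_const, nsmul_eq_mul]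
    rw [h3]
    refine mul_le_mul_of_nonneg_right ?_ (by have := hF Q'; positivity)
    obtain ⟨U, hU, hUm⟩ := GRID.nine u (Q'.1 + 1) Q'.2
    have h4 : (S.filter (fun Q => φ Q = Q')).card ≤ U.card := by
      refine Finset.card_le_card_of_injOn Prod.snd ?_ ?_
      · intro Q hQ
        have hQ1 := Finset.mem_filter.1 (Finset.mem_coe.1 hQ)
        have e1 : Q.1 - 1 = Q'.1 := congrArg Prod.fst hQ1.2
        have e2 : cell 0 (Q.1 - 1) (w Q) = Q'.2 := congrArg Prod.snd hQ1.2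
        have e3 : cell u Q.1 (w Q) = Q.2 := (hw Q hQ1.1).2
        have e4 : Q.1 = Q'.1 + 1 := by omega
        have h5 := hUm (w Q) (by rw [← e4]; exact e2)
        rw [← e4, e3] at h5
        exact h5
      · intro Q hQ R hR hQR
        have hQ1 := Finset.mem_filter.1 (Finset.mem_coe.1 hQ)
        have hR1 := Finset.mem_filter.1 (Finset.mem_coe.1 hR)
        have e1 : Q.1 - 1 = Q'.1 := congrArg Prod.fst hQ1.2
        have e2 : R.1 - 1 = Q'.1 := congrArg Prod.fst hR1.2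
        exact Prod.ext (by omega) hQR
    rw [hU] at h4
    exact_mod_cast h4
  -- step 3: the four ancestors
  have h3 : ∑ Q' ∈ S.image φ, F Q' ≤ ∑ P ∈ T, ∑ Q' ∈ (S.image φ).filter
      (fun Q' => sq 0 Q'.1 Q'.2 ⊆ sq 0 (k₀ - 1) P), F Q' := by
    have h4 : ∀ Q' ∈ S.image φ, F Q' ≤ ∑ P ∈ T,
        if sq 0 Q'.1 Q'.2 ⊆ sq 0 (k₀ - 1) P then F Q' else 0 := by
      intro Q' hQ'
      obtain ⟨Q, hQ, rfl⟩ := Finset.mem_image.1 hQ'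
      have e1 : k₀ ≤ Q.1 := GRID.level_le (hSf Q hQ).1
      have e2 : cell 0 (k₀ - 1) (w Q) ∈ T := hTm _ ((hSf Q hQ).1 (hw Q hQ).2)
      have e3 : sq 0 (φ Q).1 (φ Q).2 ⊆ sq 0 (k₀ - 1) (cell 0 (k₀ - 1) (w Q)) := by
        intro z hz
        exact hC.1 0 (k₀ - 1) (Q.1 - 1) z (w Q) (by omega) hz
      refine le_trans (le_of_eq ?_) (Finset.single_le_sum (f := fun P =>
        if sq 0 (φ Q).1 (φ Q).2 ⊆ sq 0 (k₀ - 1) P then F (φ Q) else 0) ?_ e2)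
      · rw [if_pos e3]
      · intro P _
        split_ifs
        · exact hF _
        · exact le_rfl
    refine (Finset.sum_le_sum h4).trans (le_of_eq ?_)
    rw [Finset.sum_comm]
    refine Finset.sum_congr rfl fun P _ => ?_
    rw [Finset.sum_filter]
  have h4 : ∀ P ∈ T, ∑ Q' ∈ (S.image φ).filter
      (fun Q' => sq 0 Q'.1 Q'.2 ⊆ sq 0 (k₀ - 1) P), F Q' ≤ M * (2 : ℝ) ^ (-(k₀ - 1)) := by
    intro P _
    refine hP (k₀ - 1) P _ fun Q' hQ' => ?_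
    obtain ⟨hQ1, hQ2⟩ := Finset.mem_filter.1 hQ'
    refine ⟨hQ2, ?_⟩
    obtain ⟨Q, hQ, rfl⟩ := Finset.mem_image.1 hQ1
    exact ⟨w Q, (hw Q hQ).1, rfl⟩
  have h5 := Finset.sum_le_sum h4
  rw [Finset.sum_const, hT, nsmul_eq_mul] at h5
  have h6 : (2 : ℝ) ^ (-(k₀ - 1)) = 2 * (2 : ℝ) ^ (-k₀) := by
    rw [show -(k₀ - 1) = -k₀ + 1 by ring, zpow_add₀ (by norm_num : (2 : ℝ) ≠ 0), zpow_one]
    ring
  have h7 : ∑ Q' ∈ S.image φ, 9 * (2 * F Q') = 18 * ∑ Q' ∈ S.image φ, F Q' := by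
    rw [Finset.mul_sum]
    exact Finset.sum_congr rfl fun _ _ => by ring
  have h8 := Finset.sum_le_sum h1
  rw [h6] at h5
  rw [h7] at h2
  push_cast at h5
  linarith

end Pool.Agent.ANG
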