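import Pool.Agent.ANG.Stmts

/-!
# Elementary properties of the beta numbers (MP_98e313_an, module STRIP)
-/

set_option autoImplicit false

namespace Pool.Agent.ANG

open MeasureTheory Set Pool.Agent.ANL

namespace STRIP

/-- The set in the definition of `bet`. -/
def bs (G : Set ℂ) (u : ℂ) (k : ℤ) (P : ℤ × ℤ) : Set ℝ :=
  {δ : ℝ | 0 ≤ δ ∧ ∃ a v : ℂ, ‖v‖ = 1 ∧
    ∀ z ∈ G ∩ enl u k P, |crs v (z - a)| ≤ δ * (2 : ℝ) ^ (-k)}

theorem bet_eq (G : Set ℂ) (u : ℂ) (k : ℤ) (P : ℤ × ℤ) : bet G u k P = sInf (bs G u k P) := rfl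

theorem bs_bdd (G : Set ℂ) (u : ℂ) (k : ℤ) (P : ℤ × ℤ) : BddBelow (bs G u k P) :=
  ⟨0, fun _ h => h.1⟩

theorem zpow_mul_neg (k : ℤ) (x : ℝ) : (2 : ℝ) ^ (-k) * ((2 : ℝ) ^ k * x) = x := by
  rw [← mul_assoc, ← zpow_add₀ (by norm_num : (2 : ℝ) ≠ 0)]
  simp

theorem bs_nonempty (G : Set ℂ) (u : ℂ) (k : ℤ) (P : ℤ × ℤ) : (bs G u k P).Nonempty := by
  refine ⟨3, by norm_num, u + (((2 : ℝ) ^ (-k) * P.2 : ℝ) : ℂ) * Complex.I, 1, by simp, ?_⟩
  rintro z ⟨-, -, -, h1, h2⟩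
  have hk : (0 : ℝ) < (2 : ℝ) ^ (-k) := by positivity
  have e0 : ∀ c : ℝ, crs 1 (z - (u + (c : ℂ) * Complex.I)) = (z - u).im - c := by
    intro c
    simp [crs]
    ring
  have e : crs 1 (z - (u + (((2 : ℝ) ^ (-k) * P.2 : ℝ) : ℂ) * Complex.I)) =
      (2 : ℝ) ^ (-k) * ((2 : ℝ) ^ k * (z - u).im - P.2) := by
    rw [mul_sub, zpow_mul_neg, e0]
  rw [e, abs_mul, abs_of_pos hk, mul_comm]
  apply mul_le_mul_of_nonneg_right _ hk.le
  rw [abs_le]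
  constructor <;> linarith

theorem crs_id (v a b : ℂ) (hv : ‖v‖ = 1) :
    crs a b = (v.re * a.re + v.im * a.im) * crs v b - (v.re * b.re + v.im * b.im) * crs v a := by
  have h : v.re * v.re + v.im * v.im = 1 := by
    have := Complex.normSq_apply v
    rw [← this, Complex.normSq_eq_norm_sq, hv]
    norm_num
  unfold crs
  linear_combination (-(a.re * b.im - a.im * b.re)) * h

theorem dot_le (v a : ℂ) (hv : ‖v‖ = 1) : |v.re * a.re + v.im * a.im| ≤ ‖a‖ := by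
  have h : v.re * a.re + v.im * a.im = ((starRingEnd ℂ) v * a).re := by
    simp
  rw [h]
  refine (Complex.abs_re_le_norm _).trans ?_
  rw [norm_mul, Complex.norm_conj, hv, one_mul]

theorem crs_sub (v a b : ℂ) : crs v (a - b) = crs v a - crs v b := by
  simp only [crs, Complex.sub_re, Complex.sub_im]
  ring

theorem two_of_mem {G : Set ℂ} {u : ℂ} {k : ℤ} {P : ℤ × ℤ} {δ : ℝ} (hδ : δ ∈ bs G u k P)
    {p p' q q' : ℂ} (hp : p ∈ G ∩ enl u k P) (hp' : p' ∈ G ∩ enl u k P)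
    (hq : q ∈ G ∩ enl u k P) (hq' : q' ∈ G ∩ enl u k P) :
    |crs (p - p') (q - q')| ≤ 2 * (2 : ℝ) ^ (-k) * (‖p - p'‖ + ‖q - q'‖) * δ := by
  obtain ⟨-, a, v, hv, h⟩ := hδ
  have key : ∀ z ∈ G ∩ enl u k P, ∀ z' ∈ G ∩ enl u k P,
      |crs v (z - z')| ≤ 2 * (δ * (2 : ℝ) ^ (-k)) := by
    intro z hz z' hz'
    have e : z - z' = (z - a) - (z' - a) := by ring
    rw [e, crs_sub]
    have h1 := h z hz
    have h2 := h z' hz'
    have h3 := abs_sub (crs v (z - a)) (crs v (z' - a))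
    linarith
  rw [crs_id v (p - p') (q - q') hv]
  have h1 := key q hq q' hq'
  have h2 := key p hp p' hp'
  have h3 := dot_le v (p - p') hv
  have h4 := dot_le v (q - q') hv
  refine (abs_sub _ _).trans ?_
  rw [abs_mul, abs_mul]
  have h5 := mul_le_mul h3 h1 (abs_nonneg _) (norm_nonneg _)
  have h6 := mul_le_mul h4 h2 (abs_nonneg _) (norm_nonneg _)
  calc _ ≤ ‖p - p'‖ * (2 * (δ * (2 : ℝ) ^ (-k))) + ‖q - q'‖ * (2 * (δ * (2 : ℝ) ^ (-k))) :=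
        add_le_add h5 h6
    _ = _ := by ring

theorem enl1 {k l : ℤ} (hkl : k ≤ l) (X Z : ℝ) (h1 : (⌊(2 : ℝ) ^ l * X⌋ : ℝ) - 1 ≤ (2 : ℝ) ^ l * Z)
    (h2 : (2 : ℝ) ^ l * Z ≤ ⌊(2 : ℝ) ^ l * X⌋ + 2) :
    (⌊(2 : ℝ) ^ k * X⌋ : ℝ) - 1 ≤ (2 : ℝ) ^ k * Z ∧ (2 : ℝ) ^ k * Z ≤ ⌊(2 : ℝ) ^ k * X⌋ + 2 := by
  rcases eq_or_lt_of_le hkl with rfl | hlt
  · exact ⟨h1, h2⟩
  · have e : ∀ x : ℝ, (2 : ℝ) ^ k * x = (2 : ℝ) ^ (k - l) * ((2 : ℝ) ^ l * x) := by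
      intro x
      rw [← mul_assoc, ← zpow_add₀ (by norm_num : (2 : ℝ) ≠ 0)]
      congr 2
      ring
    have hc : (2 : ℝ) ^ (k - l) ≤ 1 / 2 := by
      have : (2 : ℝ) ^ (k - l) ≤ (2 : ℝ) ^ (-1 : ℤ) := by
        apply zpow_le_zpow_right₀ (by norm_num)
        omega
      simpa using this
    have hc0 : (0 : ℝ) < (2 : ℝ) ^ (k - l) := by positivity
    have f1 := Int.floor_le ((2 : ℝ) ^ l * X)
    have f2 := Int.lt_floor_add_one ((2 : ℝ) ^ l * X)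
    have g1 := Int.floor_le ((2 : ℝ) ^ k * X)
    have g2 := Int.lt_floor_add_one ((2 : ℝ) ^ k * X)
    have a1 : (2 : ℝ) ^ k * Z ≤ (2 : ℝ) ^ k * X + 1 := by
      rw [e Z, e X]
      nlinarith
    have a2 : (2 : ℝ) ^ k * X - 1 ≤ (2 : ℝ) ^ k * Z := by
      rw [e Z, e X]
      nlinarith
    constructor <;> linarith

theorem near1 {k : ℤ} (X Z : ℝ) (h : |Z - X| ≤ (2 : ℝ) ^ (-k)) :
    (⌊(2 : ℝ) ^ k * X⌋ : ℝ) - 1 ≤ (2 : ℝ) ^ k * Z ∧ (2 : ℝ) ^ k * Z ≤ ⌊(2 : ℝ) ^ k * X⌋ + 2 := by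
  have hk : (0 : ℝ) < (2 : ℝ) ^ k := by positivity
  have f1 := Int.floor_le ((2 : ℝ) ^ k * X)
  have f2 := Int.lt_floor_add_one ((2 : ℝ) ^ k * X)
  have h1 : (2 : ℝ) ^ k * |Z - X| ≤ 1 := by
    calc (2 : ℝ) ^ k * |Z - X| ≤ (2 : ℝ) ^ k * (2 : ℝ) ^ (-k) :=
          mul_le_mul_of_nonneg_left h hk.le
      _ = 1 := by
          rw [← zpow_add₀ (by norm_num : (2 : ℝ) ≠ 0)]
          simp
  have h2 : |(2 : ℝ) ^ k * Z - (2 : ℝ) ^ k * X| ≤ 1 := by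
    rw [← mul_sub, abs_mul, abs_of_pos hk]
    exact h1
  rw [abs_le] at h2
  constructor <;> linarith [h2.1, h2.2]

end STRIP

open STRIP in
theorem STRIP_thm : Stmt_STRIP := by
  refine ⟨?_, ?_, ?_, ?_, ?_⟩
  · intro G u k P
    exact Real.sInf_nonneg fun _ h => h.1
  · intro G u k P p hp p' hp' q hq q' hq'
    rw [bet_eq]
    have hc : 0 ≤ 2 * (2 : ℝ) ^ (-k) * (‖p - p'‖ + ‖q - q'‖) := by positivity
    have key : |crs (p - p') (q - q')| ≤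
        2 * (2 : ℝ) ^ (-k) * (‖p - p'‖ + ‖q - q'‖) * sInf (bs G u k P) := by
      rcases eq_or_lt_of_le hc with h0 | h0
      · obtain ⟨δ, hδ⟩ := bs_nonempty G u k P
        have := two_of_mem hδ hp hp' hq hq'
        rw [← h0, zero_mul] at this
        rw [← h0, zero_mul]
        exact this
      · have h1 : |crs (p - p') (q - q')| / (2 * (2 : ℝ) ^ (-k) * (‖p - p'‖ + ‖q - q'‖)) ≤
            sInf (bs G u k P) := by
          apply le_csInf (bs_nonempty G u k P)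
          intro δ hδ
          rw [div_le_iff₀ h0]
          have := two_of_mem hδ hp hp' hq hq'
          linarith
        rw [div_le_iff₀ h0] at h1
        linarith
    calc _ ≤ _ := key
      _ = _ := by ring
  · intro u k w z h
    have hre : |(z - u).re - (w - u).re| ≤ (2 : ℝ) ^ (-k) := by
      have : (z - u).re - (w - u).re = (z - w).re := by
        simp only [Complex.sub_re]
        ring
      rw [this]
      exact (Complex.abs_re_le_norm _).trans h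
    have him : |(z - u).im - (w - u).im| ≤ (2 : ℝ) ^ (-k) := by
      have : (z - u).im - (w - u).im = (z - w).im := by
        simp only [Complex.sub_im]
        ring
      rw [this]
      exact (Complex.abs_im_le_norm _).trans h
    obtain ⟨a1, a2⟩ := near1 _ _ hre
    obtain ⟨b1, b2⟩ := near1 _ _ him
    exact ⟨a1, a2, b1, b2⟩
  · intro G u k P δ a v hδ hv h
    exact csInf_le (bs_bdd G u k P) ⟨hδ, a, v, hv, h⟩
  · rintro u k l w hkl z ⟨h1, h2, h3, h4⟩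
    obtain ⟨a1, a2⟩ := enl1 hkl _ _ h1 h2
    obtain ⟨b1, b2⟩ := enl1 hkl _ _ h3 h4
    exact ⟨a1, a2, b1, b2⟩

end Pool.Agent.ANG
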