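import Pool.Agent.ANG.Defs

/-!
# Analytic capacity and few curves: module statements (MP_98e313_an)

THEOREM. For every `M` there is `c > 0` such that for all `N ≥ 1` and every `E = E₀ ∪ K₁ ∪ ... ∪ K_N`, `K_i` compact convex,
`E₀` a compact subset of the union of `N` connected sets `Γ_i` with Jones' condition `Pack 0 M Γ_i` (Ahlfors regular curves, for
example Lipschitz graphs, see `Stmt_GRA`): `c H¹_∞(E) ≤ √(1 + log N) γ(E)` and `c Fav(E) ≤ √(1 + log N) γ(E)`.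

The library `Pool/Agent/ANL` (same theorem for `N` lines or circles, see `ANL/PAPER.md`) is used: the curvature of a measure of
linear growth on `N` curves is at most `C (1 + log N)` times its mass. Three points of different curves are treated as in `ANL`
(entropy of the label). New: if the label of `w` is present in all three fine cells, then the curve of `w` is not flat near `w` at
some scale between the short and the long side (chain of directions, `Stmt_CHAIN`), and the sum over these exceptional `w` is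
bounded by a Carleson sum (`Stmt_EXS`, `Stmt_CL`, `Stmt_CARL`), with the classes `2^(-v)` of the density of the label of `w` and a
splitting according to the total density if `2^(-v)` is small compared with `1 / N`.

A statement `Stmt_X` is proved in `Pool/Agent/ANG/X.lean` as `theorem X_thm : Stmt_X`, or `X_thm : Stmt_Y → ... → Stmt_X` if it uses
others. Namespaces `Pool.Agent.ANG` for the theorem, `Pool.Agent.ANG.X` for the auxiliary lemmas.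
-/

set_option autoImplicit false

namespace Pool.Agent.ANG

open MeasureTheory Set Pool.Agent.ANL

/-- STRIP: elementary properties of the beta numbers.
Proof. (0) The set in the definition of `bet` is not empty (`δ = 3`, `a` = the centre, `v = 1`: a point of `enl` has distance
`≤ (3/2) √2 2^(-k)` from the centre, `|crs v (z-a)| ≤ |z-a|`) and bounded below by `0`. (1) clear. (2) For every `δ` of this set (and then
for the infimum, by `le_of_forall_gt_imp_ge_of_dense` or `ε → 0`): for `z, z' ∈ G ∩ enl` `|crs v (z - z')| ≤ 2 δ 2^(-k)`, and for a unit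
vector `v` and all `a, b`: `crs a b = (v·a) crs v b - (v·b) crs v a`, `|v·a| ≤ |a|` (`v·a = v.re a.re + v.im a.im`); take `a = p - p'`, `b = q - q'`.
(3) `2^k (z - u)` differs from `2^k (w - u)` by at most `1` in both coordinates, and `P ≤ 2^k (w-u) < P + 1`. (4) The infimum is at
most `δ`. (5) `cell u l` determines `cell u k` (see ANL `Stmt_CELL` (1)) for `k ≤ l`, and if `2^k (w-u)` is in `[P, P+1)` and `z` is in the
threefold square of level `l`, then the coordinates of `2^k (z - w)` are at most `2 · 2^(k-l)`: if `k < l` this is `≤ 1`, if `k = l` clear. -/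
def Stmt_STRIP : Prop :=
  (∀ (G : Set ℂ) (u : ℂ) (k : ℤ) (P : ℤ × ℤ), 0 ≤ bet G u k P) ∧
  (∀ (G : Set ℂ) (u : ℂ) (k : ℤ) (P : ℤ × ℤ), ∀ p ∈ G ∩ enl u k P, ∀ p' ∈ G ∩ enl u k P,
    ∀ q ∈ G ∩ enl u k P, ∀ q' ∈ G ∩ enl u k P,
    |crs (p - p') (q - q')| ≤ 2 * bet G u k P * (2 : ℝ) ^ (-k) * (‖p - p'‖ + ‖q - q'‖)) ∧
  (∀ (u : ℂ) (k : ℤ) (w z : ℂ), ‖z - w‖ ≤ (2 : ℝ) ^ (-k) → z ∈ enl u k (cell u k w)) ∧
  (∀ (G : Set ℂ) (u : ℂ) (k : ℤ) (P : ℤ × ℤ) (δ : ℝ) (a v : ℂ), 0 ≤ δ → ‖v‖ = 1 →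
    (∀ z ∈ G ∩ enl u k P, |crs v (z - a)| ≤ δ * (2 : ℝ) ^ (-k)) → bet G u k P ≤ δ) ∧
  (∀ (u : ℂ) (k l : ℤ) (w : ℂ), k ≤ l → enl u l (cell u l w) ⊆ enl u k (cell u k w))

/-- CHAIN (uses STRIP): the chain of directions along the curve.
Proof. Write `β_k = bet Γ u k (cell u k w)`, `S(a,b) = |crs a b| / (|a| |b|)` for `a, b ≠ 0`. Then `S(a,c) ≤ S(a,b) + S(b,c)`, because
`crs a c (b·b) = crs a b (b·c) + crs b c (a·b)`. STRIP (2): for `p, p', q, q' ∈ Γ ∩ enl u k (cell u k w)` with `p ≠ p'`, `q ≠ q'`: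
`S(p-p', q-q') ≤ 2 β_k 2^(-k) (1/|p-p'| + 1/|q-q'|)`. One of `|y'-w|`, `|x'-w|` is at least `2^(-q)/1140 ≥ 2^(-q-11)`, and `Γ` is connected: for
every `k ≥ q` there is `u_k ∈ Γ` with `|u_k - w| = 2^(-k-11)` (the image of `Γ` under `z ↦ ‖z - w‖` is an interval containing `0` and a number
`≥ 2^(-q-11)`: `IsPreconnected.intermediate_value`). `u_k` is in `enl u l (cell u l w)` for all `l ≤ k + 11` (STRIP (3)). Start:
`S(z'-x', u_p - w) ≤ 2 β_p (18 + 2048)`. Steps, `q < k ≤ p`: `S(u_k - w, u_(k-1) - w) ≤ 2 β_(k-1) 2^(-(k-1)) (2^(k+11) + 2^(k+10)) = 12288 β_(k-1)`.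
End: `S(u_q - w, y'-x') ≤ 2 β_q (2048 + 570)`. So by induction on the steps `S(z'-x', u_k - w) ≤ 4132 β_p + 12288 ∑_{k ≤ l < p} β_l`, and in total
`≤ 22000 ∑_{q ≤ k ≤ p} β_k`. If `z' = x'` or `y' = x'` is impossible by the hypotheses. -/
def Stmt_CHAIN : Prop := ∀ (Γ : Set ℂ) (u : ℂ) (q p : ℤ) (w x' z' y' : ℂ), IsPreconnected Γ → q ≤ p →
  w ∈ Γ → x' ∈ Γ → z' ∈ Γ → y' ∈ Γ →
  x' ∈ enl u p (cell u p w) → z' ∈ enl u p (cell u p w) → y' ∈ enl u q (cell u q w) →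
  (2 : ℝ) ^ (-p) ≤ 18 * ‖z' - x'‖ → (2 : ℝ) ^ (-q) ≤ 570 * ‖y' - x'‖ →
  |crs (z' - x') (y' - x')| ≤
    22000 * (‖z' - x'‖ * ‖y' - x'‖) * ∑ k ∈ Finset.Icc q p, bet Γ u k (cell u k w)

/-- TRI (uses ANL GEOM, ANL CELL, STRIP, CHAIN): every triple has a type.
Proof. As `ANL/TRI.lean` up to the last item of `Pw`. Last item: let `w ∈ X`, `cell (sh K ω') (-b-4) w = cell .. x`, `i = lab w`, and let `x', z', y' ∈ X` with label
`i` be in the fine cells of `x, z, y`; `q = (1/2)^j`, `η = (3/64) q`. As there `|x'-x|, |z'-z| ≤ η s`, `|y'-y| ≤ η r`, and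
`(1/8) q s r < |crs (z'-x') (y'-x')|` (from GEOM and `q/2 < σ`), `|z'-x'| ≤ (11/10) s`, `|y'-x'| ≤ (11/10) r`. CHAIN for `Γ i`, `u = sh K ω'`, `p = -b-4`, `q = -d-9`:
`x' ∈ enl u p (cell u p x)` and `z' ∈ enl u p (cell u p z)` by STRIP (3) (`2^(-p) = 16 · 2^b`), and these cells are the cell of `w`; `y' ∈ enl u q (cell u q w)` by STRIP (3):
`|y'-w| ≤ |y'-y| + |y-x| + |x-w| ≤ 2^d + 2·2^d + 24·2^b ≤ 512·2^d = 2^(-q)` (CELL (2) for `|x-w| ≤ (3/2) 16·2^b`). `|z'-x'| ≥ (9/10) s ≥ (9/10) 2^b`, `18·(9/10)/16 ≥ 1`;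
`|y'-x'| ≥ (1 - 6/64) r ≥ (29/32) 2^d`, `570·(29/32)/512 ≥ 1`. So `(1/8) q s r < 22000 (11/10)² s r ∑ β_k`, i.e. `q < 212960 ∑ β_k`. -/
def Stmt_TRI : Prop := ∀ (N : ℕ) (lab : ℂ → Fin N) (Γ : Fin N → Set ℂ) (X : Finset ℂ) (K : ℕ),
  (∀ i, IsPreconnected (Γ i)) → (∀ x ∈ X, x ∈ Γ (lab x)) →
  ∀ x ∈ X, ∀ z ∈ X, ∀ y ∈ X, 0 < ‖z - x‖ → ‖z - x‖ ≤ ‖y - x‖ →
  ‖z - x‖ ≤ ‖y - z‖ → 1024 * ‖y - x‖ ≤ 2 ^ K → crs (z - x) (y - x) ≠ 0 →
  ∃ (b d : ℤ) (j : ℕ) (ω' ω : Bool × Bool), b ≤ d ∧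
    (2 : ℝ) ^ b ≤ ‖z - x‖ ∧ ‖z - x‖ < (2 : ℝ) ^ (b + 1) ∧
    (2 : ℝ) ^ d ≤ ‖y - x‖ ∧ ‖y - x‖ < (2 : ℝ) ^ (d + 1) ∧
    |crs (z - x) (y - x)| ≤ (1 / 2) ^ j * (‖z - x‖ * ‖y - x‖) ∧
    cu x z y ≤ 16 * (1 / 4) ^ j / (4 : ℝ) ^ d ∧
    Pw X lab (cell (sh K ω') (-b - 4)) (cell (sh K ω') (-b - 4 + (j + 14 : ℕ)))
      (cell (sh K ω) (-d - 9)) (cell (sh K ω) (-d - 9 + (j + 14 : ℕ)))
      (exw Γ lab (sh K ω') b d j) x z y

open Classical in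
/-- HSUM: the sum over the triples of one type.
Proof. As `ANL/HSUM.lean`; the fourth indicator is `1[e w]` instead of `1[e (lab w)]`, and its contribution is kept:
`∑_w (m w / Mc f' w) Mc f' w Mc f' w Mc f w 1[e w] = ∑_{w, e w} m w Mc f' w Mc f w`; for the others use `Mc f' w Mc f w ≤ A B`. -/
def Stmt_HSUM : Prop := ∀ (N : ℕ) (X : Finset ℂ) (m : ℂ → ℝ) (lab : ℂ → Fin N)
  (f' g' f g : ℂ → ℤ × ℤ) (e : ℂ → Prop) (A B : ℝ), (∀ x ∈ X, 0 < m x) →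
  (∀ w ∈ X, Mc X m f' w ≤ A) → (∀ w ∈ X, Mc X m f w ≤ B) →
  ∑ x ∈ X, ∑ z ∈ X, ∑ y ∈ X, (if Pw X lab f' g' f g e x z y then m x * m z * m y else 0) ≤
    A * B * (2 * Sm X m f' g' lab + Sm X m f g lab) +
      ∑ w ∈ X.filter e, m w * (Mc X m f' w * Mc X m f w)

/-- TSUM (uses ANL CELL, TRI, HSUM): the sum over all triples with shortest first side.
Proof. As `ANL/TSUM.lean` (`B0 = Int.log 2 ε`, so `ε < 2^(B0+1)`). The bound of one type (b,d,j,ω',ω) is `16 (1/4)^j / 4^d` times HSUM with `A = 24 · 2^b`, `B = 768 · 2^d`: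
`≤ 16 · 24 · 768 · Wt X m lab (fun _ => 0) K b d j ω' ω + 16 Wx ...`; here `Me X m lab (ex (fun _ => 0) d j) = 0` because `ex` is false for `κ = 0`
(or `≥ 0`, which is enough), and `Wx ≥ 0`. -/
def Stmt_TSUM : Prop := ∀ (N : ℕ) (lab : ℂ → Fin N) (Γ : Fin N → Set ℂ) (X : Finset ℂ) (m : ℂ → ℝ)
  (ε : ℝ) (K : ℕ), 0 < ε → (∀ x ∈ X, 0 < m x) → Grow X m ε →
  (∀ i, IsPreconnected (Γ i)) → (∀ x ∈ X, x ∈ Γ (lab x)) →
  (∀ x ∈ X, ∀ y ∈ X, 1024 * ‖y - x‖ ≤ 2 ^ K) →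
  ∃ (B0 B1 : ℤ) (J : ℕ), ε ≤ 2 * (2 : ℝ) ^ B0 ∧ T1 X m ε ≤ 16 * 24 * 768 *
    ∑ d ∈ Finset.Icc B0 B1, ∑ b ∈ Finset.Icc B0 d, ∑ j ∈ Finset.range J,
      ∑ ω' : Bool × Bool, ∑ ω : Bool × Bool,
        (Wt X m lab (fun _ => 0) K b d j ω' ω + Wx X m Γ lab K b d j ω' ω)

/-- EXS (uses ANL CELL, STRIP (1)): the sum over the exceptional points.
Proof. Fix `w ∈ X`, `ω'`, `ω`, `b ≤ d` in `[B0, B1]`, and put `p = -b-4`, `q = -d-9` (so `q ≤ p`), `β_k = al Γ lab (sh K ω') k w ≥ 0`, `t = 250000 ∑_{q ≤ k ≤ p} β_k`,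
`μ_k = Mc X m (cell (sh K ω') k) w`, and `μ'_q = Mc X m (cell (sh K ω) q) w`. The sum over `j` of `(1/4)^j` with `(1/2)^j < t` is `≤ (4/3) t²` (let `j₀` be the least such `j`), and
`t² ≤ 250000² (p-q+1) ∑_k β_k²` (`sq_sum_le_card_mul_sum_sq`). Growth (the cell of level `k` of `w` is in the ball of radius `(3/2) 2^(-k)` about `w`, CELL (2); this radius is
`≥ ε` for `k ≤ -B0-4`): `μ'_q ≤ 768 · 2^d`, so `μ'_q / 4^d ≤ 768 · 512 · 2^q`; `μ_p ≤ (3/2) 2^(-p)`, and for `q ≤ k ≤ p` also `μ_p ≤ μ_k` (CELL (1)), so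
`μ_p ≤ √((3/2) 2^(-p) μ_k) ≤ 2 · 2^(-k) (3/4)^(p-k) √(μ_k 2^k)` (as `√(1/2) ≤ 3/4`, `√(3/2) ≤ 2`). So the contribution of `w` is at most a constant times
`∑_{ω'} ∑_k β_k² √(μ_k 2^k) ∑_{q ≤ k ≤ p} (p-q+1) 2^(q-k) (3/4)^(p-k)`, and `∑_{i, l ≥ 0} (i+l+1) 2^(-i) (3/4)^l ≤ 40` (finite partial sums:
`∑ 2^(-i) ≤ 2`, `∑ i 2^(-i) ≤ 2`, `∑ (3/4)^l ≤ 4`, `∑ l (3/4)^l ≤ 12`). -/
def Stmt_EXS : Prop := ∃ C : ℝ, 0 < C ∧ ∀ (N : ℕ) (lab : ℂ → Fin N) (Γ : Fin N → Set ℂ)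
  (X : Finset ℂ) (m : ℂ → ℝ) (ε : ℝ) (K : ℕ), 0 < ε → (∀ x ∈ X, 0 < m x) → Grow X m ε →
  ∀ (B0 B1 : ℤ) (J : ℕ), ε ≤ 2 * (2 : ℝ) ^ B0 →
  ∑ d ∈ Finset.Icc B0 B1, ∑ b ∈ Finset.Icc B0 d, ∑ j ∈ Finset.range J,
      ∑ ω' : Bool × Bool, ∑ ω : Bool × Bool, Wx X m Γ lab K b d j ω' ω ≤
    C * ∑ ω' : Bool × Bool, TH X m Γ lab (sh K ω') (-B1 - 9) (-B0 - 4)

open Classical in
/-- CL (uses ANL CELL (1), STRIP (1)): one label, squares of comparable label density.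
`P k w` only depends on the cell of `w` (among the points of label `i`).
Proof. Let `W` be the set of the `w ∈ X` with label `i` such that `P k w` for some `k ∈ [a,b]`, `k₀(w)` the least such `k`, `R(w) = (k₀(w), cell u k₀(w) w)` (the maximal square). If `w ∈ W` and
`w' ∈ X` has label `i` and is in the cell `R(w)`, then `P k₀(w) w'`, and `k₀(w') = k₀(w)` (if `P k w'` with `k < k₀(w)`, then `w` and `w'` are in the same cell of level `k` too, so `P k w`): so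
`R(w') = R(w)`, and the fibres of `R : W → ...` have mass `Mi X m (cell u k₀(w)) lab w`. Squares `R(w)`, `R(w')` which have a common point of `X` are equal (the one of smaller level contains the
other, which contains `w'`, say; then `P k₀(w) w'`...). (1) Let `R` be such a square of level `k₀`, and `F ⊆ W` its fibre. `∑_{w ∈ F} m w ∑_{k, P k w} β_k(w)² = ∑_k ∑_Q β(Q)² m{w ∈ F : cell u k w = Q, P k w}`
where `Q` runs over the cells of level `k ≥ k₀` of the points `w ∈ F` with `P k w`; this mass is at most `Mi X m (cell u k) lab w ≤ c₂ 2^(-k)` (for one such `w`; all the points of label `i` in `Q`), so the sum is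
`≤ c₂ ∑_(k,Q) β(Q)² 2^(-k) ≤ c₂ M 2^(-k₀)` by `Pack` for the finite set `S` of these `(k,Q)` (`Q ⊆ R`, `w ∈ Γ ∩ Q`), `≤ (c₂/c₁) M m(F)` as `m(F) = Mi X m (cell u k₀) lab w ≥ c₁ 2^(-k₀)`. Sum over `R`.
(2) `m(F) = Mi ≤ ρ Mc X m (cell u k₀) w`, and the cells `R` are disjoint on `X`, so `∑_R Mc ≤ ∑_{x ∈ X} m x`. -/
def Stmt_CL : Prop := ∀ (N : ℕ) (X : Finset ℂ) (m : ℂ → ℝ) (lab : ℂ → Fin N) (i : Fin N) (G : Set ℂ)
  (M : ℝ) (u : ℂ) (a b : ℤ) (P : ℤ → ℂ → Prop) (c₁ c₂ ρ : ℝ), (∀ x ∈ X, 0 < m x) →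
  (∀ x ∈ X, lab x = i → x ∈ G) → Pack u M G → 0 < c₁ → 0 ≤ c₂ → 0 ≤ ρ →
  (∀ k, ∀ w ∈ X, ∀ w' ∈ X, lab w = i → lab w' = i → cell u k w = cell u k w' → P k w → P k w') →
  (∀ k ∈ Finset.Icc a b, ∀ w ∈ X, lab w = i → P k w →
    c₁ * (2 : ℝ) ^ (-k) ≤ Mi X m (cell u k) lab w ∧
      Mi X m (cell u k) lab w ≤ c₂ * (2 : ℝ) ^ (-k)) →
  (∑ w ∈ X.filter (fun w => lab w = i), m w *
      ∑ k ∈ (Finset.Icc a b).filter (fun k => P k w), bet G u k (cell u k w) ^ 2 ≤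
    c₂ / c₁ * M *
      ∑ w ∈ X.filter (fun w => lab w = i ∧ ∃ k ∈ Finset.Icc a b, P k w), m w) ∧
  ((∀ k ∈ Finset.Icc a b, ∀ w ∈ X, lab w = i → P k w →
      Mi X m (cell u k) lab w ≤ ρ * Mc X m (cell u k) w) →
    ∑ w ∈ X.filter (fun w => lab w = i ∧ ∃ k ∈ Finset.Icc a b, P k w), m w ≤
      ρ * ∑ w ∈ X, m w)

/-- CARL (uses STRIP (1), CL): the Carleson sum.
Proof. We may take `M ≥ 0` (`Pack` for `S = ∅`, `N ≥ 1`). Put `θ k w = Mc X m (cell u k) w 2^k / 2`, `θ' k w = Mi X m (cell u k) lab w 2^k / 2`, so `0 < θ' ≤ θ ≤ 1` for `w ∈ X`, `k ∈ [a,b]`. For `v : ℕ` the class `v` is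
`(1/2)^(v+1) < θ' k w ≤ (1/2)^v` (`exists_nat_pow_near_of_lt_one` or similar); only finitely many classes `v < V` occur. So `TH ≤ √2 ∑_{v < V} T_v`, `T_v = ∑_w m w ∑_{k in class v} β_k(w)² √(θ k w)`. `T_v = ∑_i` (part of the label `i`); CL is
used for each label `i` with `G = Γ i`, `c₁ = (1/2)^v`, `c₂ = 2 (1/2)^v`. Let `L = ⌈4 log N⌉₊`, so `N (3/4)^L ≤ 1` (`4 log(4/3) ≥ 1`: `exp 1 ≤ 256/81`... `(4/3)^4 = 3.16 > 2.7183`). (a) `v < L`, `P` = class `v`: `T_v ≤ 2 M ∑ m`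
(`√θ ≤ 1`). (b) `v ≥ L`, `P` = class `v` and `θ k w ≤ N (3/4)^v`: `√θ ≤ √(N (3/4)^L) √((3/4)^(v-L)) ≤ (7/8)^(v-L)`, so this part of `T_v` is `≤ 2 M (7/8)^(v-L) ∑ m`. (c) `v ≥ L`, `P` = class `v` and `θ k w > N (3/4)^v`: here
`Mi ≤ ρ Mc` with `ρ = (1/2)^v / (N (3/4)^v) = (2/3)^v / N`, so by CL (1), (2) the part of the label `i` is `≤ 2 M ρ ∑ m`, and the sum over the `N` labels is `≤ 2 M (2/3)^v ∑ m`. Total
`≤ √2 (2 M (4 log N + 1) + 16 M + 6 M) ∑ m`. (The predicates only depend on the cell for points of the same label: `Mc` and `Mi` do.) -/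
def Stmt_CARL : Prop := ∀ M : ℝ, ∃ C : ℝ, 0 < C ∧ ∀ (N : ℕ) (lab : ℂ → Fin N) (Γ : Fin N → Set ℂ)
  (X : Finset ℂ) (m : ℂ → ℝ) (u : ℂ) (a b : ℤ), 1 ≤ N → (∀ x ∈ X, 0 < m x) →
  (∀ x ∈ X, x ∈ Γ (lab x)) → (∀ i, Pack u M (Γ i)) →
  (∀ k ∈ Finset.Icc a b, ∀ w ∈ X, Mc X m (cell u k) w ≤ 2 * (2 : ℝ) ^ (-k)) →
  TH X m Γ lab u a b ≤ C * (1 + Real.log N) * ∑ x ∈ X, m x

/-- GRID (uses ANL CELL (1), STRIP): one grid is enough.
Proof. Let `S` be a family for the grid `u` in the square `R = sq u k₀ P₀`. Every `Q = (k, P) ∈ S` contains a point `w_Q ∈ G` (choose it); `k ≥ k₀` (`sq u k P ⊆ sq u k₀ P₀` and the sides: if `k < k₀` then `sq u k P` contains two points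
whose distance in a coordinate is `≥ 2^(-k₀)`). Put `Q' = (k-1, cell 0 (k-1) w_Q)`. `enl u k P ⊆ enl 0 (k-1) Q'.2`: a point `z` of `enl u k P` differs from `w_Q` by at most `2 · 2^(-k)` in each coordinate, as in STRIP (3). So by
STRIP (4) `bet G u k P ≤ 2 bet G 0 (k-1) Q'.2` (a strip of half width `δ 2^(-(k-1)) = 2 δ 2^(-k)`; let `δ` tend to the infimum). The map `Q ↦ Q'` takes every value at most `9` times (a square of side `2` meets at most `3`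
intervals `[n, n+1)` shifted by any number, in each coordinate). All the `Q'` are in the squares `sq 0 (k₀-1) P''` with `P'' = cell 0 (k₀-1) w_Q` (CELL (1)), `w_Q ∈ R`: at most `4` different `P''` (an interval of length `1` meets at most `2` intervals of length `2`). So
`∑_Q bet² 2^(-k) ≤ ∑_Q 4 bet(Q')² 2^(-k) = ∑_Q 2 bet(Q')² 2^(-(k-1)) ≤ 2 · 9 · 4 · M 2^(-(k₀-1)) = 144 M 2^(-k₀)`. -/
def Stmt_GRID : Prop := ∀ (M : ℝ) (G : Set ℂ) (u : ℂ), Pack 0 M G → Pack u (144 * M) G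

/-- DOR: Lipschitz functions are close to their chords.
Proof. Write `l = le t k n`, `r = le t k (n+1) = l + 2^(-k)`, `c = le t (k+1) (2n+1) = l + 2^(-k-1)`, `le t (k+1) (2n) = l`, `le t (k+1) (2n+2) = r`. (1) On `[l,r]` `|f - cho| ≤ 2 Λ 2^(-k)`, so the set in `om` is bounded; it contains `0`. (2) by
definition of the supremum. (3) Recursion: `om f t k n ≤ |dsl f t k n| / 4 + max (om f t (k+1) (2n)) (om f t (k+1) (2n+1)) / 2`: for `x` in the left half, `|f x - cho_k x| ≤ |f x - cho_(k+1,2n) x| + |cho_(k+1,2n) x - cho_k x|`, and the last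
difference is an affine function which is `0` at `l` and `f c - (f l + f r)/2 = - dsl 2^(-k)/4` at `c`; the same for the right half. (4) `(A/4 + m/2)² ≤ 3 A²/16 + 3 m²/8` (`(a+b)² ≤ 3 a² + (3/2) b²`). (5) Let
`sl k n = (f r - f l) 2^k`, `|sl| ≤ Λ`. `2 sl k n = sl (k+1) (2n) + sl (k+1) (2n+1)`, `dsl = sl (k+1) (2n+1) - sl (k+1) (2n)`: `sl (k+1) (2n)² + sl (k+1) (2n+1)² = 2 sl k n² + dsl²/2`. Let `D_j` be the set of the `2^j` indices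
`n₀ 2^j ≤ n < (n₀+1) 2^j` (level `k₀ + j`), `G_j = ∑_{n ∈ D_j} dsl² 2^(-k₀-j)`, `F_j = ∑_{n ∈ D_j} om² 2^(-k₀-j)`, `E_j = ∑ sl² 2^(-k₀-j)`: `G_j = 4 (E_(j+1) - E_j)`, so `∑_{j<T} G_j ≤ 4 Λ² 2^(-k₀)`; by (3), (4)
`F_j ≤ (3/16) G_j + (3/4) F_(j+1)`, `F_T ≤ 4 Λ² 2^(-k₀)`; so `(1/4) ∑_{j<T} F_j ≤ (3/16) ∑ G_j + (3/4) F_T ≤ (15/4) Λ² 2^(-k₀)` and `∑_{j ≤ T} F_j ≤ 19 Λ² 2^(-k₀)`. Every finite `S` is contained in `⋃_{j ≤ T} {k₀ + j} × D_j`. -/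
def Stmt_DOR : Prop := ∀ (f : ℝ → ℝ) (Λ t : ℝ), 0 ≤ Λ → (∀ x y, |f x - f y| ≤ Λ * |x - y|) →
  (∀ k n, 0 ≤ om f t k n) ∧
  (∀ k n, ∀ x ∈ Icc (le t k n) (le t k (n + 1)),
    |f x - cho f t k n x| ≤ om f t k n * (2 : ℝ) ^ (-k)) ∧
  ∀ (k₀ n₀ : ℤ) (S : Finset (ℤ × ℤ)),
    (∀ J ∈ S, k₀ ≤ J.1 ∧ n₀ * 2 ^ (J.1 - k₀).toNat ≤ J.2 ∧ J.2 < (n₀ + 1) * 2 ^ (J.1 - k₀).toNat) →
    ∑ J ∈ S, om f t J.1 J.2 ^ 2 * (2 : ℝ) ^ (-J.1) ≤ 20 * Λ ^ 2 * (2 : ℝ) ^ (-k₀)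

/-- GRA (uses ANL CELL, STRIP, DOR): Lipschitz graphs satisfy Jones' condition.
Proof. `gr v f` is the image of `ℝ` under a continuous map (`f` is continuous). Let `S` be a family of squares (grid `0`) in `R = sq 0 k₀ P₀`, `k ≥ k₀` for `(k,P) ∈ S` (as in GRID). Choose for every `Q = (k,P) ∈ S` a point
`w_Q = v (x_Q + i f(x_Q)) ∈ Q`. If `z = v (x + i f x) ∈ enl 0 k P` then `|x - x_Q| ≤ |z - w_Q| ≤ 3 · 2^(-k)` (both coordinates at most `2 · 2^(-k)`). Let `K : ℕ`, `6 - k₀ ≤ K`. By ANL CELL (3) (for the point `x_Q` of `ℂ`,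
level `κ = k - 6 ≥ -K`, `ρ = 3 · 2^(-k)`, real parts) there is `t ∈ {0, 2^K/3}` such that `[x_Q - 3·2^(-k), x_Q + 3·2^(-k)]` is contained in the dyadic interval `J_Q = (κ, n)` shifted by `t`. Let `A = cho f t κ n`, of slope `s`: for such a `z`
the distance to the line through `v (l + i A(l))` with direction `v (1 + i s)/√(1+s²)` satisfies `|crs| = |f x - A x|/√(1+s²) ≤ om f t κ n · 64 · 2^(-k)`. So by STRIP (4) `bet(Q) ≤ 64 om(t,κ,n)`. Multiplicity: the `Q ∈ S` with the same `k` and the same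
`(t, n)` have points `w_Q` with `|x_Q - x_Q'| ≤ 64·2^(-k)`, `|w_Q - w_Q'| ≤ (1+Λ) 64·2^(-k)`, so their indices `P` differ by at most `D = 64 (1+Λ) + 1` in each coordinate: at most `(2D+1)²` of them. Packing: `w_Q ∈ R`, so
`|x_Q - x_Q'| ≤ 2·2^(-k₀) ≤ 2^(-(k₀-6))` for all `Q, Q' ∈ S`, and the ancestors of level `k₀ - 6` of the `J_Q` with the same `t` (they contain `x_Q`) are at most `2` different ones. By DOR
`∑_Q bet(Q)² 2^(-k) ≤ (2D+1)² 64² ∑_J om(J)² 2^(-κ)/64 ≤ (2D+1)² · 64 · 2 · 2 · 20 Λ² · 64 · 2^(-k₀)`. -/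
def Stmt_GRA : Prop := ∀ Λ : ℝ, 0 ≤ Λ → ∃ M : ℝ, ∀ (f : ℝ → ℝ) (v : ℂ), ‖v‖ = 1 →
  (∀ x y, |f x - f y| ≤ Λ * |x - y|) → IsPreconnected (gr v f) ∧ Pack 0 M (gr v f)

end Pool.Agent.ANG
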