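import Pool.Agent.ANG.Stmts
import Pool.Agent.ANL.TRI

set_option autoImplicit false

namespace Pool.Agent.ANG

open MeasureTheory Set Pool.Agent.ANL

theorem TRI_thm : ANL.Stmt_GEOM → ANL.Stmt_CELL → Stmt_STRIP → Stmt_CHAIN → Stmt_TRI := by
  rintro hGEOM ⟨_, hC2, hC3⟩ hSTRIP hCHAIN N lab Γ X K hpre hmem x hx z hz y hy hs0 hsr hsyz hK hne
  set s : ℝ := ‖z - x‖ with hs
  set r : ℝ := ‖y - x‖ with hr
  have hr0 : 0 < r := hs0.trans_le hsr
  obtain ⟨b, hb1, hb2⟩ := exists_mem_Ico_zpow hs0 (one_lt_two (α := ℝ))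
  obtain ⟨d, hd1, hd2⟩ := exists_mem_Ico_zpow hr0 (one_lt_two (α := ℝ))
  have hB0 : (0 : ℝ) < 2 ^ b := by positivity
  have hD0 : (0 : ℝ) < 2 ^ d := by positivity
  have hbd : b ≤ d := by
    have h1 : (2 : ℝ) ^ b < 2 ^ (d + 1) := (hb1.trans hsr).trans_lt hd2
    have := (zpow_lt_zpow_iff_right₀ (one_lt_two (α := ℝ))).1 h1
    omega
  have hC0 : 0 < |crs (z - x) (y - x)| := abs_pos.2 hne
  have hCle : |crs (z - x) (y - x)| ≤ s * r := ANL.TRI.crs_le _ _
  have hsrp : 0 < s * r := mul_pos hs0 hr0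
  set σ : ℝ := |crs (z - x) (y - x)| / (s * r) with hσ
  have hσ0 : 0 < σ := div_pos hC0 hsrp
  have hσ1 : σ ≤ 1 := by rw [hσ, div_le_one hsrp]; exact hCle
  have hσe : |crs (z - x) (y - x)| = σ * (s * r) := by rw [hσ]; field_simp
  obtain ⟨j, hj1, hj2⟩ := exists_nat_pow_near_of_lt_one hσ0 hσ1
    (show (0 : ℝ) < 1 / 2 by norm_num) (by norm_num)
  have hKd : -(K : ℤ) ≤ -d - 9 := by
    have h1 : (2 : ℝ) ^ (d + 9) ≤ 2 ^ (K : ℤ) := by
      rw [zpow_natCast, zpow_add₀ (by norm_num)]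
      norm_num
      linarith
    have := (zpow_le_zpow_iff_right₀ (one_lt_two (α := ℝ))).1 h1
    omega
  obtain ⟨ω', hω'⟩ := hC3 K (-b - 4) (by omega) (2 ^ (b + 1)) (ANL.TRI.zpk4 b).le x
  obtain ⟨ω, hω⟩ := hC3 K (-d - 9) hKd (2 ^ (d + 6)) (ANL.TRI.zpk9 d).le x
  have hBD : (2 : ℝ) ^ b ≤ 2 ^ d := zpow_le_zpow_right₀ one_le_two hbd
  refine ⟨b, d, j, ω', ω, hbd, hb1, hb2, hd1, hd2, ?_, ?_, ?_, ?_, ?_, ?_⟩
  · rw [hσe]
    exact mul_le_mul_of_nonneg_right hj2 hsrp.le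
  · -- curvature
    have hzy : r ≤ 2 * ‖z - y‖ := by
      have h1 : r ≤ s + ‖y - z‖ := by
        rw [hr, hs]
        have : y - x = (z - x) + (y - z) := by ring
        rw [this]
        exact norm_add_le _ _
      have h2 : ‖z - y‖ = ‖y - z‖ := norm_sub_rev _ _
      rw [h2]
      linarith
    have hzy0 : 0 < ‖z - y‖ := by linarith
    unfold cu
    have e1 : ‖x - z‖ = s := norm_sub_rev _ _
    have e3 : crs (z - x) (y - x) ^ 2 = (σ * (s * r)) ^ 2 := by
      rw [← hσe, sq_abs]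
    rw [e1, e3]
    have h4 : 4 * (σ * (s * r)) ^ 2 / (s ^ 2 * ‖z - y‖ ^ 2 * r ^ 2) = 4 * σ ^ 2 / ‖z - y‖ ^ 2 := by
      field_simp
    rw [h4, div_le_div_iff₀ (by positivity) (by positivity)]
    have h5 : σ ^ 2 ≤ (1 / 4) ^ j := by
      have : σ ^ 2 ≤ ((1 / 2) ^ j) ^ 2 := by gcongr
      have e : (((1 : ℝ) / 2) ^ j) ^ 2 = (1 / 4) ^ j := by
        rw [← pow_mul, mul_comm, pow_mul]; norm_num
      rwa [e] at this
    have h6 : (4 : ℝ) ^ d ≤ (2 * ‖z - y‖) ^ 2 := by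
      have e : (4 : ℝ) ^ d = ((2 : ℝ) ^ d) ^ 2 := by
        rw [← zpow_natCast, ← zpow_mul, mul_comm, zpow_mul]; norm_num
      rw [e]
      have : (2 : ℝ) ^ d ≤ 2 * ‖z - y‖ := hd1.trans hzy
      gcongr
    have h7 : 0 < (4 : ℝ) ^ d := by positivity
    calc 4 * σ ^ 2 * (4 : ℝ) ^ d ≤ 4 * (1 / 4) ^ j * (2 * ‖z - y‖) ^ 2 := by
          gcongr
      _ = 16 * (1 / 4) ^ j * ‖z - y‖ ^ 2 := by ring
  · exact hω' z hb2.le
  · refine hω y ?_
    rw [ANL.TRI.zp6]
    rw [ANL.TRI.zp1] at hd2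
    linarith
  · intro w _ hw
    refine hω w ?_
    have h1 := hC2 _ _ _ _ hw
    rw [ANL.TRI.zpn4] at h1
    rw [ANL.TRI.zp6]
    linarith
  · rintro w hwX hw ⟨x', hx', hx'g, hx'l⟩ ⟨z', hz', hz'g, hz'l⟩ ⟨y', hy', hy'g, hy'l⟩
    have h1 := hC2 _ _ _ _ hx'g
    have h2 := hC2 _ _ _ _ hz'g
    have h3 := hC2 _ _ _ _ hy'g
    rw [ANL.TRI.zpf4] at h1 h2
    rw [ANL.TRI.zpf9] at h3
    set q : ℝ := (1 / 2) ^ j with hq
    have hq0 : 0 < q := by rw [hq]; positivity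
    have hq1 : q ≤ 1 := by rw [hq]; exact pow_le_one₀ (by norm_num) (by norm_num)
    set η : ℝ := 3 / 64 * q with hη
    have hη0 : 0 ≤ η := by rw [hη]; positivity
    have hη1 : η ≤ 1 / 2 := by rw [hη]; linarith
    have hη2 : η ≤ 3 / 64 := by rw [hη]; linarith
    have hBq : 2 ^ b * q ≤ s * q := mul_le_mul_of_nonneg_right hb1 hq0.le
    have hDq : 2 ^ d * q ≤ r * q := mul_le_mul_of_nonneg_right hd1 hq0.le
    have hsq : 0 < s * q := mul_pos hs0 hq0
    have hrq : 0 < r * q := mul_pos hr0 hq0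
    have hxx : ‖x' - x‖ ≤ η * s := by rw [hη]; linarith
    have hzz : ‖z' - z‖ ≤ η * s := by rw [hη]; linarith
    have hyy : ‖y' - y‖ ≤ η * r := by rw [hη]; linarith
    have hG := hGEOM x y z x' y' z' η hη0 hη1 hsr hxx hzz hyy
    have hηs : η * s ≤ 3 / 64 * s := mul_le_mul_of_nonneg_right hη2 hs0.le
    have hηr : η * r ≤ 3 / 64 * r := mul_le_mul_of_nonneg_right hη2 hr0.le
    have ha : ‖z' - x'‖ ≤ s + 2 * (η * s) := by
      have e : z' - x' = (z - x) + (z' - z) - (x' - x) := by ring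
      rw [e]
      have := norm_sub_le ((z - x) + (z' - z)) (x' - x)
      have := norm_add_le (z - x) (z' - z)
      linarith
    have ha' : s ≤ ‖z' - x'‖ + 2 * (η * s) := by
      have e : z - x = (z' - x') - (z' - z) + (x' - x) := by ring
      have h4 : s ≤ ‖(z' - x') - (z' - z) + (x' - x)‖ := by rw [← e]
      have := norm_add_le ((z' - x') - (z' - z)) (x' - x)
      have := norm_sub_le (z' - x') (z' - z)
      linarith
    have hb : ‖y' - x'‖ ≤ r + η * r + η * s := by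
      have e : y' - x' = (y - x) + (y' - y) - (x' - x) := by ring
      rw [e]
      have := norm_sub_le ((y - x) + (y' - y)) (x' - x)
      have := norm_add_le (y - x) (y' - y)
      linarith
    have hb' : r ≤ ‖y' - x'‖ + η * r + η * s := by
      have e : y - x = (y' - x') - (y' - y) + (x' - x) := by ring
      have h4 : r ≤ ‖(y' - x') - (y' - y) + (x' - x)‖ := by rw [← e]
      have := norm_add_le ((y' - x') - (y' - y)) (x' - x)
      have := norm_sub_le (y' - x') (y' - y)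
      linarith
    have hCC : q / 2 * (s * r) < |crs (z - x) (y - x)| := by
      rw [hσe]
      apply mul_lt_mul_of_pos_right _ hsrp
      have : (1 / 2 : ℝ) ^ (j + 1) = q / 2 := by rw [pow_succ, hq]; ring
      linarith
    rw [ANL.TRI.zp1] at hd2 hb2
    have hwx := hC2 _ _ _ _ hw
    rw [ANL.TRI.zpn4] at hwx
    obtain ⟨hS1, -, hS3, -, -⟩ := hSTRIP
    have hpe : (2 : ℝ) ^ (-(-b - 4)) = 16 * 2 ^ b := ANL.TRI.zpn4 b
    have hqe : (2 : ℝ) ^ (-(-d - 9)) = 512 * 2 ^ d := by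
      have : -(-d - 9) = d + 9 := by ring
      rw [this, zpow_add₀ (by norm_num)]; norm_num; ring
    have hx'e : x' ∈ enl (sh K ω') (-b - 4) (cell (sh K ω') (-b - 4) w) := by
      rw [hw]
      apply hS3
      rw [hpe]
      linarith
    have hz'e : z' ∈ enl (sh K ω') (-b - 4) (cell (sh K ω') (-b - 4) w) := by
      rw [hw]
      apply hS3
      rw [hpe]
      have e : z' - x = (z' - z) + (z - x) := by ring
      rw [e]
      have := norm_add_le (z' - z) (z - x)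
      linarith
    have hy'e : y' ∈ enl (sh K ω') (-d - 9) (cell (sh K ω') (-d - 9) w) := by
      apply hS3
      rw [hqe]
      have e : y' - w = (y' - y) + (y - x) - (w - x) := by ring
      rw [e]
      have := norm_sub_le ((y' - y) + (y - x)) (w - x)
      have := norm_add_le (y' - y) (y - x)
      linarith
    have hCH := hCHAIN (Γ (lab w)) (sh K ω') (-d - 9) (-b - 4) w x' z' y' (hpre _) (by omega)
      (hmem w hwX) (hx'l ▸ hmem x' hx') (hz'l ▸ hmem z' hz') (hy'l ▸ hmem y' hy') hx'e hz'e hy'e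
      (by rw [hpe]; linarith) (by rw [hqe]; linarith)
    unfold exw al
    set S : ℝ := ∑ k ∈ Finset.Icc (-d - 9) (-b - 4),
      bet (Γ (lab w)) (sh K ω') k (cell (sh K ω') k w) with hS
    have hS0 : 0 ≤ S := Finset.sum_nonneg fun k _ => hS1 _ _ _ _
    have hab : ‖z' - x'‖ * ‖y' - x'‖ ≤ 121 / 100 * (s * r) := by
      have h5 : ‖z' - x'‖ ≤ 11 / 10 * s := by linarith
      have h6 : ‖y' - x'‖ ≤ 11 / 10 * r := by linarith
      calc ‖z' - x'‖ * ‖y' - x'‖ ≤ (11 / 10 * s) * (11 / 10 * r) := by gcongr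
        _ = 121 / 100 * (s * r) := by ring
    have h7 : 22000 * (‖z' - x'‖ * ‖y' - x'‖) * S ≤ 22000 * (121 / 100 * (s * r)) * S := by
      gcongr
    have h8 : 8 * η * s * r = 3 / 8 * q * (s * r) := by rw [hη]; ring
    have h9 : 1 / 8 * q * (s * r) < 26620 * S * (s * r) := by
      have h10 : 22000 * (121 / 100 * (s * r)) * S = 26620 * S * (s * r) := by ring
      nlinarith
    have h11 : 1 / 8 * q < 26620 * S := lt_of_mul_lt_mul_right h9 hsrp.le
    linarith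

end Pool.Agent.ANG
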